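import Mathlib

/-!
# Project RIG (MP_c155e6_ag, frozen statement S00424): basic definitions

`S2` is the ring of power series in two variables, `idx M N` the length of `M / (M inf N)`,
`tdual R K M` the trace dual of an `R`-submodule of a finite separable extension `L / K`,
`intB R L` the integral closure of `R` in `L` as an `R`-submodule.
-/

set_option autoImplicit false

noncomputable section

namespace Pool.Agent.Helper85.RIG

open MvPowerSeries

/-- The ring of formal power series in two variables. -/
abbrev S2 : Type := MvPowerSeries (Fin 2) ℂ

/-- The length of `M / (M inf N)`. -/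
def idx {R V : Type*} [CommRing R] [AddCommGroup V] [Module R V] (M N : Submodule R V) : ℕ∞ :=
  Module.length R (M ⧸ N.submoduleOf M)

/-- The trace dual of an `R`-submodule of `L`. -/
def tdual (R K : Type*) {L : Type*} [CommRing R] [Field K] [Algebra R K] [Field L] [Algebra K L]
    [Algebra R L] [IsScalarTower R K L] (M : Submodule R L) : Submodule R L where
  carrier := {g | ∀ m ∈ M, Algebra.trace K L (g * m) ∈ (algebraMap R K).range}
  add_mem' := by
    intro a b ha hb m hm
    rw [add_mul, map_add]
    exact add_mem (ha m hm) (hb m hm)
  zero_mem' := by
    intro m _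
    rw [zero_mul, map_zero]
    exact zero_mem _
  smul_mem' := by
    intro r a ha m hm
    have h1 : r • a * m = algebraMap R K r • (a * m) := by
      rw [smul_mul_assoc, algebraMap_smul]
    rw [h1, map_smul, smul_eq_mul]
    exact mul_mem ⟨r, rfl⟩ (ha m hm)

theorem mem_tdual {R K L : Type*} [CommRing R] [Field K] [Algebra R K] [Field L] [Algebra K L]
    [Algebra R L] [IsScalarTower R K L] {M : Submodule R L} {g : L} :
    g ∈ tdual R K M ↔ ∀ m ∈ M, Algebra.trace K L (g * m) ∈ (algebraMap R K).range :=
  Iff.rfl

/-- The integral closure of `R` in `L`, as an `R`-submodule. -/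
abbrev intB (R L : Type*) [CommRing R] [Field L] [Algebra R L] : Submodule R L :=
  Subalgebra.toSubmodule (integralClosure R L)

end Pool.Agent.Helper85.RIG
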