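import Mathlib
import Pool.Agent.Helper85.RIG.Defs

/-!
# RIG-14 OrdR: the valuation ring `Rord K` of the order valuation of `C[[x, y]]`

`K` is a fraction field of `S2 = C[[x, y]]`. `Rord K` is the set of the quotients `f / g` with
`order g <= order f`. It is a subalgebra by `MvPowerSeries.order_mul` and
`MvPowerSeries.min_order_le_add`.

* `Rord_frac`: `z = f / g`, both in `Rord K` (`S2` maps to `Rord K`).
* every nonzero `z` of `Rord K` is `x^k` times a unit: `z = f / g`, `order f = order g + k`,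
  `z / x^k = f / (g x^k)` and its inverse are in `Rord K`. Hence `Rord K` is a discrete valuation ring
  (`IsDiscreteValuationRing.ofHasUnitMulPowIrreducibleFactorization`) with uniformiser `x`
  (`x` is not a unit: `1 / x = f / g` with `g = x f`, `order g = order f + 1`; irreducible because an
  element of `Rord K` which is a non unit is divisible by `x`).
* `Rord_t`: `t = y / x`.
* `Rord_dvd_iff`: `x^k` divides `f` in `Rord K` iff `f / x^k` is in `Rord K` iff `k <= order f`.
-/

set_option autoImplicit false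

namespace Pool.Agent.Helper85.RIG

open MvPowerSeries

instance instIsDomainS2 : IsDomain S2 := NoZeroDivisors.to_isDomain _

theorem order_X_eq (i : Fin 2) : (X i : S2).order = 1 := by
  have h := MvPowerSeries.order_monomial_of_ne_zero (R := ℂ) (d := Finsupp.single i 1)
    (a := (1 : ℂ)) one_ne_zero
  rw [X_def, h, Finsupp.degree_single]
  rfl

theorem order_one_eq : (1 : S2).order = 0 := by
  have h := MvPowerSeries.order_monomial_of_ne_zero (R := ℂ) (d := (0 : Fin 2 →₀ ℕ))
    (a := (1 : ℂ)) one_ne_zero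
  rw [← MvPowerSeries.monomial_zero_one, h]
  simp

theorem order_X_pow (i : Fin 2) (k : ℕ) : ((X i : S2) ^ k).order = k := by
  induction k with
  | zero => rw [pow_zero, order_one_eq]; rfl
  | succ k ih => rw [pow_succ, MvPowerSeries.order_mul, ih, order_X_eq]; push_cast; rfl

section
variable (K : Type*) [Field K] [Algebra S2 K] [IsFractionRing S2 K]

/-- The valuation ring of the order valuation. -/
def Rord : Subalgebra S2 K where
  carrier := {z | ∃ f g : S2, g ≠ 0 ∧ g.order ≤ f.order ∧
    z * algebraMap S2 K g = algebraMap S2 K f}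
  mul_mem' := by
    rintro z z' ⟨f, g, hg, ho, h⟩ ⟨f', g', hg', ho', h'⟩
    refine ⟨f * f', g * g', mul_ne_zero hg hg', ?_, ?_⟩
    · rw [MvPowerSeries.order_mul, MvPowerSeries.order_mul]
      exact add_le_add ho ho'
    · rw [map_mul, map_mul, ← h, ← h']; ring
  add_mem' := by
    rintro z z' ⟨f, g, hg, ho, h⟩ ⟨f', g', hg', ho', h'⟩
    refine ⟨f * g' + f' * g, g * g', mul_ne_zero hg hg', ?_, ?_⟩
    · refine le_trans ?_ (MvPowerSeries.min_order_le_add)
      rw [MvPowerSeries.order_mul, MvPowerSeries.order_mul, MvPowerSeries.order_mul]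
      refine le_min (add_le_add ho le_rfl) ?_
      rw [add_comm]
      exact add_le_add ho' le_rfl
    · rw [map_add, map_mul, map_mul, map_mul, ← h, ← h']; ring
  algebraMap_mem' f := by
    refine ⟨f, 1, one_ne_zero, ?_, by simp⟩
    have h1 : (1 : S2).order = 0 := by
      have h : (1 : S2).order ≤ ((0 : Fin 2 →₀ ℕ).degree : ℕ∞) :=
        MvPowerSeries.order_le (by simp)
      simpa using h
    rw [h1]; exact zero_le

omit [IsFractionRing S2 K] in
theorem mem_Rord {z : K} : z ∈ Rord K ↔ ∃ f g : S2, g ≠ 0 ∧ g.order ≤ f.order ∧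
    z * algebraMap S2 K g = algebraMap S2 K f := Iff.rfl

omit [IsFractionRing S2 K] in
theorem algebraMap_Rord_coe (f : S2) :
    ((algebraMap S2 (Rord K) f : Rord K) : K) = algebraMap S2 K f := rfl

theorem algebraMap_ne {f : S2} (hf : f ≠ 0) : algebraMap S2 K f ≠ 0 := by
  intro h
  exact hf (IsFractionRing.injective S2 K (by rw [h, map_zero]))

/-- A quotient is in `Rord K` only if the orders are correct. -/
theorem order_le_of_mem {z : K} (hz : z ∈ Rord K) {f g : S2} (hg : g ≠ 0)
    (h : z * algebraMap S2 K g = algebraMap S2 K f) : g.order ≤ f.order := by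
  obtain ⟨f', g', hg', ho, h'⟩ := hz
  have e : f * g' = f' * g := by
    apply IsFractionRing.injective S2 K
    rw [map_mul, map_mul, ← h, ← h']; ring
  have e2 := congrArg MvPowerSeries.order e
  rw [MvPowerSeries.order_mul, MvPowerSeries.order_mul] at e2
  have h3 : g.order + g'.order ≤ f.order + g'.order := by
    rw [e2, add_comm]
    exact add_le_add ho le_rfl
  have hfin : g'.order ≠ ⊤ := fun h4 => hg' (MvPowerSeries.order_eq_top_iff.1 h4)
  exact (ENat.add_le_add_iff_right hfin).1 h3

theorem Rord_not_unit : ¬ IsUnit (algebraMap S2 (Rord K) (X 0)) := by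
  intro hu
  obtain ⟨w, hw⟩ := hu.exists_right_inv
  have hw' : algebraMap S2 K (X 0) * (w : K) = 1 := congrArg Subtype.val hw
  have hX : (X 0 : S2) ≠ 0 := by
    intro h
    have := order_X_eq 0
    rw [h, MvPowerSeries.order_zero] at this
    exact absurd this (by simp)
  have h1 := order_le_of_mem K w.2 (f := 1) (g := X 0) hX (by rw [mul_comm, hw', map_one])
  rw [order_X_eq, order_one_eq] at h1
  exact absurd h1 (by simp)

theorem Rord_factor {z : Rord K} (hz : z ≠ 0) :
    ∃ k : ℕ, ∃ u : (Rord K)ˣ, algebraMap S2 (Rord K) (X 0) ^ k * u = z := by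
  obtain ⟨z, hzm⟩ := z
  have hz0 : z ≠ 0 := fun h => hz (Subtype.ext h)
  obtain ⟨f, g, hg, ho, h⟩ := id hzm
  have hf : f ≠ 0 := by
    intro hf
    rw [hf, map_zero] at h
    rcases mul_eq_zero.1 h with h | h
    · exact hz0 h
    · exact algebraMap_ne K hg h
  obtain ⟨m, hm⟩ := ENat.ne_top_iff_exists.1
    (fun h4 => hf (MvPowerSeries.order_eq_top_iff.1 h4) : f.order ≠ ⊤)
  obtain ⟨l, hl⟩ := ENat.ne_top_iff_exists.1
    (fun h4 => hg (MvPowerSeries.order_eq_top_iff.1 h4) : g.order ≠ ⊤)
  have hlm : l ≤ m := by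
    rw [← hm, ← hl] at ho
    exact_mod_cast ho
  obtain ⟨k, rfl⟩ := Nat.exists_eq_add_of_le hlm
  have hX : (X 0 : S2) ≠ 0 := by
    intro h
    have := order_X_eq 0
    rw [h, MvPowerSeries.order_zero] at this
    exact absurd this (by simp)
  have hXk : algebraMap S2 K (X 0) ^ k ≠ 0 := pow_ne_zero _ (algebraMap_ne K hX)
  have hgk : algebraMap S2 K g ≠ 0 := algebraMap_ne K hg
  have hfk : algebraMap S2 K f ≠ 0 := algebraMap_ne K hf
  have ho1 : (g * X 0 ^ k).order = f.order := by
    rw [MvPowerSeries.order_mul, order_X_pow, ← hm, ← hl]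
    push_cast
    rfl
  have hu : algebraMap S2 K f / (algebraMap S2 K g * algebraMap S2 K (X 0) ^ k) ∈ Rord K := by
    refine ⟨f, g * X 0 ^ k, mul_ne_zero hg (pow_ne_zero _ hX), ho1.le, ?_⟩
    rw [map_mul, map_pow]
    field_simp
  have hv : (algebraMap S2 K g * algebraMap S2 K (X 0) ^ k) / algebraMap S2 K f ∈ Rord K := by
    refine ⟨g * X 0 ^ k, f, hf, ho1.ge, ?_⟩
    rw [map_mul, map_pow]
    field_simp
  refine ⟨k, ⟨⟨_, hu⟩, ⟨_, hv⟩, ?_, ?_⟩, ?_⟩
  · apply Subtype.ext
    change algebraMap S2 K f / (algebraMap S2 K g * algebraMap S2 K (X 0) ^ k) *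
      ((algebraMap S2 K g * algebraMap S2 K (X 0) ^ k) / algebraMap S2 K f) = 1
    field_simp
  · apply Subtype.ext
    change (algebraMap S2 K g * algebraMap S2 K (X 0) ^ k) / algebraMap S2 K f *
      (algebraMap S2 K f / (algebraMap S2 K g * algebraMap S2 K (X 0) ^ k)) = 1
    field_simp
  · apply Subtype.ext
    change algebraMap S2 K (X 0) ^ k *
      (algebraMap S2 K f / (algebraMap S2 K g * algebraMap S2 K (X 0) ^ k)) = z
    rw [← h]
    field_simp

theorem Rord_irred : Irreducible (algebraMap S2 (Rord K) (X 0)) := by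
  refine ⟨Rord_not_unit K, ?_⟩
  intro a b hab
  have hX : algebraMap S2 (Rord K) (X 0) ≠ 0 := by
    intro h
    have h1 : algebraMap S2 K (X 0) = 0 := congrArg Subtype.val h
    refine algebraMap_ne K (f := X 0) ?_ h1
    intro h
    have := order_X_eq 0
    rw [h, MvPowerSeries.order_zero] at this
    exact absurd this (by simp)
  have ha : a ≠ 0 := by rintro rfl; exact hX (by rw [hab, zero_mul])
  have hb : b ≠ 0 := by rintro rfl; exact hX (by rw [hab, mul_zero])
  obtain ⟨i, u, hu⟩ := Rord_factor K ha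
  obtain ⟨j, v, hv⟩ := Rord_factor K hb
  rcases i with _ | i
  · left
    rw [← hu, pow_zero, one_mul]
    exact u.isUnit
  rcases j with _ | j
  · right
    rw [← hv, pow_zero, one_mul]
    exact v.isUnit
  exfalso
  apply Rord_not_unit K
  refine IsUnit.of_mul_eq_one (algebraMap S2 (Rord K) (X 0) ^ i * u *
    (algebraMap S2 (Rord K) (X 0) ^ j * v)) ?_
  apply mul_left_cancel₀ hX
  rw [mul_one]
  conv_rhs => rw [hab, ← hu, ← hv]
  ring

instance Rord_dvr : IsDiscreteValuationRing (Rord K) := by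
  apply IsDiscreteValuationRing.ofHasUnitMulPowIrreducibleFactorization
  exact ⟨_, Rord_irred K, fun {x} hx => Rord_factor K hx⟩

instance Rord_frac : IsFractionRing (Rord K) K := by
  refine IsFractionRing.of_field (Rord K) K fun z => ?_
  obtain ⟨f, g, hg, rfl⟩ := IsFractionRing.div_surjective (A := S2) z
  exact ⟨algebraMap S2 (Rord K) f, algebraMap S2 (Rord K) g, rfl⟩

theorem Rord_t : ∃ t : Rord K, algebraMap S2 (Rord K) (X 1) = t * algebraMap S2 (Rord K) (X 0) := by
  have hX : (X 0 : S2) ≠ 0 := by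
    intro h
    have := order_X_eq 0
    rw [h, MvPowerSeries.order_zero] at this
    exact absurd this (by simp)
  have hXk : algebraMap S2 K (X 0) ≠ 0 := algebraMap_ne K hX
  refine ⟨⟨algebraMap S2 K (X 1) / algebraMap S2 K (X 0), X 1, X 0, hX, ?_, ?_⟩, ?_⟩
  · rw [order_X_eq, order_X_eq]
  · field_simp
  · apply Subtype.ext
    change algebraMap S2 K (X 1) = algebraMap S2 K (X 1) / algebraMap S2 K (X 0) *
      algebraMap S2 K (X 0)
    field_simp

theorem Rord_dvd_iff (f : S2) (k : ℕ) :
    algebraMap S2 (Rord K) (X 0) ^ k ∣ algebraMap S2 (Rord K) f ↔ (k : ℕ∞) ≤ f.order := by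
  have hX : (X 0 : S2) ≠ 0 := by
    intro h
    have := order_X_eq 0
    rw [h, MvPowerSeries.order_zero] at this
    exact absurd this (by simp)
  have hXk : algebraMap S2 K (X 0) ≠ 0 := algebraMap_ne K hX
  constructor
  · rintro ⟨w, hw⟩
    have hw' : algebraMap S2 K f = algebraMap S2 K (X 0) ^ k * (w : K) := congrArg Subtype.val hw
    have h1 := order_le_of_mem K w.2 (f := f) (g := X 0 ^ k) (pow_ne_zero _ hX)
      (by rw [map_pow, hw', mul_comm])
    rwa [order_X_pow] at h1
  · intro h
    refine ⟨⟨algebraMap S2 K f / algebraMap S2 K (X 0) ^ k, f, X 0 ^ k, pow_ne_zero _ hX, ?_, ?_⟩, ?_⟩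
    · rwa [order_X_pow]
    · rw [map_pow]
      field_simp
    · apply Subtype.ext
      change algebraMap S2 K f = algebraMap S2 K (X 0) ^ k *
        (algebraMap S2 K f / algebraMap S2 K (X 0) ^ k)
      field_simp

theorem Rord_natCast (n : ℕ) (hn : n ≠ 0) : IsUnit (n : Rord K) := by
  have h1 : IsUnit (n : ℂ) := isUnit_iff_ne_zero.2 (Nat.cast_ne_zero.2 hn)
  have h2 := h1.map (C : ℂ →+* S2)
  have h3 := h2.map (algebraMap S2 (Rord K))
  simpa using h3

end

end Pool.Agent.Helper85.RIG
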