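import Mathlib
import Pool.Agent.Helper85.RIG.OrdR
import Pool.Agent.Helper85.RigidLift

/-!
# RIG-38 Basis1: a basis of `A` over `C[[x, y]]` with `u_0 = 1` and `u_j` in `m`

Proof. `A` is a finite free module over the local ring `S2`, of rank `d'`. `V = A / n A`, `n` the maximal ideal of `S2`, is a
complex vector space of dimension `d'` (the residue field of `S2` is the complex numbers: work over `S2 / n` =
`IsLocalRing.ResidueField S2`). The class of `1` in `V` is nonzero because `n A <= m` (`f` in `n` has zero constant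
coefficient, `f = X 0 g + X 1 h`, `Pool.Agent.Helper85.eq_sum_X_mul`), so it extends to a basis of `V`; lift this basis to elements `v_0 = 1, v_1, ..`
of `A`; they generate `A` by Nakayama (`Submodule.le_of_le_smul_of_le_jacobson_bot` or
`IsLocalRing.span_eq_top_of_tmul_eq_basis` and similar lemmas in `Mathlib/RingTheory/LocalRing/Module.lean`, where there is also a
statement that a lift of a basis is a basis for free modules), and a generating family of `d'` elements of a free module of rank
`d'` is a basis. Replace `v_j` by `v_j - c_j` with `c_j` complex, `v_j - c_j` in `m` (`hres`); this is again a basis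
(e.g. choose first the lifts in `m`: if `j <> 0` the classes `v_j - c_j 1` also form a basis of `V` together with `1`).
-/

set_option autoImplicit false

namespace Pool.Agent.Helper85.RIG

open MvPowerSeries

/-- A generating family of the right size is a basis. -/
private theorem basis_of_span {R M ι : Type*} [CommRing R] [AddCommGroup M] [Module R M]
    [Module.Finite R M] (b : Module.Basis ι R M) (u : ι → M)
    (h : ∀ i, b i ∈ Submodule.span R (Set.range u)) :
    ∃ b' : Module.Basis ι R M, ∀ i, b' i = u i := by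
  let f : M →ₗ[R] M := b.constr R u
  have hf : ∀ i, f (b i) = u i := fun i => b.constr_basis R u i
  have hsurj : Function.Surjective f := by
    rw [← LinearMap.range_eq_top, eq_top_iff, ← b.span_eq, Submodule.span_le]
    rintro _ ⟨i, rfl⟩
    have h1 : Submodule.span R (Set.range u) ≤ LinearMap.range f := by
      rw [Submodule.span_le]
      rintro _ ⟨j, rfl⟩
      exact ⟨b j, hf j⟩
    exact h1 (h i)
  have hinj : Function.Injective f := OrzechProperty.injective_of_surjective_endomorphism f hsurj
  refine ⟨b.map (LinearEquiv.ofBijective f ⟨hinj, hsurj⟩), fun i => ?_⟩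
  rw [Module.Basis.map_apply, LinearEquiv.ofBijective_apply, hf]

theorem exists_basis_one {A : Type*} [CommRing A] [IsLocalRing A] [Algebra S2 A] [Algebra ℂ A]
    [IsScalarTower ℂ S2 A] [Module.Finite S2 A] [Module.Free S2 A]
    (hX : ∀ i, algebraMap S2 A (X i) ∈ IsLocalRing.maximalIdeal A)
    (hres : ∀ a : A, ∃ c : ℂ, a - algebraMap ℂ A c ∈ IsLocalRing.maximalIdeal A) :
    ∃ (d : ℕ) (u : Module.Basis (Fin (d + 1)) S2 A), u 0 = 1 ∧
      ∀ j, j ≠ 0 → u j ∈ IsLocalRing.maximalIdeal A := by
  classical
  let ι := Module.Free.ChooseBasisIndex S2 A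
  let b : Module.Basis ι S2 A := Module.Free.chooseBasis S2 A
  -- non units of `S2` are mapped to `m`
  have hnon : ∀ f : S2, ¬ IsUnit f → algebraMap S2 A f ∈ IsLocalRing.maximalIdeal A := by
    intro f hf
    have h1 : constantCoeff f = 0 := by
      by_contra h2
      exact hf (MvPowerSeries.isUnit_iff_constantCoeff.2 (isUnit_iff_ne_zero.2 h2))
    rw [Pool.Agent.Helper85.eq_sum_X_mul f h1, map_sum]
    refine Ideal.sum_mem _ fun i _ => ?_
    rw [map_mul]
    exact Ideal.mul_mem_right _ _ (hX i)
  -- one coefficient of `1` is a unit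
  obtain ⟨i₀, hi₀⟩ : ∃ i₀ : ι, IsUnit (b.repr 1 i₀) := by
    by_contra hcon
    push Not at hcon
    have h1 : (1 : A) ∈ IsLocalRing.maximalIdeal A := by
      rw [← b.sum_repr (1 : A)]
      refine Ideal.sum_mem _ fun i _ => ?_
      rw [Algebra.smul_def]
      exact Ideal.mul_mem_right _ _ (hnon _ (hcon i))
    exact (Ideal.ne_top_iff_one _).1 (IsLocalRing.maximalIdeal.isMaximal A).ne_top h1
  choose c hc using hres
  let u : ι → A := fun j => if j = i₀ then 1 else b j - algebraMap ℂ A (c (b j))
  have hu0 : u i₀ = 1 := if_pos rfl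
  have huj : ∀ j, j ≠ i₀ → u j = b j - algebraMap ℂ A (c (b j)) := fun j hj => if_neg hj
  have hspan : ∀ i, b i ∈ Submodule.span S2 (Set.range u) := by
    have h1 : (1 : A) ∈ Submodule.span S2 (Set.range u) := Submodule.subset_span ⟨i₀, hu0⟩
    have hne : ∀ j, j ≠ i₀ → b j ∈ Submodule.span S2 (Set.range u) := by
      intro j hj
      have h2 : b j = u j + algebraMap ℂ S2 (c (b j)) • (1 : A) := by
        rw [huj j hj, Algebra.smul_def, ← IsScalarTower.algebraMap_apply ℂ S2 A]
        ring
      rw [h2]
      exact Submodule.add_mem _ (Submodule.subset_span ⟨j, rfl⟩) (Submodule.smul_mem _ _ h1)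
    intro i
    by_cases hi : i = i₀
    · subst hi
      obtain ⟨v, hv⟩ := hi₀
      have h2 : b.repr 1 i • b i = 1 - ∑ j ∈ Finset.univ.erase i, b.repr 1 j • b j := by
        have h3 := b.sum_repr (1 : A)
        rw [← Finset.add_sum_erase _ _ (Finset.mem_univ i)] at h3
        exact eq_sub_of_add_eq h3
      have h4 : b.repr 1 i • b i ∈ Submodule.span S2 (Set.range u) := by
        rw [h2]
        refine Submodule.sub_mem _ h1 (Submodule.sum_mem _ fun j hj => ?_)
        exact Submodule.smul_mem _ _ (hne j (Finset.ne_of_mem_erase hj))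
      have h5 : b i = (↑v⁻¹ : S2) • (b.repr 1 i • b i) := by
        rw [smul_smul, ← hv, Units.inv_mul, one_smul]
      rw [h5]
      exact Submodule.smul_mem _ _ h4
    · exact hne i hi
  obtain ⟨b', hb'⟩ := basis_of_span b u hspan
  obtain ⟨d, hd⟩ : ∃ d, Fintype.card ι = d + 1 :=
    ⟨Fintype.card ι - 1, by have : 0 < Fintype.card ι := Fintype.card_pos_iff.2 ⟨i₀⟩; omega⟩
  let e₀ : ι ≃ Fin (d + 1) := Fintype.equivFinOfCardEq hd
  let e : ι ≃ Fin (d + 1) := e₀.trans (Equiv.swap (e₀ i₀) 0)
  have he : e i₀ = 0 := by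
    show Equiv.swap (e₀ i₀) 0 (e₀ i₀) = 0
    exact Equiv.swap_apply_left _ _
  refine ⟨d, b'.reindex e, ?_, fun j hj => ?_⟩
  · rw [Module.Basis.reindex_apply, hb']
    have h1 : e.symm 0 = i₀ := by rw [← he, Equiv.symm_apply_apply]
    rw [h1, hu0]
  · rw [Module.Basis.reindex_apply, hb']
    have h1 : e.symm j ≠ i₀ := by
      intro h2
      apply hj
      rw [← he, ← h2, Equiv.apply_symm_apply]
    rw [huj _ h1]
    exact hc _

end Pool.Agent.Helper85.RIG
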