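import Mathlib
import Pool.Agent.Helper85.RIG.OrdR

/-!
# RIG-39 BasisL: the fraction field of `A` over the fraction field of `S2`

`A` is a domain which is a finite module over `S2` (injective `S2 -> A`), with fraction field `L`, `K` the fraction field of `S2`.

* `exists_smul_mem`: every `z` in `L` is `a / s` with `a` in `A` and `0 <> s` in `S2`: `z = a / b`, `b <> 0` is integral over `S2`, so `b`
  divides a nonzero element of `S2` in `A` (the constant term of a polynomial of minimal degree;
  e.g. `exists_integral_multiple`, `Algebra.IsAlgebraic`/`IsIntegral.exists_multiple..`, `IsFractionRing`-lemmas; possibly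
  `IsIntegralClosure.isLocalization` / `IsLocalization (Algebra.algebraMapSubmonoid A S2⁰) L`).
* `exists_basis_L`: so `L` is the localisation of `A` at the nonzero elements of `S2`, and
  `Module.Basis.localizationLocalization`, `Algebra.discr_localizationLocalization` apply
  (the latter gives the discriminant), or directly (linear independence over `K` by clearing denominators, spanning by
  `exists_smul_mem`; the trace of `A / S2` maps to the trace of `L / K`).
-/

set_option autoImplicit false

namespace Pool.Agent.Helper85.RIG

section
variable {A K L : Type*} [CommRing A] [IsDomain A] [Algebra S2 A] [Module.Finite S2 A]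
  [FaithfulSMul S2 A]
  [Field K] [Algebra S2 K] [IsFractionRing S2 K]
  [Field L] [Algebra A L] [IsFractionRing A L] [Algebra S2 L] [IsScalarTower S2 A L]
  [Algebra K L] [IsScalarTower S2 K L]

theorem exists_smul_mem (A : Type*) [CommRing A] [IsDomain A] [Algebra S2 A] [Module.Finite S2 A]
    [FaithfulSMul S2 A] [Algebra A L] [IsFractionRing A L] [IsScalarTower S2 A L] (z : L) :
    ∃ s : S2, s ≠ 0 ∧ ∃ a : A, algebraMap S2 L s * z = algebraMap A L a := by
  obtain ⟨a, b, hb, rfl⟩ := IsFractionRing.div_surjective (A := A) z
  have hint : IsIntegral S2 b := Algebra.IsIntegral.isIntegral b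
  obtain ⟨r, hr, c, hc⟩ := hint.isAlgebraic.exists_nonzero_dvd hb
  have hb0 : algebraMap A L b ≠ 0 := IsFractionRing.to_map_ne_zero_of_mem_nonZeroDivisors hb
  refine ⟨r, hr, a * c, ?_⟩
  rw [IsScalarTower.algebraMap_apply S2 A L, hc, map_mul, map_mul]
  field_simp

theorem exists_basis_L {ι : Type*} [Fintype ι] [DecidableEq ι] (u : Module.Basis ι S2 A) :
    ∃ uL : Module.Basis ι K L, (∀ i, uL i = algebraMap A L (u i)) ∧
      Algebra.discr K uL = algebraMap S2 K (Algebra.discr S2 u) := by
  have hinj : Function.Injective (algebraMap S2 A) := FaithfulSMul.algebraMap_injective S2 A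
  haveI : IsLocalization (Algebra.algebraMapSubmonoid A (nonZeroDivisors S2)) L := by
    rw [isLocalization_iff]
    refine ⟨?_, ?_, ?_⟩
    · rintro ⟨y, s, hs, rfl⟩
      have h1 : algebraMap S2 A s ≠ 0 := by
        intro h
        exact nonZeroDivisors.ne_zero hs (hinj (by rw [h, map_zero]))
      have h2 : algebraMap A L (algebraMap S2 A s) ≠ 0 := by
        intro h
        exact h1 (IsFractionRing.injective A L (by rw [h, map_zero]))
      exact (isUnit_iff_ne_zero.2 h2)
    · intro z
      obtain ⟨s, hs, a, ha⟩ := exists_smul_mem (L := L) A z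
      refine ⟨(a, ⟨algebraMap S2 A s, s, mem_nonZeroDivisors_of_ne_zero hs, rfl⟩), ?_⟩
      show z * algebraMap A L (algebraMap S2 A s) = algebraMap A L a
      rw [← ha, ← IsScalarTower.algebraMap_apply S2 A L, mul_comm]
    · intro x y h
      exact ⟨1, by rw [IsFractionRing.injective A L h]⟩
  refine ⟨u.localizationLocalization K (nonZeroDivisors S2) L, fun i => ?_, ?_⟩
  · exact Module.Basis.localizationLocalization_apply K (nonZeroDivisors S2) L u i
  · exact Algebra.discr_localizationLocalization S2 (nonZeroDivisors S2) L u

end

end Pool.Agent.Helper85.RIG
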