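import Mathlib
import Pool.Agent.Helper85.RIG.OrdR

/-!
# RIG-17 DerExists: the partial derivatives extend to `L`

`K` is the fraction field of `S2`, `L / K` finite. Extend `pderiv i` to `K` by the quotient rule
(`D (f / g) = (g D f - f D g) / g^2`; it may be convenient to build the ring homomorphism
`S2 -> K[eps]`, `f -> f + eps D f`, and lift it with `IsLocalization.lift`, or to use
`KaehlerDifferential`/`Algebra.FormallyEtale`; see also `Derivation` lemmas for localisations), then to `L`
with `Differential.differentialFiniteDimensional` (`Mathlib/FieldTheory/Differential/Basic.lean`: give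
`K` the structure `Differential K` by the derivation; `K` has characteristic zero; then
`differentialAlgebraFiniteDimensional` says that the derivation of `L` extends the one of `K`).
-/

set_option autoImplicit false

namespace Pool.Agent.Helper85.RIG

open MvPowerSeries

private theorem h99_ext {A L : Type*} [CommRing A] [CommRing L] [Algebra A L]
    [Algebra.FormallyEtale A L] (D : A → A) (hadd : ∀ a b, D (a + b) = D a + D b)
    (hmul : ∀ a b, D (a * b) = a * D b + b * D a) :
    ∃ P : Derivation ℤ L L, ∀ a : A, P (algebraMap A L a) = algebraMap A L (D a) := by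
  have hadd' : ∀ a b, (algebraMap A L) (D (a + b)) = algebraMap A L (D a) + algebraMap A L (D b) :=
    fun a b => by rw [hadd, map_add]
  obtain ⟨D0, hD0⟩ : ∃ D0 : Derivation ℤ A L, ∀ f, D0 f = algebraMap A L (D f) := by
    refine ⟨Derivation.mk' (AddMonoidHom.mk' (fun a => algebraMap A L (D a)) hadd').toIntLinearMap
      fun a b => ?_, fun f => rfl⟩
    change algebraMap A L (D (a * b)) = a • algebraMap A L (D b) + b • algebraMap A L (D a)
    rw [hmul, map_add, map_mul, map_mul, Algebra.smul_def, Algebra.smul_def]
  refine ⟨((LinearMap.liftBaseChange L D0.liftKaehlerDifferential).comp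
    (KaehlerDifferential.tensorKaehlerEquivOfFormallyEtale ℤ A L).symm.toLinearMap).compDer
      (KaehlerDifferential.D ℤ L), fun f => ?_⟩
  have h4 := KaehlerDifferential.tensorKaehlerEquivOfFormallyEtale_symm_D_algebraMap ℤ A L f
  have h5 : (((LinearMap.liftBaseChange L D0.liftKaehlerDifferential).comp
    (KaehlerDifferential.tensorKaehlerEquivOfFormallyEtale ℤ A L).symm.toLinearMap).compDer
      (KaehlerDifferential.D ℤ L)) (algebraMap A L f) =
      (LinearMap.liftBaseChange L D0.liftKaehlerDifferential)
        ((KaehlerDifferential.tensorKaehlerEquivOfFormallyEtale ℤ A L).symm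
          (KaehlerDifferential.D ℤ L (algebraMap A L f))) := rfl
  rw [h5, h4, LinearMap.liftBaseChange_tmul, one_smul,
    Derivation.liftKaehlerDifferential_comp_D, hD0]

theorem exists_pderiv_ext (K L : Type*) [Field K] [Algebra S2 K] [IsFractionRing S2 K] [CharZero K]
    [Field L] [Algebra K L] [Algebra S2 L] [IsScalarTower S2 K L] [FiniteDimensional K L] :
    ∃ P : Fin 2 → Derivation ℤ L L, ∀ (i : Fin 2) (f : S2),
      P i (algebraMap S2 L f) = algebraMap S2 L (pderiv ℂ i f) := by
  have h1 : Algebra.FormallyEtale S2 K :=
    Algebra.FormallyEtale.of_isLocalization (nonZeroDivisors S2)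
  have h2 : Algebra.FormallyEtale K L := Algebra.FormallyEtale.of_isSeparable K L
  have h3 : Algebra.FormallyEtale S2 L := Algebra.FormallyEtale.comp S2 K L
  have key : ∀ i : Fin 2, ∃ P : Derivation ℤ L L, ∀ f : S2,
      P (algebraMap S2 L f) = algebraMap S2 L (pderiv ℂ i f) := fun i =>
    h99_ext (fun f => pderiv ℂ i f) (fun a b => map_add _ a b) fun a b => by
      rw [Derivation.leibniz, smul_eq_mul, smul_eq_mul]
  choose P hP using key
  exact ⟨P, hP⟩

end Pool.Agent.Helper85.RIG
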