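import Mathlib
import Pool.Agent.Helper85.RIG.OrdR

/-!
# RIG-15 Oloc: the localisation `Oloc K pi` of `C[[x, y]]` at a prime element `pi`

`Oloc K pi` is the set of the quotients `f / g` with `pi` not dividing `g`; a subalgebra of `K` because
`pi` is prime. It is a discrete valuation ring with uniformiser `pi`: every nonzero `f` in `S2` is
`pi^k f'` with `pi` not dividing `f'` (`S2` is a noetherian domain: `FiniteMultiplicity`, or use
the order: `order (pi^k) >= k`), so every nonzero element is `pi^k` times a unit.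
`Oloc_dvd_iff`: if `f = pi^k (a / g)` then `f g = pi^k a`, so `pi^k | f g`, `pi^k | f`
(`Prime.pow_dvd_of_dvd_mul_right`).
-/

set_option autoImplicit false

namespace Pool.Agent.Helper85.RIG

open MvPowerSeries

section
variable (K : Type*) [Field K] [Algebra S2 K] [IsFractionRing S2 K] (π : S2) (hπ : Prime π)

/-- The localisation at the prime element `π`. -/
def Oloc : Subalgebra S2 K where
  carrier := {z | ∃ f g : S2, ¬ π ∣ g ∧ z * algebraMap S2 K g = algebraMap S2 K f}
  mul_mem' := by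
    rintro z z' ⟨f, g, hg, h⟩ ⟨f', g', hg', h'⟩
    refine ⟨f * f', g * g', ?_, ?_⟩
    · intro hd
      rcases hπ.dvd_or_dvd hd with h1 | h1
      · exact hg h1
      · exact hg' h1
    · rw [map_mul, map_mul, ← h, ← h']; ring
  add_mem' := by
    rintro z z' ⟨f, g, hg, h⟩ ⟨f', g', hg', h'⟩
    refine ⟨f * g' + f' * g, g * g', ?_, ?_⟩
    · intro hd
      rcases hπ.dvd_or_dvd hd with h1 | h1
      · exact hg h1
      · exact hg' h1
    · rw [map_add, map_mul, map_mul, map_mul, ← h, ← h']; ring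
  algebraMap_mem' f := by
    refine ⟨f, 1, ?_, by simp⟩
    intro hd
    exact hπ.not_unit (isUnit_of_dvd_one hd)

omit [IsFractionRing S2 K] in
private theorem coe_map (f : S2) :
    ((algebraMap S2 (Oloc K π hπ) f : Oloc K π hπ) : K) = algebraMap S2 K f := rfl

omit [IsFractionRing S2 K] in
private theorem wit (z : Oloc K π hπ) :
    ∃ f g : S2, ¬ π ∣ g ∧ z * algebraMap S2 (Oloc K π hπ) g = algebraMap S2 (Oloc K π hπ) f := by
  obtain ⟨f, g, hg, h⟩ := z.2
  exact ⟨f, g, hg, Subtype.ext h⟩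

private theorem map_inj : Function.Injective (algebraMap S2 (Oloc K π hπ)) := by
  intro f g h
  apply IsFractionRing.injective S2 K
  rw [← coe_map K π hπ f, ← coe_map K π hπ g, h]

private theorem unit_aux (f : S2) (hf : ¬ π ∣ f) : IsUnit (algebraMap S2 (Oloc K π hπ) f) := by
  have hf0 : algebraMap S2 K f ≠ 0 := by
    intro h
    have h1 : f = 0 := by
      apply IsFractionRing.injective S2 K
      rw [h, map_zero]
    exact hf (h1 ▸ dvd_zero π)
  have hmem : (algebraMap S2 K f)⁻¹ ∈ Oloc K π hπ :=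
    ⟨1, f, hf, by rw [inv_mul_cancel₀ hf0, map_one]⟩
  refine IsUnit.of_mul_eq_one ⟨(algebraMap S2 K f)⁻¹, hmem⟩ (Subtype.ext ?_)
  exact mul_inv_cancel₀ hf0

private theorem dvd_aux (z : Oloc K π hπ) (f g : S2) (hg : ¬ π ∣ g)
    (h : z * algebraMap S2 (Oloc K π hπ) g = algebraMap S2 (Oloc K π hπ) f) (k : ℕ) :
    algebraMap S2 (Oloc K π hπ) π ^ k ∣ z ↔ π ^ k ∣ f := by
  constructor
  · rintro ⟨c, hc⟩
    obtain ⟨a, b, hb, hab⟩ := wit K π hπ c
    have h1 : f * b = π ^ k * a * g := by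
      apply map_inj K π hπ
      rw [map_mul, map_mul, map_mul, map_pow, ← h, ← hab, hc]
      ring
    have h2 : π ^ k ∣ f * b := ⟨a * g, by rw [h1, mul_assoc]⟩
    exact hπ.pow_dvd_of_dvd_mul_right k hb h2
  · rintro ⟨c, hc⟩
    obtain ⟨u, hu⟩ := unit_aux K π hπ g hg
    have h1 : z = algebraMap S2 (Oloc K π hπ) π ^ k * (algebraMap S2 (Oloc K π hπ) c * ↑u⁻¹) := by
      rw [← mul_assoc, ← map_pow, ← map_mul, ← hc, ← h, ← hu, mul_assoc, Units.mul_inv, mul_one]
    exact ⟨_, h1⟩

private theorem not_unit_aux : ¬ IsUnit (algebraMap S2 (Oloc K π hπ) π) := by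
  intro h
  have h1 : ¬ π ∣ (1 : S2) := fun h => hπ.not_unit (isUnit_of_dvd_one h)
  have h2 := (dvd_aux K π hπ 1 1 1 h1 (by rw [map_one, mul_one]) 1).1 (by
    rw [pow_one]
    exact h.dvd)
  rw [pow_one] at h2
  exact h1 h2

private theorem factor_aux (z : Oloc K π hπ) (hz : z ≠ 0) :
    ∃ n : ℕ, Associated (algebraMap S2 (Oloc K π hπ) π ^ n) z := by
  obtain ⟨f, g, hg, h⟩ := wit K π hπ z
  obtain ⟨u, hu⟩ := unit_aux K π hπ g hg
  have hf : f ≠ 0 := by
    rintro rfl
    rw [map_zero, ← hu] at h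
    exact hz (by simpa using h)
  obtain ⟨n, a, ha, hfa⟩ := WfDvdMonoid.max_power_factor' hf hπ.not_unit
  obtain ⟨v, hv⟩ := unit_aux K π hπ a ha
  refine ⟨n, v * u⁻¹, ?_⟩
  rw [Units.val_mul, hv, ← mul_assoc, ← map_pow, ← map_mul, ← hfa, ← h, ← hu, mul_assoc,
    Units.mul_inv, mul_one]

private theorem irred_aux : Irreducible (algebraMap S2 (Oloc K π hπ) π) := by
  have hp : Prime (algebraMap S2 (Oloc K π hπ) π) := by
    refine ⟨?_, not_unit_aux K π hπ, ?_⟩
    · intro h
      exact hπ.ne_zero (map_inj K π hπ (by rw [h, map_zero]))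
    · intro a b hab
      obtain ⟨f, g, hg, h⟩ := wit K π hπ a
      obtain ⟨f', g', hg', h'⟩ := wit K π hπ b
      have hgg : ¬ π ∣ g * g' := by
        intro hd
        rcases hπ.dvd_or_dvd hd with h1 | h1
        · exact hg h1
        · exact hg' h1
      have h1 := (dvd_aux K π hπ (a * b) (f * f') (g * g') hgg (by
        rw [map_mul, map_mul, ← h, ← h']
        ring) 1).1 (by
        rw [pow_one]
        exact hab)
      rw [pow_one] at h1
      rcases hπ.dvd_or_dvd h1 with h2 | h2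
      · left
        have h3 := (dvd_aux K π hπ a f g hg h 1).2 (by
          rw [pow_one]
          exact h2)
        rwa [pow_one] at h3
      · right
        have h3 := (dvd_aux K π hπ b f' g' hg' h' 1).2 (by
          rw [pow_one]
          exact h2)
        rwa [pow_one] at h3
  exact hp.irreducible

instance Oloc_dvr : IsDiscreteValuationRing (Oloc K π hπ) :=
  IsDiscreteValuationRing.ofHasUnitMulPowIrreducibleFactorization
    ⟨_, irred_aux K π hπ, fun {x} hx => factor_aux K π hπ x hx⟩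

instance Oloc_frac : IsFractionRing (Oloc K π hπ) K := by
  refine IsFractionRing.of_field _ _ fun z => ?_
  obtain ⟨f, g, -, h⟩ := IsFractionRing.div_surjective (A := S2) z
  exact ⟨algebraMap S2 (Oloc K π hπ) f, algebraMap S2 (Oloc K π hπ) g, h.symm⟩

theorem Oloc_irred : Irreducible (algebraMap S2 (Oloc K π hπ) π) :=
  irred_aux K π hπ

theorem Oloc_isUnit (f : S2) (hf : ¬ π ∣ f) : IsUnit (algebraMap S2 (Oloc K π hπ) f) :=
  unit_aux K π hπ f hf

theorem Oloc_dvd_iff (f : S2) (k : ℕ) :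
    algebraMap S2 (Oloc K π hπ) π ^ k ∣ algebraMap S2 (Oloc K π hπ) f ↔ π ^ k ∣ f :=
  dvd_aux K π hπ _ f 1 (fun h => hπ.not_unit (isUnit_of_dvd_one h)) (by rw [map_one, mul_one]) k

theorem Oloc_natCast (n : ℕ) (hn : n ≠ 0) : IsUnit (n : Oloc K π hπ) := by
  have h1 : IsUnit ((n : ℂ)) := isUnit_iff_ne_zero.2 (Nat.cast_ne_zero.2 hn)
  have h2 := (h1.map (C : ℂ →+* S2)).map (algebraMap S2 (Oloc K π hπ))
  rw [map_natCast, map_natCast] at h2
  exact h2

end

end Pool.Agent.Helper85.RIG
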