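import Mathlib
import Pool.Agent.Helper85.RIG.Oloc

/-!
# RIG-21 DerOloc: the partial derivatives preserve `Oloc K pi`

For `r = f / g`, `pi` not dividing `g`: `P i (f / g) = (g P_i f - f P_i g) / g^2`, `P_i f = pderiv i f` in `S2`, and `pi` does
not divide `g^2`. If `pi` does not divide `pderiv i pi` then `P i pi` is a unit of `Oloc K pi` (`Oloc_isUnit`).
-/

set_option autoImplicit false

namespace Pool.Agent.Helper85.RIG

open MvPowerSeries

section
variable {K L : Type*} [Field K] [Algebra S2 K] [IsFractionRing S2 K]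
  [Field L] [Algebra K L] [Algebra S2 L] [IsScalarTower S2 K L] (π : S2) (hπ : Prime π)

omit [IsFractionRing S2 K] in
private theorem wit' (z : Oloc K π hπ) :
    ∃ f g : S2, ¬ π ∣ g ∧ z * algebraMap S2 (Oloc K π hπ) g = algebraMap S2 (Oloc K π hπ) f := by
  obtain ⟨f, g, hg, h⟩ := z.2
  exact ⟨f, g, hg, Subtype.ext h⟩

omit [IsFractionRing S2 K] in
private theorem tower (f : S2) : algebraMap (Oloc K π hπ) L (algebraMap S2 (Oloc K π hπ) f) =
    algebraMap S2 L f := by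
  rw [IsScalarTower.algebraMap_apply S2 K L]
  rfl

theorem P_O (P : Fin 2 → Derivation ℤ L L)
    (hP : ∀ i (f : S2), P i (algebraMap S2 L f) = algebraMap S2 L (pderiv ℂ i f)) (i : Fin 2)
    (r : Oloc K π hπ) :
    ∃ r' : Oloc K π hπ, P i (algebraMap (Oloc K π hπ) L r) = algebraMap (Oloc K π hπ) L r' := by
  obtain ⟨f, g, hg, h⟩ := wit' π hπ r
  obtain ⟨u, hu⟩ := Oloc_isUnit K π hπ g hg
  refine ⟨(algebraMap S2 (Oloc K π hπ) (pderiv ℂ i f) -
    r * algebraMap S2 (Oloc K π hπ) (pderiv ℂ i g)) * ((u⁻¹ : (Oloc K π hπ)ˣ) : Oloc K π hπ), ?_⟩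
  have h1 : algebraMap (Oloc K π hπ) L r * algebraMap S2 L g = algebraMap S2 L f := by
    rw [← tower (K := K) (L := L) π hπ g, ← tower (K := K) (L := L) π hπ f, ← map_mul, h]
  have h2 := congrArg (P i) h1
  rw [Derivation.leibniz, hP, hP, smul_eq_mul, smul_eq_mul] at h2
  have h3 : algebraMap S2 L g * algebraMap (Oloc K π hπ) L ((u⁻¹ : (Oloc K π hπ)ˣ) : Oloc K π hπ) = 1 := by
    rw [← tower (K := K) (L := L) π hπ g, ← map_mul, ← hu, Units.mul_inv, map_one]
  rw [map_mul, map_sub, map_mul, tower (K := K) (L := L) π hπ, tower (K := K) (L := L) π hπ, ← h2]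
  linear_combination (-(P i (algebraMap (Oloc K π hπ) L r))) * h3

theorem P_pi (P : Fin 2 → Derivation ℤ L L)
    (hP : ∀ i (f : S2), P i (algebraMap S2 L f) = algebraMap S2 L (pderiv ℂ i f)) (i : Fin 2)
    (hi : ¬ π ∣ pderiv ℂ i π) :
    ∃ r' : (Oloc K π hπ)ˣ, P i (algebraMap (Oloc K π hπ) L (algebraMap S2 (Oloc K π hπ) π)) =
      algebraMap (Oloc K π hπ) L (r' : Oloc K π hπ) := by
  obtain ⟨u, hu⟩ := Oloc_isUnit K π hπ _ hi
  exact ⟨u, by rw [hu, tower (K := K) (L := L) π hπ, tower (K := K) (L := L) π hπ, hP]⟩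

end

end Pool.Agent.Helper85.RIG
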