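import Mathlib

/-!
# RIG-06 DerDvd: derivations and divisibility by a prime

`B` is a domain in which the positive integers are units, `E : B -> B` a derivation, `s` a prime.

* `dvd_der_of_dvd`: if `s | E s` and `s | c` then `s | E c` (`c = s b`, `E c = s E b + b E s`).
* `not_dvd_der_pow`: if `s` does not divide `E s` nor `u`, and `e >= 1`, then `s^e` does not divide
  `E (s^e u) = s^e E u + e s^(e-1) u E s`: otherwise `s | e u E s` (cancel `s^(e-1)`), and `e` is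
  invertible in `B`.
-/

set_option autoImplicit false

namespace Pool.Agent.Helper85.RIG

theorem dvd_der_of_dvd {B : Type*} [CommRing B] (E : Derivation ℤ B B) {s c : B} (h : s ∣ E s)
    (hc : s ∣ c) : s ∣ E c := by
  obtain ⟨b, rfl⟩ := hc
  rw [Derivation.leibniz, smul_eq_mul, smul_eq_mul]
  exact dvd_add (Dvd.intro _ rfl) (h.mul_left b)

theorem not_dvd_der_pow {B : Type*} [CommRing B] [IsDomain B]
    (hQ : ∀ n : ℕ, n ≠ 0 → IsUnit (n : B)) (E : Derivation ℤ B B) {s u : B} (hs : Prime s) (hE : ¬ s ∣ E s) (hu : ¬ s ∣ u) {e : ℕ}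
    (he : 1 ≤ e) : ¬ s ^ e ∣ E (s ^ e * u) := by
  obtain ⟨k, rfl⟩ : ∃ k, e = k + 1 := ⟨e - 1, by omega⟩
  intro hd
  rw [Derivation.leibniz, Derivation.leibniz_pow, smul_eq_mul, smul_eq_mul, smul_eq_mul,
    Nat.add_sub_cancel] at hd
  have h1 : s ^ (k + 1) ∣ u * ((k + 1) • (s ^ k * E s)) :=
    (dvd_add_right (Dvd.intro _ rfl)).1 hd
  have h2 : s ^ (k + 1) ∣ s ^ k * (((k + 1 : ℕ) : B) * (u * E s)) := by
    have h3 : u * ((k + 1) • (s ^ k * E s)) = s ^ k * (((k + 1 : ℕ) : B) * (u * E s)) := by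
      rw [nsmul_eq_mul]
      ring
    rwa [h3] at h1
  rw [pow_succ] at h2
  have h4 : s ∣ ((k + 1 : ℕ) : B) * (u * E s) :=
    (mul_dvd_mul_iff_left (pow_ne_zero k hs.ne_zero)).1 h2
  have hun : IsUnit ((k + 1 : ℕ) : B) := hQ (k + 1) (Nat.succ_ne_zero k)
  have h5 : s ∣ u * E s := (hun.dvd_mul_left).1 h4
  rcases hs.dvd_or_dvd h5 with h6 | h6
  · exact hu h6
  · exact hE h6

end Pool.Agent.Helper85.RIG
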