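import Mathlib
import Pool.Agent.Helper85.RIG.Defs

/-!
# RIG-01 Idx: elementary properties of the index `idx M N = length (M / (M inf N))`

All statements are standard (`Module.length_eq_add_of_exact`, `Module.length_le_of_injective`,
`Module.length_le_of_surjective`, `LinearEquiv.length_eq`).

* `idx_trans`: exact sequence `0 -> M/N -> P/N -> P/M -> 0` for `N <= M <= P`.
* `idx_map`: the equivalence `e` restricts to `M ~ e M`, and maps `N inf M` to `e N inf e M`.
* `idx_prod`: `(M x M')/(N x N') = M/N x M'/N'`, `Module.length_prod`.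
* `idx_anti`: `M/(N inf M) -> M/(N' inf M)` is surjective for `N <= N'`.
* `idx_mono`: `M'/(N inf M') -> M/(N inf M)` is injective for `M' <= M`.
* `idx_eq_zero`: a module of length `0` is trivial.
* `idx_le_length`: if `f : M -> W` has kernel inside `N`, then `M/(M inf N)` is a quotient of
  `M / ker f`, which embeds in `W`.
-/

set_option autoImplicit false

namespace Pool.Agent.Helper85.RIG

variable {R V W : Type*} [CommRing R] [AddCommGroup V] [Module R V] [AddCommGroup W] [Module R W]

theorem idx_trans {N M P : Submodule R V} (h1 : N ≤ M) (h2 : M ≤ P) :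
    idx P N = idx P M + idx M N := by
  have hf : N.submoduleOf M ≤ (N.submoduleOf P).comap (Submodule.inclusion h2) := by
    intro x hx
    exact hx
  have hg : N.submoduleOf P ≤ (M.submoduleOf P).comap LinearMap.id := by
    intro x hx
    exact h1 hx
  unfold idx
  rw [Module.length_eq_add_of_exact (Submodule.mapQ _ _ _ hf) (Submodule.mapQ _ _ _ hg) ?_ ?_ ?_]
  · rw [add_comm]
  · rw [← LinearMap.ker_eq_bot, LinearMap.ker_eq_bot']
    intro q hq
    obtain ⟨x, rfl⟩ := Submodule.mkQ_surjective _ q
    rw [Submodule.mkQ_apply, Submodule.mapQ_apply, Submodule.Quotient.mk_eq_zero] at hq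
    rw [Submodule.mkQ_apply, Submodule.Quotient.mk_eq_zero]
    exact hq
  · intro q
    obtain ⟨x, rfl⟩ := Submodule.mkQ_surjective _ q
    exact ⟨Submodule.Quotient.mk x, rfl⟩
  · intro q
    obtain ⟨x, rfl⟩ := Submodule.mkQ_surjective _ q
    rw [Submodule.mkQ_apply, Submodule.mapQ_apply, Submodule.Quotient.mk_eq_zero]
    constructor
    · intro hx
      exact ⟨Submodule.Quotient.mk ⟨x.1, hx⟩, rfl⟩
    · rintro ⟨q', hq'⟩
      obtain ⟨y, rfl⟩ := Submodule.mkQ_surjective _ q'
      rw [Submodule.mkQ_apply, Submodule.mapQ_apply, Submodule.Quotient.eq] at hq'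
      have h3 : (y : V) - x ∈ N := hq'
      have h4 : (x : V) = y - (y - x) := by abel
      change (x : V) ∈ M
      rw [h4]
      exact M.sub_mem y.2 (h1 h3)

theorem idx_map (e : V ≃ₗ[R] W) (M N : Submodule R V) :
    idx (M.map e.toLinearMap) (N.map e.toLinearMap) = idx M N := by
  unfold idx
  symm
  apply LinearEquiv.length_eq
  refine Submodule.Quotient.equiv _ _ (e.submoduleMap M) ?_
  ext ⟨w, hw⟩
  simp only [Submodule.mem_map, Submodule.submoduleOf, Submodule.mem_comap, Submodule.subtype_apply]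
  constructor
  · rintro ⟨x, hx, hxw⟩
    refine ⟨x.1, hx, ?_⟩
    have := congrArg Subtype.val hxw
    exact this
  · rintro ⟨y, hy, hyw⟩
    obtain ⟨x, hx, hxw⟩ := hw
    have hxy : y = x := e.injective (hyw.trans hxw.symm)
    subst hxy
    exact ⟨⟨y, hx⟩, hy, Subtype.ext hxw⟩

theorem idx_prod {N M : Submodule R V} {N' M' : Submodule R W} (h : N ≤ M) (h' : N' ≤ M') :
    idx (M.prod M') (N.prod N') = idx M N + idx M' N' := by
  unfold idx
  rw [← Module.length_prod]
  apply LinearEquiv.length_eq
  let F : (M.prod M') →ₗ[R] (M ⧸ N.submoduleOf M) × (M' ⧸ N'.submoduleOf M') :=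
    LinearMap.prod
      ((N.submoduleOf M).mkQ ∘ₗ LinearMap.codRestrict M
        (LinearMap.fst R V W ∘ₗ (M.prod M').subtype) (fun x => x.2.1))
      ((N'.submoduleOf M').mkQ ∘ₗ LinearMap.codRestrict M'
        (LinearMap.snd R V W ∘ₗ (M.prod M').subtype) (fun x => x.2.2))
  have hF : ∀ x : M.prod M', F x = (Submodule.Quotient.mk ⟨x.1.1, x.2.1⟩,
    Submodule.Quotient.mk ⟨x.1.2, x.2.2⟩) := fun _ => rfl
  have hsurj : Function.Surjective F := by
    rintro ⟨q, q'⟩
    obtain ⟨x, rfl⟩ := Submodule.mkQ_surjective _ q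
    obtain ⟨x', rfl⟩ := Submodule.mkQ_surjective _ q'
    exact ⟨⟨(x.1, x'.1), x.2, x'.2⟩, rfl⟩
  have hker : (N.prod N').submoduleOf (M.prod M') = LinearMap.ker F := by
    ext x
    rw [LinearMap.mem_ker, hF, Prod.mk_eq_zero, Submodule.Quotient.mk_eq_zero,
      Submodule.Quotient.mk_eq_zero]
    rfl
  exact (Submodule.quotEquivOfEq _ _ hker).trans (F.quotKerEquivOfSurjective hsurj)

theorem idx_anti (M : Submodule R V) {N N' : Submodule R V} (h : N ≤ N') :
    idx M N' ≤ idx M N := by
  have hg : N.submoduleOf M ≤ (N'.submoduleOf M).comap LinearMap.id := by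
    intro x hx
    exact h hx
  unfold idx
  apply Module.length_le_of_surjective (Submodule.mapQ _ _ _ hg)
  intro q
  obtain ⟨x, rfl⟩ := Submodule.mkQ_surjective _ q
  exact ⟨Submodule.Quotient.mk x, rfl⟩

theorem idx_mono (N : Submodule R V) {M' M : Submodule R V} (h : M' ≤ M) :
    idx M' N ≤ idx M N := by
  have hf : N.submoduleOf M' ≤ (N.submoduleOf M).comap (Submodule.inclusion h) := by
    intro x hx
    exact hx
  unfold idx
  apply Module.length_le_of_injective (Submodule.mapQ _ _ _ hf)
  rw [← LinearMap.ker_eq_bot, LinearMap.ker_eq_bot']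
  intro q hq
  obtain ⟨x, rfl⟩ := Submodule.mkQ_surjective _ q
  rw [Submodule.mkQ_apply, Submodule.mapQ_apply, Submodule.Quotient.mk_eq_zero] at hq
  rw [Submodule.mkQ_apply, Submodule.Quotient.mk_eq_zero]
  exact hq

theorem le_of_idx_eq_zero {M N : Submodule R V} (h : idx M N = 0) : M ≤ N := by
  unfold idx at h
  rw [Module.length_eq_zero_iff, Submodule.Quotient.subsingleton_iff,
    Submodule.submoduleOf_eq_top] at h
  exact h

theorem idx_self (M : Submodule R V) : idx M M = 0 := by
  unfold idx
  rw [Module.length_eq_zero_iff, Submodule.Quotient.subsingleton_iff,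
    Submodule.submoduleOf_eq_top]

theorem idx_le_length {M N : Submodule R V} (f : M →ₗ[R] W)
    (hf : ∀ m : M, f m = 0 → (m : V) ∈ N) : idx M N ≤ Module.length R W := by
  have h1 : LinearMap.ker f ≤ (N.submoduleOf M).comap LinearMap.id := by
    intro x hx
    exact hf x hx
  have h2 : Module.length R (M ⧸ N.submoduleOf M) ≤ Module.length R (M ⧸ LinearMap.ker f) := by
    apply Module.length_le_of_surjective (Submodule.mapQ _ _ _ h1)
    intro q
    obtain ⟨x, rfl⟩ := Submodule.mkQ_surjective _ q
    exact ⟨Submodule.Quotient.mk x, rfl⟩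
  refine h2.trans ?_
  apply Module.length_le_of_injective ((LinearMap.ker f).liftQ f le_rfl)
  rw [← LinearMap.ker_eq_bot]
  exact Submodule.ker_liftQ_eq_bot _ _ _ le_rfl

end Pool.Agent.Helper85.RIG
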