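import Mathlib
import Pool.Agent.Helper85.RIG.Idx

/-!
# RIG-02 IdxDet: the index of free lattices over a discrete valuation ring is the valuation of
the determinant

Proof. Let `b` be linearly independent, `M = span b`, `c i = sum_j P i j b j`, `N = span c`,
`det P <> 0`. The isomorphism `(iota -> R) ~ M`, `e_j -> b j`, identifies `M / N` with
`(iota -> R) / range (P^T)`. By the Smith normal form over the principal ideal domain `R`
(`Submodule.smithNormalForm` or `Submodule.exists_smith_normal_form_of_rank_eq`: there are bases
`b'` of `iota -> R` and `a i` in `R` such that the `a i b' i` are a basis of the submodule) the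
quotient is the product of the `R / (a i)`, whose length is the sum of the `addVal (a i)`
(`R / (pi^n u)` has length `n`: filtration by the powers of `pi`, each quotient is the residue
field), and `det P` is the product of the `a i` up to a unit. An alternative proof: induction on the
number of elementary factors of `P`, or on `addVal (det P)`: if `det P` is a unit then `N = M`;
otherwise the reduction of `P` modulo `pi` has a nonzero kernel vector, after a change of basis (an
invertible matrix over `R`) one row of `P` is divisible by `pi`, so `N <= N' <= M` with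
`idx N' N = 1` and `det P' = det P / pi`.
-/

set_option autoImplicit false

namespace Pool.Agent.Helper85.RIG

open Module

private theorem length_span {R : Type*} [CommRing R] [IsDomain R] [IsDiscreteValuationRing R]
    {a : R} (ha : a ≠ 0) :
    Module.length R (R ⧸ Ideal.span ({a} : Set R)) = IsDiscreteValuationRing.addVal R a := by
  obtain ⟨ϖ, hϖ⟩ := IsDiscreteValuationRing.exists_irreducible R
  obtain ⟨n, u, hu⟩ := IsDiscreteValuationRing.eq_unit_mul_pow_irreducible ha hϖ
  have h1 : Ideal.span ({a} : Set R) = IsLocalRing.maximalIdeal R ^ n := by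
    rw [hϖ.maximalIdeal_eq, Ideal.span_singleton_pow, Ideal.span_singleton_eq_span_singleton, hu]
    exact (associated_unit_mul_left _ _ u.isUnit)
  rw [h1, IsDiscreteValuationRing.length_quotient_pow_maximalIdeal,
    IsDiscreteValuationRing.addVal_def a u hϖ n hu]

private theorem addVal_prod {R : Type*} [CommRing R] [IsDomain R] [IsDiscreteValuationRing R]
    {ι : Type*} (s : Finset ι) (a : ι → R) :
    IsDiscreteValuationRing.addVal R (∏ i ∈ s, a i) =
      ∑ i ∈ s, IsDiscreteValuationRing.addVal R (a i) := by
  classical
  induction s using Finset.induction_on with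
  | empty => simp
  | insert i s hi ih =>
    rw [Finset.prod_insert hi, Finset.sum_insert hi, IsDiscreteValuationRing.addVal_mul, ih]

private theorem length_quot {R M ι : Type*} [CommRing R] [IsDomain R] [IsDiscreteValuationRing R]
    [AddCommGroup M] [Module R M] [Fintype ι] [DecidableEq ι] (bb : Basis ι R M)
    (N : Submodule R M) (c : Basis ι R N) :
    Module.length R (M ⧸ N) =
      IsDiscreteValuationRing.addVal R (bb.toMatrix fun i => (c i : M)).det := by
  have hrank : Module.finrank R N = Module.finrank R M := by
    rw [Module.finrank_eq_card_basis c, Module.finrank_eq_card_basis bb]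
  set a := Submodule.smithNormalFormCoeffs bb hrank with ha
  set bT := Submodule.smithNormalFormTopBasis bb hrank with hbT
  set bB := Submodule.smithNormalFormBotBasis bb hrank with hbB
  have hdef : ∀ i, (bB i : M) = a i • bT i := Submodule.smithNormalFormBotBasis_def bb hrank
  have ha0 : ∀ i, a i ≠ 0 := Submodule.smithNormalFormCoeffs_ne_zero bb hrank
  rw [(Submodule.quotientEquivPiSpan N bb hrank).length_eq, Module.length_pi_of_fintype]
  have h1 : ∑ i, Module.length R (R ⧸ Ideal.span ({a i} : Set R)) =
      IsDiscreteValuationRing.addVal R (∏ i, a i) := by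
    rw [addVal_prod]
    exact Finset.sum_congr rfl fun i _ => length_span (ha0 i)
  rw [h1]
  -- compare the determinants
  set f : M →ₗ[R] M := N.subtype ∘ₗ (bb.equiv c (Equiv.refl ι)).toLinearMap with hf
  set g : M →ₗ[R] M := N.subtype ∘ₗ (bT.equiv bB (Equiv.refl ι)).toLinearMap with hg
  set u : M ≃ₗ[R] M := (bb.equiv c (Equiv.refl ι)).trans (bT.equiv bB (Equiv.refl ι)).symm with hu
  have hfg : f = g ∘ₗ u.toLinearMap := by
    apply LinearMap.ext
    intro x
    change ((bb.equiv c (Equiv.refl ι)) x : M) = ((bT.equiv bB (Equiv.refl ι))
      ((bT.equiv bB (Equiv.refl ι)).symm ((bb.equiv c (Equiv.refl ι)) x)) : M)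
    rw [LinearEquiv.apply_symm_apply]
  have hdetf : LinearMap.det f = (bb.toMatrix fun i => (c i : M)).det := by
    rw [← LinearMap.det_toMatrix bb]
    congr 1
    ext i j
    rw [LinearMap.toMatrix_apply, Basis.toMatrix_apply]
    congr 2
    simp [hf]
  have hdetg : LinearMap.det g = ∏ i, a i := by
    rw [← LinearMap.det_toMatrix bT]
    have : LinearMap.toMatrix bT bT g = Matrix.diagonal a := by
      ext i j
      rw [LinearMap.toMatrix_apply]
      have h2 : g (bT j) = a j • bT j := by
        rw [← hdef]
        simp [hg]
      rw [h2, map_smul, Basis.repr_self, Finsupp.smul_single, smul_eq_mul, mul_one,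
        Matrix.diagonal_apply, Finsupp.single_apply]
      by_cases hij : i = j
      · rw [if_pos hij, if_pos hij.symm, hij]
      · rw [if_neg hij, if_neg (fun h => hij h.symm)]
    rw [this, Matrix.det_diagonal]
  have hunit : IsUnit (LinearMap.det u.toLinearMap) := LinearEquiv.isUnit_det' u
  obtain ⟨v, hv⟩ := hunit
  rw [← hdetf, hfg, LinearMap.det_comp, hdetg, IsDiscreteValuationRing.addVal_mul, ← hv,
    IsDiscreteValuationRing.addVal_eq_zero_of_unit, add_zero]

theorem idx_span_det {R V ι : Type*} [CommRing R] [IsDomain R] [IsDiscreteValuationRing R]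
    [AddCommGroup V] [Module R V] [Fintype ι] [DecidableEq ι] (b : ι → V)
    (hb : LinearIndependent R b) (P : Matrix ι ι R) (hP : P.det ≠ 0) :
    idx (Submodule.span R (Set.range b)) (Submodule.span R (Set.range fun i => ∑ j, P i j • b j))
      = IsDiscreteValuationRing.addVal R P.det := by
  set M := Submodule.span R (Set.range b) with hM
  set cc : ι → V := fun i => ∑ j, P i j • b j with hcc
  set N := Submodule.span R (Set.range cc) with hN
  set bb : Basis ι R M := Basis.span hb with hbb
  have hbbc : ∀ i, (bb i : V) = b i := fun i => congrArg Subtype.val (Basis.span_apply hb i)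
  -- the family `cc` in `M`
  set cM : ι → M := fun i => ∑ j, P i j • bb j with hcM
  have hcMc : ∀ i, (cM i : V) = cc i := by
    intro i
    rw [hcM, hcc]
    simp only
    rw [Submodule.coe_sum]
    refine Finset.sum_congr rfl fun j _ => ?_
    rw [Submodule.coe_smul, hbbc]
  have hmat : bb.toMatrix cM = P.transpose := by
    ext i j
    rw [Basis.toMatrix_apply, Matrix.transpose_apply, hcM]
    simp only
    rw [bb.repr_sum_self]
  have hli : LinearIndependent R cM := by
    rw [Fintype.linearIndependent_iff]
    intro g hg
    have h1 : ∀ j, ∑ i, g i * P i j = 0 := by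
      intro j
      have h2 := congrArg (fun x => bb.repr x j) hg
      simp only [map_sum, map_smul, map_zero, Finsupp.coe_zero, Pi.zero_apply,
        Finsupp.coe_finsetSum, Finset.sum_apply, Finsupp.coe_smul, Pi.smul_apply,
        smul_eq_mul] at h2
      rw [← h2]
      refine Finset.sum_congr rfl fun i _ => ?_
      congr 1
      rw [hcM]
      simp only
      rw [bb.repr_sum_self]
    have h3 : Matrix.vecMul g P = 0 := by
      funext j
      exact h1 j
    have h4 := Matrix.eq_zero_of_vecMul_eq_zero hP h3
    intro i
    rw [h4]
    rfl
  set N' := N.submoduleOf M with hN'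
  have hspan : Submodule.span R (Set.range cM) = N' := by
    have hNM : Submodule.map M.subtype (Submodule.span R (Set.range cM)) = N := by
      rw [Submodule.map_span, ← Set.range_comp, hN]
      congr 2
      funext i
      exact hcMc i
    rw [hN', Submodule.submoduleOf, ← hNM,
      Submodule.comap_map_eq_of_injective M.injective_subtype]
  -- the basis of `N'`
  set c0 : Basis ι R (Submodule.span R (Set.range cM)) := Basis.span hli with hc0
  have hc0c : ∀ i, (c0 i : M) = cM i := fun i => congrArg Subtype.val (Basis.span_apply hli i)
  unfold idx
  rw [← hN', ← hspan, length_quot bb _ c0]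
  have h5 : (fun i => (c0 i : M)) = cM := funext hc0c
  rw [h5, hmat, Matrix.det_transpose]

end Pool.Agent.Helper85.RIG
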