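import Mathlib
import Pool.Agent.Helper85.RIG.IdxDet

/-!
# RIG-03 Dual: trace duals of lattices

`R` is a discrete valuation ring with fraction field `K`, `L / K` a finite separable extension,
`u` a `K`-basis of `L`, `M = R`-span of `u`. Let `u'` be the dual basis of `u` for the trace form
(`(Algebra.traceForm K L).dualBasis (traceForm_nondegenerate K L) u`).

* `tdual_span`: `tdual M` is the `R`-span of `u'` (write `g = sum_i Tr(g u i) u' i`); compare
  `LinearMap.BilinForm.dualSubmodule_span_of_basis`.
* `tdual_tdual`: the dual basis of the dual basis is `u` (`LinearMap.BilinForm.dualBasis_dualBasis`,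
  the trace form is symmetric).
* `idx_tdual_self`: if `M <= tdual M` then `u i = sum_j Tr(u i u j) u' j`, the matrix
  `P i j = Tr(u i u j)` has entries in `R` and determinant `discr K u`
  (`Algebra.discr_def`, `Algebra.traceMatrix`), nonzero by separability
  (`Algebra.discr_not_zero_of_basis`); apply `idx_span_det` with `b = u'`.
* `idx_tdual_tdual`: let `N = span v <= M = span u`, `v i = sum_j P i j u j`, `P` over `R`, invertible
  over `K`. Then `u' j = sum_i P i j v' i` (pair with `v i`), so
  `idx (tdual N) (tdual M) = addVal (det P^T) = addVal (det P) = idx M N` by `idx_span_det` twice.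
-/

set_option autoImplicit false
set_option linter.unusedSectionVars false

namespace Pool.Agent.Helper85.RIG

variable {R K L ι : Type*} [CommRing R] [IsDomain R] [IsDiscreteValuationRing R]
  [Field K] [Algebra R K] [IsFractionRing R K] [Field L] [Algebra K L] [Algebra R L]
  [IsScalarTower R K L] [FiniteDimensional K L] [Algebra.IsSeparable K L]
  [Fintype ι] [DecidableEq ι]

theorem tdual_anti {M N : Submodule R L} (h : M ≤ N) : tdual R K N ≤ tdual R K M := by
  intro g hg m hm
  exact hg m (h hm)

omit [IsDiscreteValuationRing R] [IsDomain R] [IsFractionRing R K]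
  [FiniteDimensional K L] [Algebra.IsSeparable K L] in
theorem tdual_eq_dualSubmodule (M : Submodule R L) :
    tdual R K M = (Algebra.traceForm K L).dualSubmodule M := by
  ext g
  rw [mem_tdual, LinearMap.BilinForm.mem_dualSubmodule]
  constructor
  · intro h m hm
    rw [Submodule.mem_one, Algebra.traceForm_apply]
    exact h m hm
  · intro h m hm
    have h1 := h m hm
    rw [Submodule.mem_one, Algebra.traceForm_apply] at h1
    exact h1

omit [Fintype ι] [DecidableEq ι] [IsDiscreteValuationRing R] [IsDomain R]
  [FiniteDimensional K L] [Algebra.IsSeparable K L] in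
theorem linInd (R : Type*) [CommRing R] [Algebra R K] [IsFractionRing R K] [Algebra R L]
    [IsScalarTower R K L] (u : Module.Basis ι K L) : LinearIndependent R u := by
  apply LinearIndependent.restrict_scalars (K := K) _ u.linearIndependent
  intro a b hab
  simp only [Algebra.smul_def, mul_one] at hab
  exact IsFractionRing.injective R K hab

omit [IsDiscreteValuationRing R] [IsDomain R] [FiniteDimensional K L]
  [Algebra.IsSeparable K L] in
theorem exists_matrix (u v : Module.Basis ι K L)
    (h : Submodule.span R (Set.range v) ≤ Submodule.span R (Set.range u)) :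
    ∃ P : Matrix ι ι R, (∀ i, v i = ∑ j, P i j • u j) ∧ P.det ≠ 0 := by
  have h1 : ∀ i, ∃ p : ι → R, ∑ j, p j • u j = v i := by
    intro i
    have h2 : v i ∈ Submodule.span R (Set.range u) := h (Submodule.subset_span ⟨i, rfl⟩)
    exact (Submodule.mem_span_range_iff_exists_fun R).1 h2
  choose P hP using h1
  refine ⟨Matrix.of P, fun i => (hP i).symm, ?_⟩
  intro h0
  have h3 : ((Matrix.of P).map (algebraMap R K)).transpose = u.toMatrix v := by
    ext i j
    rw [Matrix.transpose_apply, Matrix.map_apply, Matrix.of_apply, Module.Basis.toMatrix_apply,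
      ← hP j, map_sum, Finsupp.finsetSum_apply, Finset.sum_eq_single i]
    · rw [← algebraMap_smul K (P j i) (u i), map_smul, Finsupp.smul_apply,
        Module.Basis.repr_self, Finsupp.single_eq_same, smul_eq_mul, mul_one]
    · intro k _ hk
      rw [← algebraMap_smul K (P j k) (u k), map_smul, Finsupp.smul_apply,
        Module.Basis.repr_self, Finsupp.single_eq_of_ne (Ne.symm hk), smul_zero]
    · intro hi; exact absurd (Finset.mem_univ _) hi
  have h4 : IsUnit (u.det v) := Module.Basis.isUnit_det u v
  rw [Module.Basis.det_apply, ← h3, Matrix.det_transpose, ← RingHom.mapMatrix_apply,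
    ← RingHom.map_det, h0, map_zero] at h4
  exact not_isUnit_zero h4

/-- the dual basis for the trace form -/
noncomputable def tb (u : Module.Basis ι K L) : Module.Basis ι K L :=
  (Algebra.traceForm K L).dualBasis (traceForm_nondegenerate K L) u

theorem tb_mul (u : Module.Basis ι K L) (i j : ι) :
    Algebra.trace K L (tb u i * u j) = if j = i then 1 else 0 := by
  rw [← Algebra.traceForm_apply]
  exact LinearMap.BilinForm.apply_dualBasis_left _ _ _ _

theorem tb_expand (u : Module.Basis ι K L) (g : L) :
    g = ∑ j, Algebra.trace K L (g * u j) • tb u j := by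
  conv_lhs => rw [← (tb u).sum_repr g]
  apply Finset.sum_congr rfl
  intro j _
  congr 1
  unfold tb
  rw [LinearMap.BilinForm.dualBasis_repr_apply, Algebra.traceForm_apply]

omit [IsDiscreteValuationRing R] [IsDomain R] [IsFractionRing R K] in
theorem tdual_span_tb (u : Module.Basis ι K L) :
    tdual R K (Submodule.span R (Set.range u)) = Submodule.span R (Set.range (tb u)) := by
  rw [tdual_eq_dualSubmodule]
  exact LinearMap.BilinForm.dualSubmodule_span_of_basis _ _ _

theorem exists_basis_tdual (u : Module.Basis ι K L) :
    ∃ u' : Module.Basis ι K L, tdual R K (Submodule.span R (Set.range u)) =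
      Submodule.span R (Set.range u') :=
  ⟨tb u, tdual_span_tb u⟩

theorem tdual_tdual (u : Module.Basis ι K L) :
    tdual R K (tdual R K (Submodule.span R (Set.range u))) = Submodule.span R (Set.range u) := by
  rw [tdual_eq_dualSubmodule, tdual_eq_dualSubmodule]
  exact LinearMap.BilinForm.dualSubmodule_dualSubmodule_of_basis _ (traceForm_nondegenerate K L)
    (Algebra.traceForm_isSymm K) u

theorem idx_tdual_self (u : Module.Basis ι K L)
    (h : Submodule.span R (Set.range u) ≤ tdual R K (Submodule.span R (Set.range u)))
    (δ : R) (hδ : algebraMap R K δ = Algebra.discr K u) :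
    idx (tdual R K (Submodule.span R (Set.range u))) (Submodule.span R (Set.range u)) =
      IsDiscreteValuationRing.addVal R δ := by
  have h1 : ∀ i j, ∃ r : R, algebraMap R K r = Algebra.trace K L (u i * u j) := by
    intro i j
    exact h (Submodule.subset_span ⟨i, rfl⟩) (u j) (Submodule.subset_span ⟨j, rfl⟩)
  choose P hP using h1
  have hdet : algebraMap R K (Matrix.of P).det = Algebra.discr K u := by
    rw [RingHom.map_det, Algebra.discr_def]
    congr 1
    ext i j
    rw [RingHom.mapMatrix_apply, Matrix.map_apply, Matrix.of_apply, hP, Algebra.traceMatrix_apply,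
      Algebra.traceForm_apply]
  have hdet' : (Matrix.of P).det = δ := IsFractionRing.injective R K (hdet.trans hδ.symm)
  have hne : (Matrix.of P).det ≠ 0 := by
    intro h0
    rw [h0, map_zero] at hdet
    exact Algebra.discr_not_zero_of_basis K u hdet.symm
  have hu : ∀ i, u i = ∑ j, (Matrix.of P) i j • tb u j := by
    intro i
    conv_lhs => rw [tb_expand u (u i)]
    apply Finset.sum_congr rfl
    intro j _
    rw [Matrix.of_apply, ← algebraMap_smul K (P i j), hP]
  have hrange : Set.range u = Set.range fun i => ∑ j, (Matrix.of P) i j • tb u j := by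
    congr 1
    exact funext hu
  have key := idx_span_det (R := R) (tb u) (linInd R (tb u)) (Matrix.of P) hne
  rw [← hrange, hdet'] at key
  rw [tdual_span_tb, key]

theorem idx_tdual_tdual (u v : Module.Basis ι K L)
    (h : Submodule.span R (Set.range v) ≤ Submodule.span R (Set.range u)) :
    idx (tdual R K (Submodule.span R (Set.range v))) (tdual R K (Submodule.span R (Set.range u))) =
      idx (Submodule.span R (Set.range u)) (Submodule.span R (Set.range v)) := by
  obtain ⟨P, hP, hdet⟩ := exists_matrix (R := R) u v h
  have h1 : ∀ j, tb u j = ∑ i, P.transpose j i • tb v i := by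
    intro j
    conv_lhs => rw [tb_expand v (tb u j)]
    apply Finset.sum_congr rfl
    intro i _
    rw [Matrix.transpose_apply, ← algebraMap_smul K (P i j)]
    congr 1
    rw [hP i, Finset.mul_sum, map_sum, Finset.sum_eq_single j]
    · rw [← algebraMap_smul K (P i j), mul_smul_comm, map_smul, tb_mul, if_pos rfl, smul_eq_mul,
        mul_one]
    · intro k _ hk
      rw [← algebraMap_smul K (P i k), mul_smul_comm, map_smul, tb_mul, if_neg hk, smul_zero]
    · intro hi; exact absurd (Finset.mem_univ _) hi
  have hr1 : Set.range v = Set.range fun i => ∑ j, P i j • u j := by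
    congr 1
    exact funext hP
  have hr2 : Set.range (tb u) = Set.range fun j => ∑ i, P.transpose j i • tb v i := by
    congr 1
    exact funext h1
  have k1 := idx_span_det (R := R) u (linInd R u) P hdet
  have k2 := idx_span_det (R := R) (tb v) (linInd R (tb v)) P.transpose
    (by rwa [Matrix.det_transpose])
  rw [← hr1] at k1
  rw [← hr2, Matrix.det_transpose] at k2
  rw [tdual_span_tb, tdual_span_tb, k1, k2]

/-- The index of two lattices is finite. -/
theorem idx_ne_top (u v : Module.Basis ι K L)
    (h : Submodule.span R (Set.range v) ≤ Submodule.span R (Set.range u)) :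
    idx (Submodule.span R (Set.range u)) (Submodule.span R (Set.range v)) ≠ ⊤ := by
  obtain ⟨P, hP, hdet⟩ := exists_matrix (R := R) u v h
  have hr1 : Set.range v = Set.range fun i => ∑ j, P i j • u j := by
    congr 1
    exact funext hP
  have k1 := idx_span_det (R := R) u (linInd R u) P hdet
  rw [← hr1] at k1
  rw [k1]
  intro h0
  exact hdet (IsDiscreteValuationRing.addVal_eq_top_iff.1 h0)

end Pool.Agent.Helper85.RIG
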