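import Mathlib
import Pool.Agent.Helper85.RIG.Dual

/-!
# RIG-04 IntB: the integral closure `B` of a discrete valuation ring `R` in a finite separable
extension `L` of its fraction field `K`

* `intB_pid`: `B` is a Dedekind domain (`integralClosure.isDedekindDomain`), finite over `R`
  (`IsIntegralClosure.finite`); every maximal ideal of `B` lies over the maximal ideal of `R`, and
  `B / (x)` is Artinian (finite over `R / (x)`), so `B` has finitely many maximal ideals:
  `IsPrincipalIdealRing.of_finite_primes` (see also `Mathlib/RingTheory/DedekindDomain/PID.lean`,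
  `IsPrincipalIdealRing.of_finite_maximals`, `Ideal.primesOver` finite: `IsDedekindDomain.primesOver_finite`).
* `finite_primes`: finitely many primes (up to associates): follows.
* `exists_basis_intB`: `B` is a finite free `R`-module (`IsIntegralClosure.module_free`) of rank
  `[L : K]` (`IsIntegralClosure.rank`), and an `R`-basis of `B` is a `K`-basis of `L`
  (`Module.Basis.localizationLocalization`, or linear independence and cardinality).
* `intB_le_tdual`: the trace of an integral element lies in `R` (`Algebra.isIntegral_trace`,
  `IsIntegrallyClosed.isIntegral_iff`).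
-/

set_option autoImplicit false
set_option linter.unusedSectionVars false

namespace Pool.Agent.Helper85.RIG

section
variable (R K L : Type*) [CommRing R] [IsDomain R] [IsDiscreteValuationRing R]
  [Field K] [Algebra R K] [IsFractionRing R K] [Field L] [Algebra K L] [Algebra R L]
  [IsScalarTower R K L] [FiniteDimensional K L] [Algebra.IsSeparable K L]

include K in
theorem intB_dedekind : IsDedekindDomain (integralClosure R L) :=
  IsIntegralClosure.isDedekindDomain R K L (integralClosure R L)

include K in
theorem intB_inj : Function.Injective (algebraMap R L) := by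
  rw [IsScalarTower.algebraMap_eq R K L]
  exact (algebraMap K L).injective.comp (IsFractionRing.injective R K)

include K in
theorem intB_torsionFree : Module.IsTorsionFree R L := by
  have : FaithfulSMul R L := (faithfulSMul_iff_algebraMap_injective R L).mpr (intB_inj R K L)
  infer_instance

include K in
theorem intB_max_ne_bot (M : Ideal (integralClosure R L)) (hM : M.IsMaximal) : M ≠ ⊥ := by
  intro h0
  have := hM
  have h1 : (M.comap (algebraMap R (integralClosure R L))).IsMaximal :=
    Ideal.isMaximal_comap_of_isIntegral_of_isMaximal M
  have hinj : Function.Injective (algebraMap R (integralClosure R L)) := by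
    intro a b hab
    apply intB_inj R K L
    have h2 := congrArg (algebraMap (integralClosure R L) L) hab
    rwa [← IsScalarTower.algebraMap_apply, ← IsScalarTower.algebraMap_apply] at h2
  have h3 : M.comap (algebraMap R (integralClosure R L)) = ⊥ := by
    rw [h0]
    exact Ideal.comap_bot_of_injective _ hinj
  rw [h3, IsLocalRing.eq_maximalIdeal (h3 ▸ h1 : (⊥ : Ideal R).IsMaximal)] at h1
  exact IsDiscreteValuationRing.not_a_field R
    (IsLocalRing.eq_maximalIdeal (h3 ▸ Ideal.isMaximal_comap_of_isIntegral_of_isMaximal M :
      (⊥ : Ideal R).IsMaximal)).symm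

include K in
theorem intB_finite_max :
    {M : Ideal (integralClosure R L) | M.IsMaximal}.Finite := by
  have := intB_dedekind R K L
  have := intB_torsionFree R K L
  have : Module.IsTorsionFree R (integralClosure R L) :=
    Module.IsTorsionFree.of_faithfulSMul _ _ L
  have h1 := IsDedekindDomain.primesOver_finite (IsLocalRing.maximalIdeal R)
    (B := integralClosure R L)
  refine h1.subset ?_
  intro M hM
  have : M.IsMaximal := hM
  refine ⟨hM.isPrime, ⟨?_⟩⟩
  exact (IsLocalRing.eq_maximalIdeal (Ideal.isMaximal_comap_of_isIntegral_of_isMaximal M)).symm

include K in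
theorem intB_pid : IsPrincipalIdealRing (integralClosure R L) := by
  have := intB_dedekind R K L
  exact IsPrincipalIdealRing.of_finite_maximals (intB_finite_max R K L)

include K in
theorem intB_fraction : IsFractionRing (integralClosure R L) L :=
  integralClosure.isFractionRing_of_finite_extension K L

include K in
/-- There are finitely many primes of `B` such that every non unit of `B` is divisible by one. -/
theorem finite_primes : ∃ s : Finset (integralClosure R L), (∀ p ∈ s, Prime p) ∧
    ∀ b : integralClosure R L, ¬ IsUnit b → ∃ p ∈ s, p ∣ b := by
  classical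
  have := intB_pid R K L
  have hfin := intB_finite_max R K L
  refine ⟨hfin.toFinset.image
    (fun M : Ideal (integralClosure R L) => Submodule.IsPrincipal.generator M), ?_, ?_⟩
  · intro p hp
    obtain ⟨M, hM, rfl⟩ := Finset.mem_image.mp hp
    have hM' : M.IsMaximal := by simpa using hM
    have := hM'.isPrime
    exact Submodule.IsPrincipal.prime_generator_of_isPrime M (intB_max_ne_bot R K L M hM')
  · intro b hb
    obtain ⟨M, hM, hbM⟩ := exists_max_ideal_of_mem_nonunits (mem_nonunits_iff.mpr hb)
    refine ⟨Submodule.IsPrincipal.generator M, Finset.mem_image.mpr ⟨M, by simpa using hM, rfl⟩, ?_⟩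
    exact (Submodule.IsPrincipal.mem_iff_generator_dvd M).mp hbM

/-- Every prime of `B` divides the uniformiser of `R`, and no nonzero element of `B` is divisible by
all powers of a prime. -/
theorem prime_dvd (x : R) (hx : Irreducible x) (s : integralClosure R L) (hs : Prime s) :
    s ∣ algebraMap R (integralClosure R L) x := by
  have h1 : (Ideal.span {s}).comap (algebraMap R (integralClosure R L)) ≠ ⊥ :=
    Ideal.comap_ne_bot_of_integral_mem hs.ne_zero (Ideal.mem_span_singleton_self s)
      (Algebra.IsIntegral.isIntegral s)
  obtain ⟨a, ha, ha0⟩ := Submodule.exists_mem_ne_zero_of_ne_bot h1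
  rw [Ideal.mem_comap, Ideal.mem_span_singleton] at ha
  obtain ⟨n, u, hu⟩ := IsDiscreteValuationRing.eq_unit_mul_pow_irreducible ha0 hx
  rw [hu, map_mul, map_pow] at ha
  rcases hs.dvd_or_dvd ha with h | h
  · exact absurd (isUnit_of_dvd_unit h (u.isUnit.map (algebraMap R (integralClosure R L))))
      hs.not_isUnit
  · exact hs.dvd_of_dvd_pow h

theorem intB_le_tdual : intB R L ≤ tdual R K (intB R L) := by
  intro g hg m hm
  have h1 : IsIntegral R (g * m) := IsIntegral.mul hg hm
  have h2 : IsIntegral R (Algebra.trace K L (g * m)) := Algebra.isIntegral_trace h1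
  obtain ⟨y, hy⟩ := IsIntegrallyClosed.isIntegral_iff.mp h2
  exact ⟨y, hy⟩

end

section
variable {R K L : Type*} [CommRing R] [IsDomain R] [IsDiscreteValuationRing R]
  [Field K] [Algebra R K] [IsFractionRing R K] [Field L] [Algebra K L] [Algebra R L]
  [IsScalarTower R K L] [FiniteDimensional K L] [Algebra.IsSeparable K L]

theorem exists_basis_intB {ι : Type*} [Fintype ι] [DecidableEq ι] (u : Module.Basis ι K L) :
    ∃ v : Module.Basis ι K L, intB R L = Submodule.span R (Set.range v) := by
  have := intB_torsionFree R K L
  have : Module.Finite R (integralClosure R L) :=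
    IsIntegralClosure.finite R K L (integralClosure R L)
  have : Module.Free R (integralClosure R L) :=
    IsIntegralClosure.module_free R K L (integralClosure R L)
  have hr : Module.finrank R (integralClosure R L) = Module.finrank K L :=
    IsIntegralClosure.rank R K L (integralClosure R L)
  have hc : Module.finrank K L = Fintype.card ι := Module.finrank_eq_card_basis u
  let w0 := Module.finBasisOfFinrankEq R (integralClosure R L) (hr.trans hc)
  let w : Module.Basis ι R (integralClosure R L) :=
    w0.reindex (Fintype.equivFin ι).symm
  have hli : LinearIndependent R (fun i => ((w i : integralClosure R L) : L)) := by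
    have h1 := w.linearIndependent
    have h2 := h1.map' ((integralClosure R L).val.toLinearMap) (by
      rw [LinearMap.ker_eq_bot]
      exact Subtype.val_injective)
    exact h2
  have hli2 : LinearIndependent K (fun i => ((w i : integralClosure R L) : L)) :=
    (LinearIndependent.iff_fractionRing R K).mp hli
  let v := basisOfLinearIndependentOfCardEqFinrank' _ hli2 hc.symm
  refine ⟨v, ?_⟩
  have hv : (v : ι → L) = fun i => ((w i : integralClosure R L) : L) := by
    simp [v]
  rw [hv]
  have h3 := w.span_eq
  have h4 := congrArg (Submodule.map ((integralClosure R L).val.toLinearMap)) h3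
  rw [Submodule.map_span, Submodule.map_top, ← Set.range_comp] at h4
  have h5 : LinearMap.range ((integralClosure R L).val.toLinearMap) = intB R L := by
    ext z
    constructor
    · rintro ⟨y, rfl⟩
      exact y.2
    · intro hz
      exact ⟨⟨z, hz⟩, rfl⟩
  rw [h5] at h4
  exact h4.symm

theorem mul_mem_tdual_intB {g b : L} (hg : g ∈ tdual R K (intB R L)) (hb : IsIntegral R b) :
    g * b ∈ tdual R K (intB R L) := by
  intro m hm
  rw [mul_assoc]
  exact hg (b * m) (IsIntegral.mul hb hm)

end

end Pool.Agent.Helper85.RIG
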