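import Mathlib
import Pool.Agent.Helper85.RIG.IntB

/-!
# RIG-05 ResLift: lifting the minimal polynomial of a residue class

`R` is a discrete valuation ring in which the positive integers are units, `B` its integral closure in `L`,
`s` a prime of `B`, `b` in `B`. There is a monic `g` over `R` with `s | g(b)` and not `s | g'(b)`.

Proof. `P = (s)` is a nonzero prime ideal of `B`; `x` in `P` (`prime_dvd`), so `P` lies over the maximal
ideal `m_R = (x)` and `B / P` is a field (`Ideal.Quotient.field`; `P` is maximal since `B` is a
principal ideal domain or a Dedekind domain), algebraic over the field `k = R / m_R` because `B` is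
integral over `R`. `k` has characteristic `0` (by `hQ`), so the minimal
polynomial `gbar` of the class of `b` over `k` is separable: `gbar'(b mod P) <> 0`. Lift `gbar` to a
monic polynomial `g` over `R` (`Polynomial.lifts_and_natDegree_eq_and_monic`, the quotient map is
surjective). Then `g(b) mod P = 0` and `g'(b) mod P <> 0`.
-/

set_option autoImplicit false

namespace Pool.Agent.Helper85.RIG

open Polynomial in
theorem res_lift (R K L : Type*) [CommRing R] [IsDomain R] [IsDiscreteValuationRing R]
    [Field K] [Algebra R K] [IsFractionRing R K] [Field L] [Algebra K L] [Algebra R L]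
    [IsScalarTower R K L] [FiniteDimensional K L] [Algebra.IsSeparable K L]
    (hQ : ∀ n : ℕ, n ≠ 0 → IsUnit (n : R))
    (s b : integralClosure R L) (hs : Prime s) :
    ∃ g : R[X], g.Monic ∧ s ∣ aeval b g ∧ ¬ s ∣ aeval b (derivative g) := by
  classical
  haveI hpid : IsPrincipalIdealRing (integralClosure R L) := intB_pid R K L
  obtain ⟨x, hx⟩ := IsDiscreteValuationRing.exists_irreducible R
  have hsx : s ∣ algebraMap R (integralClosure R L) x := prime_dvd R L x hx s hs
  haveI hPp : (Ideal.span {s} : Ideal (integralClosure R L)).IsPrime :=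
    (Ideal.span_singleton_prime hs.ne_zero).2 hs
  have hPne : (Ideal.span {s} : Ideal (integralClosure R L)) ≠ ⊥ := by
    intro h
    exact hs.ne_zero (Ideal.span_singleton_eq_bot.1 h)
  haveI hPm : (Ideal.span {s} : Ideal (integralClosure R L)).IsMaximal :=
    Ideal.IsPrime.isMaximal hPp hPne
  letI : Field (integralClosure R L ⧸ (Ideal.span {s} : Ideal (integralClosure R L))) :=
    Ideal.Quotient.field _
  have hker : ∀ a ∈ IsLocalRing.maximalIdeal R,
      ((Ideal.Quotient.mk (Ideal.span {s} : Ideal (integralClosure R L))).comp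
        (algebraMap R (integralClosure R L))) a = 0 := by
    intro a ha
    rw [hx.maximalIdeal_eq, Ideal.mem_span_singleton] at ha
    obtain ⟨c, rfl⟩ := ha
    rw [RingHom.comp_apply, Ideal.Quotient.eq_zero_iff_mem, Ideal.mem_span_singleton, map_mul]
    exact Dvd.dvd.mul_right hsx _
  letI : Field (R ⧸ IsLocalRing.maximalIdeal R) := Ideal.Quotient.field _
  let ψ : (R ⧸ IsLocalRing.maximalIdeal R) →+*
      (integralClosure R L ⧸ (Ideal.span {s} : Ideal (integralClosure R L))) :=
    Ideal.Quotient.lift _ ((Ideal.Quotient.mk (Ideal.span {s} : Ideal (integralClosure R L))).comp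
        (algebraMap R (integralClosure R L))) hker
  letI : Algebra (R ⧸ IsLocalRing.maximalIdeal R)
      (integralClosure R L ⧸ (Ideal.span {s} : Ideal (integralClosure R L))) := ψ.toAlgebra
  have hcomp : ψ.comp (Ideal.Quotient.mk (IsLocalRing.maximalIdeal R)) =
      (Ideal.Quotient.mk (Ideal.span {s} : Ideal (integralClosure R L))).comp
        (algebraMap R (integralClosure R L)) := by
    ext r
    rfl
  -- evaluation
  have heval : ∀ f : R[X], aeval (Ideal.Quotient.mk (Ideal.span {s} :
      Ideal (integralClosure R L)) b) (f.map (Ideal.Quotient.mk (IsLocalRing.maximalIdeal R))) =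
      Ideal.Quotient.mk (Ideal.span {s} : Ideal (integralClosure R L)) (aeval b f) := by
    intro f
    rw [aeval_def, eval₂_map, aeval_def, hom_eval₂]
    congr 1
  haveI : CharZero (R ⧸ IsLocalRing.maximalIdeal R) := by
    refine charZero_of_inj_zero ?_
    intro n hn
    by_contra hne
    have h1 := (hQ n hne)
    have h2 : Ideal.Quotient.mk (IsLocalRing.maximalIdeal R) (n : R) = 0 := by
      rw [map_natCast]; exact hn
    rw [Ideal.Quotient.eq_zero_iff_mem] at h2
    exact (IsLocalRing.mem_maximalIdeal _).1 h2 h1
  have hint : IsIntegral (R ⧸ IsLocalRing.maximalIdeal R)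
      (Ideal.Quotient.mk (Ideal.span {s} : Ideal (integralClosure R L)) b) := by
    obtain ⟨f, hf, hf0⟩ := (Algebra.IsIntegral.isIntegral (R := R) b)
    refine ⟨f.map (Ideal.Quotient.mk (IsLocalRing.maximalIdeal R)), hf.map _, ?_⟩
    have := heval f
    rw [aeval_def] at this
    rw [this]
    have h0 : aeval b f = 0 := hf0
    rw [h0, map_zero]
  set β := Ideal.Quotient.mk (Ideal.span {s} : Ideal (integralClosure R L)) b with hβ
  have hsep : (minpoly (R ⧸ IsLocalRing.maximalIdeal R) β).Separable :=
    (minpoly.irreducible hint).separable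
  have hlift : minpoly (R ⧸ IsLocalRing.maximalIdeal R) β ∈
      Polynomial.lifts (Ideal.Quotient.mk (IsLocalRing.maximalIdeal R)) := by
    rw [Polynomial.mem_lifts]
    exact Polynomial.map_surjective _ Ideal.Quotient.mk_surjective _
  obtain ⟨g, hg1, -, hg3⟩ := Polynomial.lifts_and_natDegree_eq_and_monic hlift
    (minpoly.monic hint)
  refine ⟨g, hg3, ?_, ?_⟩
  · rw [← Ideal.mem_span_singleton, ← Ideal.Quotient.eq_zero_iff_mem, ← heval, hg1, minpoly.aeval]
  · rw [← Ideal.mem_span_singleton, ← Ideal.Quotient.eq_zero_iff_mem, ← heval,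
      ← Polynomial.derivative_map, hg1]
    exact hsep.aeval_derivative_ne_zero (minpoly.aeval _ _)

end Pool.Agent.Helper85.RIG
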