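import Mathlib
import Pool.Agent.Helper85.RIG.ResLift
import Pool.Agent.Helper85.RIG.DerDvd

/-!
# RIG-08 DerB: a logarithmic derivation of `R` extends to the integral closure `B` (step 4a)

`R` is a discrete valuation ring in which the positive integers are units, with uniformiser `x`; `L / K` finite
separable; `D` is a derivation of `L` with `D(R)` in `R` and `D(x)` in `x R`. Then `D(B)` is in `B`.

Proof. `B = integralClosure R L` is a principal ideal domain with fraction field `L` and a finite
`R`-module (`exists_basis_intB`). `I := {a in B : a D(b) in B for all b in B}` is an ideal of `B`, nonzero: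
if `v_i` generate `B` over `R` and `0 <> a in B` with `a D(v_i) in B` (common denominator), then
`a D(sum r_i v_i) = sum (a D(r_i) v_i + r_i a D(v_i))` is in `B`. Let `I = (a)`, `a <> 0`. If `a` is a unit we are
done (then `D b = a^-1 (a D b)`). Otherwise let `s` be a prime factor of `a`, `a = s a'`. `a'` is not in `I`
(otherwise `s` would be a unit), so there is `b` in `B` with `a' D(b)` not in `B`.
`E := a D` restricts to a derivation `B -> B` (build it as `Derivation Z B B`, with
`algebraMap (E b) = a D b`). `s` does not divide `E b` (otherwise `a' D(b)` would be in `B`). By `res_lift` there is a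
monic `g` over `R` with `s | g(b)`, not `s | g'(b)`. `E(g(b)) = a g^D(b) + g'(b) E(b)`, where `g^D` has the
coefficients `D(g_i)`, in `R` (prove by `Polynomial` induction, or with `Derivation.apply_aeval_eq`, or
directly: `g(b) = sum g_i b^i`); `s | a`, so `s` does not divide `E(g(b))`. Hence not `s | E s` by `dvd_der_of_dvd`.
Now `s | x` (`prime_dvd`), `x = s^e u` in `B` with `e >= 1`, not `s | u` (`B` is a noetherian domain:
`FiniteMultiplicity`, `exists_eq_pow_mul_and_not_dvd`). But `E(x) = a D(x) = a x r'` is divisible by `s^e`,
contradicting `not_dvd_der_pow`.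
-/

set_option autoImplicit false

namespace Pool.Agent.Helper85.RIG

open Polynomial in
theorem dvd_der_aeval {R B : Type*} [CommRing R] [CommRing B] [Algebra R B] (E : Derivation ℤ B B)
    {s : B} (hs : ∀ r : R, s ∣ E (algebraMap R B r)) (b : B) (g : R[X]) :
    s ∣ E (aeval b g) - aeval b (derivative g) * E b := by
  induction g using Polynomial.induction_on' with
  | add p q hp hq =>
    have h : E (aeval b (p + q)) - aeval b (derivative (p + q)) * E b =
      (E (aeval b p) - aeval b (derivative p) * E b) +
        (E (aeval b q) - aeval b (derivative q) * E b) := by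
      simp only [map_add, add_mul]
      ring
    rw [h]
    exact dvd_add hp hq
  | monomial n r =>
    have h : E (aeval b (monomial n r)) - aeval b (derivative (monomial n r)) * E b =
        b ^ n * E (algebraMap R B r) := by
      rw [aeval_monomial, derivative_monomial, aeval_monomial, E.leibniz, E.leibniz_pow]
      simp only [smul_eq_mul, nsmul_eq_mul, map_mul, map_natCast]
      ring
    rw [h]
    exact (hs r).mul_left _

section

variable {R K L : Type*} [CommRing R] [IsDomain R] [IsDiscreteValuationRing R]
    [Field K] [Algebra R K] [IsFractionRing R K] [Field L] [Algebra K L] [Algebra R L]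
    [IsScalarTower R K L] [FiniteDimensional K L] [Algebra.IsSeparable K L]

include K in
/-- A common denominator of the values of `D` on the integral closure. -/
theorem exists_den (D : Derivation ℤ L L)
    (hR : ∀ r : R, ∃ r' : R, D (algebraMap R L r) = algebraMap R L r') :
    ∃ a : R, a ≠ 0 ∧ ∀ b : L, IsIntegral R b → IsIntegral R (algebraMap R L a * D b) := by
  classical
  obtain ⟨v, hv⟩ := exists_basis_intB (R := R) (Module.finBasis K L)
  have hvi : ∀ i, IsIntegral R (v i) := by
    intro i
    have h1 : v i ∈ intB R L := by
      rw [hv]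
      exact Submodule.subset_span ⟨i, rfl⟩
    exact h1
  obtain ⟨a, ha, ha1⟩ := exists_integral_multiples R K (Finset.univ.image fun i => D (v i))
  refine ⟨a, ha, fun b hb => ?_⟩
  have hb1 : b ∈ Submodule.span R (Set.range v) := by
    rw [← hv]
    exact hb
  rw [Submodule.mem_span_range_iff_exists_fun] at hb1
  obtain ⟨c, rfl⟩ := hb1
  rw [map_sum, Finset.mul_sum]
  refine IsIntegral.sum _ fun i _ => ?_
  obtain ⟨c', hc'⟩ := hR (c i)
  have h2 : algebraMap R L a * D (c i • v i) =
      algebraMap R L (c i) * (a • D (v i)) + algebraMap R L a * algebraMap R L c' * v i := by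
    rw [Algebra.smul_def, D.leibniz, hc']
    simp only [smul_eq_mul, Algebra.smul_def]
    ring
  rw [h2]
  refine IsIntegral.add (isIntegral_algebraMap.mul (ha1 _ ?_))
    ((isIntegral_algebraMap.mul isIntegral_algebraMap).mul (hvi i))
  exact Finset.mem_image.2 ⟨i, Finset.mem_univ _, rfl⟩

/-- The ideal of the `a` in `B` with `a D(B)` in `B`. -/
def denIdeal (R : Type*) {L : Type*} [CommRing R] [Field L] [Algebra R L] (D : Derivation ℤ L L) :
    Ideal (integralClosure R L) where
  carrier := {a | ∀ b : L, IsIntegral R b → IsIntegral R ((a : L) * D b)}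
  add_mem' := by
    intro a a' ha ha' b hb
    have h : ((a + a' : integralClosure R L) : L) * D b = (a : L) * D b + (a' : L) * D b := by
      push_cast
      ring
    rw [h]
    exact (ha b hb).add (ha' b hb)
  zero_mem' := by
    intro b _
    simp only [ZeroMemClass.coe_zero, zero_mul]
    exact isIntegral_zero
  smul_mem' := by
    intro c a ha b hb
    have h : ((c • a : integralClosure R L) : L) * D b = (c : L) * ((a : L) * D b) := by
      rw [smul_eq_mul]
      push_cast
      ring
    rw [h]
    exact IsIntegral.mul c.2 (ha b hb)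

theorem mem_denIdeal {R : Type*} {L : Type*} [CommRing R] [Field L] [Algebra R L]
    {D : Derivation ℤ L L} {a : integralClosure R L} :
    a ∈ denIdeal R D ↔ ∀ b : L, IsIntegral R b → IsIntegral R ((a : L) * D b) := Iff.rfl

/-- The derivation `a D` of `B`. -/
def EDer {R : Type*} {L : Type*} [CommRing R] [Field L] [Algebra R L] (D : Derivation ℤ L L)
    (a : integralClosure R L) (h : ∀ b : L, IsIntegral R b → IsIntegral R ((a : L) * D b)) :
    Derivation ℤ (integralClosure R L) (integralClosure R L) :=
  Derivation.mk' (AddMonoidHom.toIntLinearMap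
    { toFun := fun b => ⟨(a : L) * D b, h b b.2⟩
      map_zero' := by
        apply Subtype.ext
        simp
      map_add' := by
        intro b c
        apply Subtype.ext
        simp [mul_add] }) (by
    intro b c
    apply Subtype.ext
    simp only [AddMonoidHom.coe_toIntLinearMap, AddMonoidHom.coe_mk, ZeroHom.coe_mk, smul_eq_mul,
      MulMemClass.coe_mul, AddMemClass.coe_add, Derivation.leibniz]
    ring)

theorem EDer_coe {R : Type*} {L : Type*} [CommRing R] [Field L] [Algebra R L]
    (D : Derivation ℤ L L) (a : integralClosure R L)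
    (h : ∀ b : L, IsIntegral R b → IsIntegral R ((a : L) * D b)) (b : integralClosure R L) :
    ((EDer D a h b : integralClosure R L) : L) = (a : L) * D b := rfl

include K in
/-- If `s` divides `E (R)` but not `E (B)` then `s` does not divide `E s`. -/
theorem not_dvd_der_self (hQ : ∀ n : ℕ, n ≠ 0 → IsUnit (n : R))
    (E : Derivation ℤ (integralClosure R L) (integralClosure R L)) (s b : integralClosure R L)
    (hs : Prime s) (hsR : ∀ r : R, s ∣ E (algebraMap R (integralClosure R L) r))
    (hb : ¬ s ∣ E b) : ¬ s ∣ E s := by
  intro h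
  obtain ⟨g, _, hg1, hg2⟩ := res_lift R K L hQ s b hs
  have h1 : s ∣ E (Polynomial.aeval b g) := dvd_der_of_dvd E h hg1
  have h2 := dvd_der_aeval E hsR b g
  have h3 : s ∣ Polynomial.aeval b (Polynomial.derivative g) * E b := by
    have h4 := dvd_sub h1 h2
    rwa [sub_sub_cancel] at h4
  rcases hs.dvd_or_dvd h3 with h5 | h5
  · exact hg2 h5
  · exact hb h5

include K in
/-- The generator of the ideal `denIdeal`. -/
theorem exists_der_gen (D : Derivation ℤ L L)
    (hR : ∀ r : R, ∃ r' : R, D (algebraMap R L r) = algebraMap R L r') :
    ∃ a : integralClosure R L, a ≠ 0 ∧ (∀ b : L, IsIntegral R b → IsIntegral R ((a : L) * D b)) ∧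
      ∀ a' : integralClosure R L, (∀ b : L, IsIntegral R b → IsIntegral R ((a' : L) * D b)) →
        a ∣ a' := by
  have hpid : IsPrincipalIdealRing (integralClosure R L) := intB_pid R K L
  obtain ⟨a0, ha0⟩ := (IsPrincipalIdealRing.principal (denIdeal R D)).principal
  have hmem : ∀ a' : integralClosure R L, a' ∈ denIdeal R D ↔ a0 ∣ a' := by
    intro a'
    rw [ha0]
    exact Ideal.mem_span_singleton
  refine ⟨a0, ?_, mem_denIdeal.1 ((hmem a0).2 dvd_rfl), fun a' ha' => (hmem a').1 ha'⟩
  rintro rfl
  obtain ⟨a, ha, ha1⟩ := exists_den (K := K) D hR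
  have h1 : algebraMap R (integralClosure R L) a ∈ denIdeal R D := fun b hb => ha1 b hb
  rw [hmem, zero_dvd_iff] at h1
  apply ha
  have h2 : algebraMap R L a = 0 := by
    have := congrArg (Subtype.val) h1
    exact this
  rw [IsScalarTower.algebraMap_apply R K L, map_eq_zero_iff _ (algebraMap K L).injective,
    map_eq_zero_iff _ (IsFractionRing.injective R K)] at h2
  exact h2

omit [IsDomain R] [IsDiscreteValuationRing R] in
/-- If `s` is a prime factor of the generator, then `s` does not divide some `E b`. -/
theorem exists_not_dvd (D : Derivation ℤ L L) (a : integralClosure R L) (ha0 : a ≠ 0)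
    (ha : ∀ b : L, IsIntegral R b → IsIntegral R ((a : L) * D b))
    (hmin : ∀ a' : integralClosure R L,
      (∀ b : L, IsIntegral R b → IsIntegral R ((a' : L) * D b)) → a ∣ a')
    (s : integralClosure R L) (hs : Prime s) (hsa : s ∣ a) :
    ∃ b : integralClosure R L, ¬ s ∣ EDer D a ha b := by
  by_contra hcon
  push Not at hcon
  obtain ⟨a', rfl⟩ := hsa
  have hs0 : (s : L) ≠ 0 := by
    intro h
    exact hs.ne_zero (Subtype.ext h)
  have h1 : s * a' ∣ a' := by
    apply hmin
    intro b hb
    obtain ⟨c, hc⟩ := hcon ⟨b, hb⟩
    have h2 := congrArg (Subtype.val) hc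
    have h3 : ((s * a' : integralClosure R L) : L) * D b = ((s * c : integralClosure R L) : L) := h2
    have h4 : (a' : L) * D b = c := by
      apply mul_left_cancel₀ hs0
      rw [← mul_assoc]
      exact h3
    rw [h4]
    exact c.2
  obtain ⟨c, hc⟩ := h1
  have ha' : a' ≠ 0 := by
    rintro rfl
    exact ha0 (mul_zero _)
  apply hs.not_isUnit
  have h5 : s * c = 1 := by
    apply mul_left_cancel₀ ha'
    calc a' * (s * c) = s * a' * c := by ring
      _ = a' * 1 := by rw [← hc, mul_one]
  exact IsUnit.of_mul_eq_one c h5

end


theorem der_integral {R K L : Type*} [CommRing R] [IsDomain R] [IsDiscreteValuationRing R]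
    [Field K] [Algebra R K] [IsFractionRing R K] [Field L] [Algebra K L] [Algebra R L]
    [IsScalarTower R K L] [FiniteDimensional K L] [Algebra.IsSeparable K L]
    (hQ : ∀ n : ℕ, n ≠ 0 → IsUnit (n : R))
    (D : Derivation ℤ L L)
    (hR : ∀ r : R, ∃ r' : R, D (algebraMap R L r) = algebraMap R L r')
    (x : R) (hx : Irreducible x)
    (hDx : ∃ r' : R, D (algebraMap R L x) = algebraMap R L (x * r'))
    (b : L) (hb : IsIntegral R b) : IsIntegral R (D b) := by
  classical
  have hpid : IsPrincipalIdealRing (integralClosure R L) := intB_pid R K L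
  obtain ⟨a, ha0, ha, hmin⟩ := exists_der_gen (K := K) D hR
  by_cases hu : IsUnit a
  · obtain ⟨c, hc⟩ := hu.exists_left_inv
    have h1 : D b = (c : L) * ((a : L) * D b) := by
      have h2 : (c : L) * (a : L) = 1 := congrArg Subtype.val hc
      rw [← mul_assoc, h2, one_mul]
    rw [h1]
    exact IsIntegral.mul c.2 (ha b hb)
  · exfalso
    obtain ⟨s, hs1, hsa⟩ := WfDvdMonoid.exists_irreducible_factor hu ha0
    have hs : Prime s := hs1.prime
    obtain ⟨b0, hb0⟩ := exists_not_dvd D a ha0 ha hmin s hs hsa
    set E := EDer D a ha with hE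
    have hsR : ∀ r : R, s ∣ E (algebraMap R (integralClosure R L) r) := by
      intro r
      obtain ⟨r', hr'⟩ := hR r
      have h1 : E (algebraMap R (integralClosure R L) r) =
          a * algebraMap R (integralClosure R L) r' := by
        apply Subtype.ext
        rw [hE, EDer_coe]
        have h2 : D ((algebraMap R (integralClosure R L) r : integralClosure R L) : L) =
            algebraMap R L r' := hr'
        rw [h2]
        rfl
      rw [h1]
      exact hsa.mul_right _
    have hss : ¬ s ∣ E s := not_dvd_der_self (K := K) hQ E s b0 hs hsR hb0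
    have hsx := prime_dvd R L x hx s hs
    set xB := algebraMap R (integralClosure R L) x with hxB
    have hx0 : xB ≠ 0 := by
      intro h
      have h2 : algebraMap R L x = 0 := congrArg (Subtype.val) h
      rw [IsScalarTower.algebraMap_apply R K L, map_eq_zero_iff _ (algebraMap K L).injective,
        map_eq_zero_iff _ (IsFractionRing.injective R K)] at h2
      exact hx.ne_zero h2
    obtain ⟨u, hu1, hu2⟩ := (FiniteMultiplicity.of_not_isUnit hs.not_isUnit hx0).exists_eq_pow_mul_and_not_dvd
    set e := multiplicity s xB with he
    have he1 : 1 ≤ e := by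
      by_contra h
      have h0 : e = 0 := by omega
      rw [h0, pow_zero, one_mul] at hu1
      exact hu2 (hu1 ▸ hsx)
    have hQ' : ∀ n : ℕ, n ≠ 0 → IsUnit (n : integralClosure R L) := by
      intro n hn
      have := (hQ n hn).map (algebraMap R (integralClosure R L))
      rwa [map_natCast] at this
    apply not_dvd_der_pow hQ' E hs hss hu2 he1
    rw [← hu1]
    obtain ⟨r', hr'⟩ := hDx
    have h1 : E xB = xB * (a * algebraMap R (integralClosure R L) r') := by
      apply Subtype.ext
      rw [hE, EDer_coe]
      have h2 : D (xB : L) = algebraMap R L (x * r') := hr'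
      rw [h2, map_mul]
      push_cast
      have h3 : (xB : L) = algebraMap R L x := rfl
      rw [h3]
      ring
    rw [h1]
    refine Dvd.dvd.mul_right ?_ _
    rw [hu1]
    exact dvd_mul_right _ _


end Pool.Agent.Helper85.RIG
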