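import Mathlib

/-!
# RIG-07 TraceDer: the trace commutes with derivations

`L / K` is a finite extension, `D` a derivation of `L` mapping `K` to `K`. Then
`D (Tr z) = Tr (D z)` (in `L`).

Proof. Let `w` be a `K`-basis of `L`, `d : K -> K` the restriction of `D` (defined by choice, additive),
`z w_i = sum_j M_ij w_j`, `D w_i = sum_j N_ij w_j`. Apply `D`:
`D(z) w_i = sum_j d(M_ij) w_j + sum_j M_ij D(w_j) - z D(w_i)`
`         = sum_j (d(M_ij) + (M N)_ij - (N M)_ij) w_j`.
So the matrix of multiplication by `D z` is `d(M) + M N - N M`, its trace is `sum_i d(M_ii) = d(Tr z)`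
(`Algebra.trace_eq_matrix_trace`, `Matrix.trace_mul_comm`).
-/

set_option autoImplicit false

namespace Pool.Agent.Helper85.RIG

theorem trace_der {K L : Type*} [Field K] [Field L] [Algebra K L] [FiniteDimensional K L]
    (D : Derivation ℤ L L) (hK : ∀ c : K, ∃ c' : K, D (algebraMap K L c) = algebraMap K L c')
    (z : L) : algebraMap K L (Algebra.trace K L (D z)) =
      D (algebraMap K L (Algebra.trace K L z)) := by
  classical
  choose d hd using hK
  have dadd : ∀ a b, d (a + b) = d a + d b := by
    intro a b
    apply (algebraMap K L).injective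
    rw [map_add, ← hd, ← hd, ← hd, map_add, map_add]
  let dh : K →+ K := AddMonoidHom.mk' d dadd
  let w := Module.finBasis K L
  let M : Matrix _ _ K := Algebra.leftMulMatrix w z
  let N : Matrix (Fin (Module.finrank K L)) (Fin (Module.finrank K L)) K :=
    Matrix.of fun i j => w.repr (D (w j)) i
  have hM : ∀ j, z * w j = ∑ i, M i j • w i := by
    intro j
    conv_lhs => rw [← w.sum_repr (z * w j)]
    refine Finset.sum_congr rfl fun i _ => ?_
    simp only [M, Algebra.leftMulMatrix_eq_repr_mul]
  have hN : ∀ j, D (w j) = ∑ i, N i j • w i := by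
    intro j
    conv_lhs => rw [← w.sum_repr (D (w j))]
    rfl
  have hsm : ∀ (c : K) (x : L), D (c • x) = d c • x + c • D x := by
    intro c x
    rw [Algebra.smul_def, Derivation.leibniz, smul_eq_mul, smul_eq_mul, hd, Algebra.smul_def,
      Algebra.smul_def]
    ring
  have key : Algebra.leftMulMatrix w (D z) = M.map d + (N * M - M * N) := by
    ext i j
    rw [Algebra.leftMulMatrix_eq_repr_mul]
    have e1 : D z * w j = ∑ i, (d (M i j) + (N * M - M * N) i j) • w i := by
      have e2 : D (z * w j) = D z * w j + z * D (w j) := by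
        rw [Derivation.leibniz, smul_eq_mul, smul_eq_mul]; ring
      have e3 : D z * w j = D (z * w j) - z * D (w j) := by rw [e2]; ring
      rw [e3, hM, map_sum, hN]
      simp only [hsm, Finset.sum_add_distrib, hN, Finset.smul_sum, Finset.mul_sum,
        mul_smul_comm, hM, smul_smul, add_smul, Matrix.sub_apply, sub_smul, Matrix.mul_apply,
        Finset.sum_smul, Finset.sum_sub_distrib]
      rw [add_sub_assoc]
      congr 1
      congr 1
      · rw [Finset.sum_comm]
        refine Finset.sum_congr rfl fun a _ => Finset.sum_congr rfl fun b _ => ?_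
        rw [mul_comm]
      · rw [Finset.sum_comm]
        refine Finset.sum_congr rfl fun a _ => Finset.sum_congr rfl fun b _ => ?_
        rw [mul_comm]
    rw [e1, Module.Basis.repr_sum_self]
    simp
  rw [Algebra.trace_eq_matrix_trace w, Algebra.trace_eq_matrix_trace w, key, Matrix.trace_add,
    Matrix.trace_sub, Matrix.trace_mul_comm, sub_self, add_zero, hd]
  congr 1
  change _ = dh _
  simp only [Matrix.trace, Matrix.diag_apply, Matrix.map_apply, map_sum]
  rfl

end Pool.Agent.Helper85.RIG
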