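import Mathlib
import Pool.Agent.Helper85.RIG.ResLift
import Pool.Agent.Helper85.RIG.DerDvd
import Pool.Agent.Helper85.RIG.TraceDer
import Pool.Agent.Helper85.RIG.DerB

/-!
# RIG-09 DiffB: derivations and the different (the local claim of step 3)

`R` is a discrete valuation ring in which the positive integers are units, with uniformiser `x`; `L / K` finite
separable; `D` is a derivation of `L` with `D(R)` in `R` and `D(x)` a unit of `R`. Let `B` be the integral closure
of `R` in `L`, `C = tdual B = {g : Tr(g B) in R}`. If `a` in `L` satisfies `a D(B)` in `B` and `g` is in `C`, then `a g` is in `B`.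

Proof. `B` is a principal ideal domain with fraction field `L`. `a D(x)` in `B` and `D(x)` a unit give `a` in `B`.
`I := {a in B : a D(b) in B for all b in B}` is an ideal of `B`, nonzero as in DerB (common denominators of
`D(v_i)`, `v_i` an `R`-basis of `B`), `I = (a0)`. `C` is a `B`-submodule of `L` (`mul_mem_tdual_intB`), finitely generated
(over `R`: `exists_basis_tdual` with the basis of `exists_basis_intB`) and nonzero, so `C = gam B` with `0 <> gam` in `C`
(fractional ideals of a principal ideal domain are principal, or: `q C` in `B` for some nonzero `q`, an ideal of `B`).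
It suffices that `j := a0 gam` is in `B` (then `a = a0 b1`, `g = gam b2`).
(1) `D(j)` is in `C`: for `b` in `B`, `Tr(b D(a0 gam)) = D(Tr(a0 gam b)) - Tr(gam (a0 D(b)))` (`trace_der`; `D` maps `K = Frac R` to
`K`); `a0 gam b` is in `C`, so its trace is in `R`, and `D(R)` in `R`; `a0 D(b)` is in `B`, so the last trace is in `R`.
So `D(j) = gam b` with `b` in `B`, and `a0 D(j) = j b`.
(2) Suppose `j` is not in `B`: `j = p / q` with `p, q` in `B` coprime, `q` not a unit; `s` a prime factor of `q`,
not `s | p`; `q = s^k q'`, `k >= 1`, not `s | q'`. Let `E = a0 D : B -> B` (a derivation of `B`).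
(3) not `s | E s`. If not `s | a0`: `E(x) = a0 D(x) = a0 unit` is not divisible by `s`, while `s | x` (`prime_dvd`); so
not `s | E s` by `dvd_der_of_dvd`. If `s | a0 = s a'`: `a'` is not in `I`, take `b` with `a' D(b)` not in `B`, so not `s | E b`;
`res_lift` gives a monic `g` over `R` with `s | g(b)`, not `s | g'(b)`; `E(g(b)) = a0 g^D(b) + g'(b) E b` is not divisible by `s`,
so not `s | E s` by `dvd_der_of_dvd`.
(4) `a0 D(p/q) = (q E(p) - p E(q)) / q^2 = (p/q) b` gives `q E(p) - p E(q) = p q b`, so `q | p E(q)`, `s^k | p E(q)`, `s^k | E(q)`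
(`s` prime, not `s | p`), contradicting `not_dvd_der_pow` for `q = s^k q'`.
-/

set_option autoImplicit false

namespace Pool.Agent.Helper85.RIG

section

variable {R K L : Type*} [CommRing R] [IsDomain R] [IsDiscreteValuationRing R]
    [Field K] [Algebra R K] [IsFractionRing R K] [Field L] [Algebra K L] [Algebra R L]
    [IsScalarTower R K L] [FiniteDimensional K L] [Algebra.IsSeparable K L]

/-- The ideal of the `b` in `B` with `b / q` in the trace dual of `B`. -/
def dualIdeal (R K : Type*) {L : Type*} [CommRing R] [IsDomain R] [IsDiscreteValuationRing R]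
    [Field K] [Algebra R K] [IsFractionRing R K] [Field L] [Algebra K L] [Algebra R L]
    [IsScalarTower R K L] [FiniteDimensional K L] [Algebra.IsSeparable K L] (q : L) :
    Ideal (integralClosure R L) where
  carrier := {b | (b : L) / q ∈ tdual R K (intB R L)}
  add_mem' := by
    intro b c hb hc
    have h : ((b + c : integralClosure R L) : L) / q = (b : L) / q + (c : L) / q := by
      push_cast
      ring
    change ((b + c : integralClosure R L) : L) / q ∈ tdual R K (intB R L)
    rw [h]
    exact add_mem hb hc
  zero_mem' := by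
    change ((0 : integralClosure R L) : L) / q ∈ tdual R K (intB R L)
    rw [ZeroMemClass.coe_zero, zero_div]
    exact zero_mem _
  smul_mem' := by
    intro c b hb
    change ((c • b : integralClosure R L) : L) / q ∈ tdual R K (intB R L)
    have h : ((c • b : integralClosure R L) : L) / q = (b : L) / q * (c : L) := by
      rw [smul_eq_mul]
      push_cast
      ring
    rw [h]
    exact mul_mem_tdual_intB hb c.2

/-- The trace dual of `B` is a principal fractional ideal. -/
theorem exists_gam : ∃ gam : L, gam ∈ tdual R K (intB R L) ∧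
    ∀ g ∈ tdual R K (intB R L), ∃ b : integralClosure R L, g = gam * b := by
  classical
  have hpid : IsPrincipalIdealRing (integralClosure R L) := intB_pid R K L
  obtain ⟨v, hv⟩ := exists_basis_intB (R := R) (Module.finBasis K L)
  obtain ⟨u, hu⟩ := exists_basis_tdual (R := R) v
  obtain ⟨q, hq, hq1⟩ := exists_integral_multiples R K (Finset.univ.image u)
  have hqL : algebraMap R L q ≠ 0 := by
    rw [IsScalarTower.algebraMap_apply R K L]
    intro h
    rw [map_eq_zero_iff _ (algebraMap K L).injective,
      map_eq_zero_iff _ (IsFractionRing.injective R K)] at h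
    exact hq h
  have hC : ∀ g ∈ tdual R K (intB R L), IsIntegral R (algebraMap R L q * g) := by
    intro g hg
    rw [hv, hu, Submodule.mem_span_range_iff_exists_fun] at hg
    obtain ⟨c, rfl⟩ := hg
    rw [Finset.mul_sum]
    refine IsIntegral.sum _ fun i _ => ?_
    have h : algebraMap R L q * c i • u i = algebraMap R L (c i) * (q • u i) := by
      simp only [Algebra.smul_def]
      ring
    rw [h]
    exact isIntegral_algebraMap.mul (hq1 _ (Finset.mem_image.2 ⟨i, Finset.mem_univ _, rfl⟩))
  obtain ⟨t, ht⟩ := (IsPrincipalIdealRing.principal (dualIdeal R K (algebraMap R L q))).principal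
  have hmem : ∀ b : integralClosure R L, (b : L) / algebraMap R L q ∈ tdual R K (intB R L) ↔
      t ∣ b := by
    intro b
    have h1 : b ∈ dualIdeal R K (algebraMap R L q) ↔ t ∣ b := by
      rw [ht]
      exact Ideal.mem_span_singleton
    exact h1
  refine ⟨(t : L) / algebraMap R L q, (hmem t).2 dvd_rfl, fun g hg => ?_⟩
  have h2 : t ∣ ⟨algebraMap R L q * g, hC g hg⟩ := by
    rw [← hmem]
    change algebraMap R L q * g / algebraMap R L q ∈ tdual R K (intB R L)
    rwa [mul_div_cancel_left₀ _ hqL]
  obtain ⟨b, hb⟩ := h2
  refine ⟨b, ?_⟩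
  have h3 : algebraMap R L q * g = (t : L) * (b : L) := congrArg Subtype.val hb
  rw [div_mul_eq_mul_div, eq_div_iff hqL, ← h3]
  ring

end


theorem diff_integral {R K L : Type*} [CommRing R] [IsDomain R] [IsDiscreteValuationRing R]
    [Field K] [Algebra R K] [IsFractionRing R K] [Field L] [Algebra K L] [Algebra R L]
    [IsScalarTower R K L] [FiniteDimensional K L] [Algebra.IsSeparable K L]
    (hQ : ∀ n : ℕ, n ≠ 0 → IsUnit (n : R))
    (D : Derivation ℤ L L)
    (hR : ∀ r : R, ∃ r' : R, D (algebraMap R L r) = algebraMap R L r')
    (x : R) (hx : Irreducible x)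
    (hDx : ∃ r' : Rˣ, D (algebraMap R L x) = algebraMap R L (r' : R))
    (a g : L) (ha : ∀ b : L, IsIntegral R b → IsIntegral R (a * D b))
    (hg : g ∈ tdual R K (intB R L)) : IsIntegral R (a * g) := by
  classical
  have hpid : IsPrincipalIdealRing (integralClosure R L) := intB_pid R K L
  have hfr : IsFractionRing (integralClosure R L) L := intB_fraction R K L
  obtain ⟨r1, hr1⟩ := hDx
  have haB : IsIntegral R a := by
    have h1 := ha (algebraMap R L x) isIntegral_algebraMap
    rw [hr1] at h1
    have h2 : a = a * algebraMap R L (r1 : R) * algebraMap R L ((r1⁻¹ : Rˣ) : R) := by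
      rw [mul_assoc, ← map_mul, Units.mul_inv, map_one, mul_one]
    rw [h2]
    exact h1.mul isIntegral_algebraMap
  obtain ⟨a0, ha0, hA, hmin⟩ := exists_der_gen (K := K) D hR
  obtain ⟨b1, hb1⟩ := hmin ⟨a, haB⟩ ha
  obtain ⟨gam, hgam, hgen⟩ := exists_gam (R := R) (K := K) (L := L)
  obtain ⟨b2, hb2⟩ := hgen g hg
  have hb1' : a = (a0 : L) * (b1 : L) := congrArg Subtype.val hb1
  suffices hj : IsIntegral R ((a0 : L) * gam) by
    have h1 : a * g = (a0 : L) * gam * (b1 * b2) := by
      rw [hb1', hb2]
      ring
    rw [h1]
    exact hj.mul (IsIntegral.mul b1.2 b2.2)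
  set j : L := (a0 : L) * gam with hjdef
  -- the derivative of `j` is in the dual
  have hDj : D j ∈ tdual R K (intB R L) := by
    intro b hb
    have hb' : IsIntegral R b := hb
    have h1 : D j * b = D (j * b) - gam * ((a0 : L) * D b) := by
      rw [D.leibniz j b]
      simp only [smul_eq_mul]
      rw [hjdef]
      ring
    rw [h1, map_sub]
    have h2 : Algebra.trace K L (j * b) ∈ (algebraMap R K).range := by
      have h3 : j * b = gam * ((a0 : L) * b) := by
        rw [hjdef]
        ring
      rw [h3]
      exact hgam _ (IsIntegral.mul a0.2 hb')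
    obtain ⟨r, hr⟩ := h2
    have hK : ∀ c : K, ∃ c' : K, D (algebraMap K L c) = algebraMap K L c' := by
      intro c
      obtain ⟨n, d, hd, rfl⟩ := IsFractionRing.div_surjective (A := R) c
      obtain ⟨n', hn'⟩ := hR n
      obtain ⟨d', hd'⟩ := hR d
      have hd0 : algebraMap R K d ≠ 0 := by
        intro h
        rw [map_eq_zero_iff _ (IsFractionRing.injective R K)] at h
        exact nonZeroDivisors.ne_zero hd h
      have hd0' : algebraMap R L d ≠ 0 := by
        rw [IsScalarTower.algebraMap_apply R K L]
        intro h
        rw [map_eq_zero_iff _ (algebraMap K L).injective] at h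
        exact hd0 h
      refine ⟨(algebraMap R K n' - algebraMap R K n / algebraMap R K d * algebraMap R K d') /
        algebraMap R K d, ?_⟩
      have h4 : algebraMap K L (algebraMap R K n / algebraMap R K d) * algebraMap R L d =
          algebraMap R L n := by
        rw [map_div₀, ← IsScalarTower.algebraMap_apply R K L, ← IsScalarTower.algebraMap_apply R K L,
          div_mul_cancel₀ _ hd0']
      have h5 := congrArg D h4
      rw [D.leibniz, hn', hd'] at h5
      simp only [smul_eq_mul] at h5
      rw [map_div₀ (algebraMap K L) (algebraMap R K n' - _), map_sub, map_mul (algebraMap K L) (_ / _),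
        ← IsScalarTower.algebraMap_apply R K L n', ← IsScalarTower.algebraMap_apply R K L d',
        ← IsScalarTower.algebraMap_apply R K L d, eq_div_iff hd0', ← h5]
      ring
    have h6 := trace_der D hK (j * b)
    rw [← hr, ← IsScalarTower.algebraMap_apply R K L] at h6
    obtain ⟨r', hr'⟩ := hR r
    rw [hr', IsScalarTower.algebraMap_apply R K L] at h6
    have h7 := (algebraMap K L).injective h6
    rw [h7]
    exact sub_mem ⟨r', rfl⟩ (hgam _ (hA b hb'))
  obtain ⟨b, hb⟩ := hgen _ hDj
  -- the reduced fraction
  by_contra hj
  obtain ⟨p, q, hpq, hmk⟩ := IsFractionRing.exists_reduced_fraction (A := integralClosure R L) j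
  have hq0 : (q : integralClosure R L) ≠ 0 := nonZeroDivisors.ne_zero q.2
  have hq0' : ((q : integralClosure R L) : L) ≠ 0 := fun h => hq0 (Subtype.ext h)
  have hjq : j * ((q : integralClosure R L) : L) = (p : L) := by
    rw [← hmk]
    exact IsLocalization.mk'_spec _ _ _
  have hqu : ¬ IsUnit (q : integralClosure R L) := by
    intro hu
    obtain ⟨c, hc⟩ := hu.exists_left_inv
    have hc' : (c : L) * ((q : integralClosure R L) : L) = 1 := congrArg Subtype.val hc
    apply hj
    have h1 : j = (p : L) * (c : L) := by
      rw [← hjq, mul_assoc, mul_comm ((q : integralClosure R L) : L), hc', mul_one]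
    rw [h1]
    exact IsIntegral.mul p.2 c.2
  obtain ⟨s, hs1, hsq⟩ := WfDvdMonoid.exists_irreducible_factor hqu hq0
  have hs : Prime s := hs1.prime
  have hsp : ¬ s ∣ p := fun h => hs.not_isUnit (hpq h hsq)
  obtain ⟨q', hq1, hq2⟩ :=
    (FiniteMultiplicity.of_not_isUnit hs.not_isUnit hq0).exists_eq_pow_mul_and_not_dvd
  set e := multiplicity s (q : integralClosure R L) with he
  have he1 : 1 ≤ e := by
    by_contra h
    have h0 : e = 0 := by omega
    rw [h0, pow_zero, one_mul] at hq1
    exact hq2 (hq1 ▸ hsq)
  have hQ' : ∀ n : ℕ, n ≠ 0 → IsUnit (n : integralClosure R L) := by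
    intro n hn
    have := (hQ n hn).map (algebraMap R (integralClosure R L))
    rwa [map_natCast] at this
  set E := EDer D a0 hA with hE
  have hss : ¬ s ∣ E s := by
    by_cases hsa : s ∣ a0
    · obtain ⟨b0, hb0⟩ := exists_not_dvd D a0 ha0 hA hmin s hs hsa
      have hsR : ∀ r : R, s ∣ E (algebraMap R (integralClosure R L) r) := by
        intro r
        obtain ⟨r', hr'⟩ := hR r
        have h1 : E (algebraMap R (integralClosure R L) r) =
            a0 * algebraMap R (integralClosure R L) r' := by
          apply Subtype.ext
          rw [hE, EDer_coe]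
          have h2 : D ((algebraMap R (integralClosure R L) r : integralClosure R L) : L) =
              algebraMap R L r' := hr'
          rw [h2]
          rfl
        rw [h1]
        exact hsa.mul_right _
      exact not_dvd_der_self (K := K) hQ E s b0 hs hsR hb0
    · intro h
      have hsx := prime_dvd R L x hx s hs
      have h1 := dvd_der_of_dvd E h hsx
      have h2 : E (algebraMap R (integralClosure R L) x) =
          a0 * algebraMap R (integralClosure R L) (r1 : R) := by
        apply Subtype.ext
        rw [hE, EDer_coe]
        have h3 : D ((algebraMap R (integralClosure R L) x : integralClosure R L) : L) =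
            algebraMap R L (r1 : R) := hr1
        rw [h3]
        rfl
      rw [h2] at h1
      rcases hs.dvd_or_dvd h1 with h3 | h3
      · exact hsa h3
      · exact hs.not_isUnit (isUnit_of_dvd_unit h3 (r1.isUnit.map _))
  apply not_dvd_der_pow hQ' E hs hss hq2 he1
  rw [← hq1]
  -- `p E q = q (E p - p b)`
  have h1 : p * E (q : integralClosure R L) = (q : integralClosure R L) * (E p - p * b) := by
    apply Subtype.ext
    have h2 : D (p : L) = j * D ((q : integralClosure R L) : L) +
        ((q : integralClosure R L) : L) * D j := by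
      rw [← hjq, D.leibniz]
      simp only [smul_eq_mul]
    have h3 : ((E p : integralClosure R L) : L) = (a0 : L) * D (p : L) := rfl
    have h4 : ((E (q : integralClosure R L) : integralClosure R L) : L) =
      (a0 : L) * D ((q : integralClosure R L) : L) := rfl
    push_cast
    rw [h3, h4, h2, hb, ← hjq, hjdef]
    ring
  refine hs.pow_dvd_of_dvd_mul_left _ hsp ?_
  rw [h1]
  refine Dvd.dvd.mul_right ?_ _
  conv_rhs => rw [hq1]
  exact dvd_mul_right _ _

end Pool.Agent.Helper85.RIG
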