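import Mathlib
import Pool.Agent.Helper85.RIG.IntB

/-!
# RIG-10 Gen: a lattice contains a generator of the `B`-module it generates (step 4c)

`R` is a discrete valuation ring containing the complex numbers, `B` its integral closure in `L`,
`T` a nonzero finitely generated `R`-submodule of `L`. There is `w` in `T`, `w <> 0`, with `T` in `B w`.

Proof. `B` is a principal ideal domain with fraction field `L` (`intB_pid`, `intB_fraction`). The `B`-span of `T` is a
nonzero finitely generated `B`-submodule of `L`, so it is `gam B`, `gam <> 0` (multiply by a common denominator to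
get an ideal of `B`). Let `s_1, .., s_m` be the primes of `finite_primes`. For each `i` the set
`T_i = {h in T : h / gam in s_i B}` is a complex subspace of `T` (viewed over the complex numbers through
`Algebra C R`), and `T_i <> T`, otherwise the `B`-span of `T` would be inside `s_i gam B`. A vector space over an infinite
field is not a finite union of proper subspaces (`Subspace.biUnion_ne_univ_of_top_notMem` or a similar name in
`Mathlib/GroupTheory/CosetCover.lean`; search for `Subspace` and `iUnion`/`biUnion`). Take `w` in `T` outside all `T_i`: `w / gam` is in `B` and is divisible by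
no `s_i`, so it is a unit of `B`, and `h w^-1 = (h / gam) (w / gam)^-1` is in `B` for all `h` in `T`.
If `m = 0` every element of `B` is zero or a unit... (this does not happen, but if it does: `B = L`; any
nonzero `w` works because `w / gam` is a unit as no prime divides it; note `0` is a non unit, so `m >= 1`).
-/

set_option autoImplicit false

namespace Pool.Agent.Helper85.RIG

open nonZeroDivisors

private theorem gen_principal {B L : Type*} [CommRing B] [IsDomain B] [IsPrincipalIdealRing B]
    [Field L] [Algebra B L] [IsFractionRing B L] (S : Submodule B L) (hS : S.FG) :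
    ∃ g : L, S = Submodule.span B {g} := by
  have h1 : IsFractional B⁰ S := FractionalIdeal.isFractional_of_fg hS
  have h2 := FractionalIdeal.isPrincipal (⟨S, h1⟩ : FractionalIdeal B⁰ L)
  exact h2.principal

/-- a finite union of proper submodules over an algebra over the complex numbers -/
private theorem gen_avoid {R V : Type*} [CommRing R] [Algebra ℂ R] [AddCommGroup V] [Module R V]
    {ι : Type*} [Finite ι] (p : ι → Submodule R V) (h : ∀ v : V, ∃ i, v ∈ p i) : ∃ i, p i = ⊤ := by
  let _ : Module ℂ V := Module.compHom V (algebraMap ℂ R)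
  let q : ι → Subspace ℂ V := fun i =>
    { carrier := p i
      add_mem' := fun {a b} ha hb => (p i).add_mem ha hb
      zero_mem' := (p i).zero_mem
      smul_mem' := fun c a ha => (p i).smul_mem (algebraMap ℂ R c) ha }
  obtain ⟨i, hi⟩ := Subspace.exists_eq_top_of_iUnion_eq_univ (k := ℂ) (p := q) (by
    rw [Set.eq_univ_iff_forall]
    intro v
    obtain ⟨i, hi⟩ := h v
    exact Set.mem_iUnion.2 ⟨i, hi⟩)
  refine ⟨i, ?_⟩
  rw [Submodule.eq_top_iff']
  intro v
  have h1 : v ∈ q i := by rw [hi]; exact Submodule.mem_top
  exact h1

theorem exists_gen {R K L : Type*} [CommRing R] [IsDomain R] [IsDiscreteValuationRing R]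
    [Algebra ℂ R]
    [Field K] [Algebra R K] [IsFractionRing R K] [Field L] [Algebra K L] [Algebra R L]
    [IsScalarTower R K L] [FiniteDimensional K L] [Algebra.IsSeparable K L]
    (T : Submodule R L) (hT : T.FG) (hne : T ≠ ⊥) :
    ∃ w ∈ T, w ≠ 0 ∧ ∀ h ∈ T, IsIntegral R (h * w⁻¹) := by
  classical
  have hpid := intB_pid R K L
  have hfr := intB_fraction R K L
  obtain ⟨s, hs, hsd⟩ := finite_primes R K L
  have hfg : (Submodule.span (integralClosure R L) (T : Set L)).FG := by
    obtain ⟨t, ht⟩ := hT
    refine ⟨t, ?_⟩
    apply le_antisymm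
    · exact Submodule.span_mono (ht ▸ Submodule.subset_span)
    · rw [Submodule.span_le]
      intro x hx
      rw [← ht] at hx
      exact Submodule.span_subset_span R (integralClosure R L) _ hx
  obtain ⟨γ, hγ⟩ := gen_principal _ hfg
  have hcoord : ∀ h ∈ T, ∃ b : integralClosure R L, h = (b : L) * γ := by
    intro h hh
    have h1 : h ∈ Submodule.span (integralClosure R L) (T : Set L) := Submodule.subset_span hh
    rw [hγ, Submodule.mem_span_singleton] at h1
    obtain ⟨b, hb⟩ := h1
    exact ⟨b, hb.symm⟩
  have hγ0 : γ ≠ 0 := by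
    rintro rfl
    refine hne ((Submodule.eq_bot_iff _).2 fun h hh => ?_)
    obtain ⟨b, hb⟩ := hcoord h hh
    rw [hb, mul_zero]
  let p : s → Submodule R T := fun π =>
    { carrier := {h | ∃ b : integralClosure R L, (h : L) = ((π : integralClosure R L) : L) * b * γ}
      add_mem' := by
        rintro a b ⟨x, hx⟩ ⟨y, hy⟩
        refine ⟨x + y, ?_⟩
        rw [Submodule.coe_add, hx, hy]
        push_cast
        ring
      zero_mem' := ⟨0, by simp⟩
      smul_mem' := by
        rintro r a ⟨x, hx⟩
        refine ⟨r • x, ?_⟩
        rw [Submodule.coe_smul, hx]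
        change r • _ = _ * (r • (x : L)) * γ
        rw [Algebra.smul_def, Algebra.smul_def]
        ring }
  have hex : ∃ w : T, ∀ π, w ∉ p π := by
    by_contra hcon
    push Not at hcon
    obtain ⟨π, hπ⟩ := gen_avoid p hcon
    have h1 : Submodule.span (integralClosure R L) (T : Set L) ≤
        Submodule.span (integralClosure R L) {((π : integralClosure R L) : L) * γ} := by
      rw [Submodule.span_le]
      intro h hh
      have h2 : (⟨h, hh⟩ : T) ∈ p π := by rw [hπ]; exact Submodule.mem_top
      obtain ⟨b, hb⟩ := h2
      refine Submodule.mem_span_singleton.2 ⟨b, ?_⟩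
      have hb' : h = ((π : integralClosure R L) : L) * b * γ := hb
      rw [hb']
      change (b : L) * _ = _
      ring
    rw [hγ] at h1
    obtain ⟨b, hb⟩ := Submodule.mem_span_singleton.1 (h1 (Submodule.mem_span_singleton_self γ))
    have hb' : (b : L) * (((π : integralClosure R L) : L) * γ) = γ := hb
    have h3 : (b : L) * ((π : integralClosure R L) : L) = 1 := by
      apply mul_right_cancel₀ hγ0
      rw [one_mul, mul_assoc]
      exact hb'
    have h4 : b * (π : integralClosure R L) = 1 := Subtype.ext h3
    exact (hs π π.2).not_isUnit (IsUnit.of_mul_eq_one_right b h4)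
  obtain ⟨w, hw⟩ := hex
  obtain ⟨b, hb⟩ := hcoord w w.2
  have hbu : IsUnit b := by
    by_contra hcon
    obtain ⟨π, hπ, c, hc⟩ := hsd b hcon
    refine hw ⟨π, hπ⟩ ⟨c, ?_⟩
    rw [hb, hc]
    rfl
  obtain ⟨u, hu⟩ := hbu
  have hu1 : ((u : integralClosure R L) : L) * ((u⁻¹ : (integralClosure R L)ˣ) : integralClosure R L) = 1 := by
    have h := congrArg (fun x : integralClosure R L => (x : L)) u.mul_inv
    exact h
  have hub : (b : L) = ((u : integralClosure R L) : L) := by rw [hu]
  have hb0 : (b : L) ≠ 0 := by
    rw [hub]
    exact left_ne_zero_of_mul_eq_one hu1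
  have hw0 : (w : L) ≠ 0 := by
    rw [hb]
    exact mul_ne_zero hb0 hγ0
  refine ⟨w, w.2, hw0, fun h hh => ?_⟩
  obtain ⟨c, hc⟩ := hcoord h hh
  have h5 : h * (w : L)⁻¹ = (c : L) * (((u⁻¹ : (integralClosure R L)ˣ) : integralClosure R L) : L) := by
    rw [hb, hub, hc]
    have hu0 : ((u : integralClosure R L) : L) ≠ 0 := left_ne_zero_of_mul_eq_one hu1
    field_simp
    rw [mul_assoc, hu1, mul_one]
  rw [h5]
  exact (c * ((u⁻¹ : (integralClosure R L)ˣ) : integralClosure R L)).2

end Pool.Agent.Helper85.RIG
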