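import Mathlib
import Pool.Agent.Helper85.RIG.Gen
import Pool.Agent.Helper85.RIG.DiffB
import Pool.Agent.Helper85.RIG.Dual

/-!
# RIG-24 DivLocal: the index of the derivations in codimension one (step 3)

`R` is a discrete valuation ring containing the complex numbers, `B = intB R L` is spanned by the `K`-basis `u` of `L`, `D` is a derivation of
`L` with `D(R)` in `R` and `D(x)` a unit of `R`, `V <= B x B` is an `R`-submodule such that `(a, 0)` in `V` implies `a D(B)` in `B`
(second version: `(0, a)` in `V`). Then `addVal(disc) <= idx (B x B) V`.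

Proof. Let `T = tdual B`; it is finitely generated and nonzero (`exists_basis_tdual` with `u`), so by `exists_gen` there is `w` in `T`, `w <> 0`, with
`h w^-1` integral for all `h` in `T`; hence `T = B w` (`mul_mem_tdual_intB`), i.e. `T = B.map (mulRight w)`. Let
`C = {c in L : c w in B} = B.map (mulRight w^-1)`. If `(a, 0)` is in `V` then `a w` is in `B` by `diff_integral` (`a D(B)` in `B`, `w` in `T`), so `a` is in `C`.
The `R`-linear map `B -> (B x B) / V`, `a -> (a, 0)`, has kernel in `C`, so `idx B C <= idx (B x B) V` (`idx_le_length`; `idx M N` is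
by definition `Module.length R (M / N.submoduleOf M)`). Multiplication by `w` gives `idx B C = idx (B w) B = idx T B = addVal disc` (`idx_map`
with the automorphism multiplication by `w`, `idx_tdual_self` and `intB_le_tdual`). The hypothesis `hQ` of `diff_integral` holds because `R` contains
the complex numbers (`(n : R) = algebraMap C R n`).
-/

set_option autoImplicit false

namespace Pool.Agent.Helper85.RIG

section
variable {R K L ι : Type*} [CommRing R] [IsDomain R] [IsDiscreteValuationRing R]
  [Algebra ℂ R]
  [Field K] [Algebra R K] [IsFractionRing R K] [Field L] [Algebra K L] [Algebra R L]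
  [IsScalarTower R K L] [FiniteDimensional K L] [Algebra.IsSeparable K L]
  [Fintype ι] [DecidableEq ι]

/-- multiplication by a nonzero element -/
private def mulE (w : L) (hw : w ≠ 0) : L ≃ₗ[R] L where
  toFun g := g * w
  map_add' a b := add_mul a b w
  map_smul' r a := smul_mul_assoc r a w
  invFun g := g * w⁻¹
  left_inv g := by
    change g * w * w⁻¹ = g
    rw [mul_assoc, mul_inv_cancel₀ hw, mul_one]
  right_inv g := by
    change g * w⁻¹ * w = g
    rw [mul_assoc, inv_mul_cancel₀ hw, mul_one]

include K in
private theorem div_local_aux (u : Module.Basis ι K L)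
    (hu : Submodule.span R (Set.range u) = intB R L)
    (δ : R) (hδ : algebraMap R K δ = Algebra.discr K u)
    (D : Derivation ℤ L L)
    (hR : ∀ r : R, ∃ r' : R, D (algebraMap R L r) = algebraMap R L r')
    (x : R) (hx : Irreducible x)
    (hDx : ∃ r' : Rˣ, D (algebraMap R L x) = algebraMap R L (r' : R))
    (V : Submodule R (L × L))
    (j : L →ₗ[R] L × L) (hj : ∀ b ∈ intB R L, j b ∈ (intB R L).prod (intB R L))
    (hVa : ∀ a : L, j a ∈ V → ∀ b : L, IsIntegral R b → IsIntegral R (a * D b)) :
    IsDiscreteValuationRing.addVal R δ ≤ idx ((intB R L).prod (intB R L)) V := by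
  have hQ : ∀ n : ℕ, n ≠ 0 → IsUnit (n : R) := by
    intro n hn
    have h1 : (n : R) = algebraMap ℂ R (n : ℂ) := by rw [map_natCast]
    rw [h1]
    exact (IsUnit.mk0 (n : ℂ) (by exact_mod_cast hn)).map (algebraMap ℂ R)
  have hBT : intB R L ≤ tdual R K (intB R L) := intB_le_tdual R K L
  have hfg : (tdual R K (intB R L)).FG := by
    obtain ⟨u', hu'⟩ := exists_basis_tdual (R := R) u
    rw [hu] at hu'
    rw [hu']
    exact Submodule.fg_span (Set.finite_range _)
  have hne : tdual R K (intB R L) ≠ ⊥ := by
    intro h0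
    have h1 : (1 : L) ∈ tdual R K (intB R L) := hBT (one_mem (integralClosure R L))
    rw [h0, Submodule.mem_bot] at h1
    exact one_ne_zero h1
  obtain ⟨w, hwT, hw0, hw⟩ := exists_gen (K := K) _ hfg hne
  have hmapB : (intB R L).map (mulE (R := R) w hw0).toLinearMap = tdual R K (intB R L) := by
    apply le_antisymm
    · rintro _ ⟨b, hb, rfl⟩
      change b * w ∈ _
      rw [mul_comm]
      exact mul_mem_tdual_intB hwT hb
    · intro h hh
      refine ⟨h * w⁻¹, hw h hh, ?_⟩
      change h * w⁻¹ * w = h
      rw [mul_assoc, inv_mul_cancel₀ hw0, mul_one]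
  set C : Submodule R L := (intB R L).comap (mulE (R := R) w hw0).toLinearMap with hC
  have hmapC : C.map (mulE (R := R) w hw0).toLinearMap = intB R L := by
    rw [hC]
    exact Submodule.map_comap_eq_of_surjective (mulE (R := R) w hw0).surjective _
  have h1 : IsDiscreteValuationRing.addVal R δ = idx (intB R L) C := by
    rw [← idx_map (mulE (R := R) w hw0) (intB R L) C, hmapB, hmapC]
    have h2 := idx_tdual_self u (by rw [hu]; exact hBT) δ hδ
    rw [hu] at h2
    exact h2.symm
  rw [h1]
  let f : intB R L →ₗ[R] ((intB R L).prod (intB R L)) ⧸ V.submoduleOf ((intB R L).prod (intB R L)) :=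
    (V.submoduleOf ((intB R L).prod (intB R L))).mkQ ∘ₗ
      LinearMap.codRestrict ((intB R L).prod (intB R L)) (j ∘ₗ (intB R L).subtype)
        (fun b => hj b.1 b.2)
  refine idx_le_length f ?_
  intro b hb
  have h3 : j b.1 ∈ V := by
    have h4 : (V.submoduleOf ((intB R L).prod (intB R L))).mkQ
      (LinearMap.codRestrict ((intB R L).prod (intB R L)) (j ∘ₗ (intB R L).subtype)
        (fun b => hj b.1 b.2) b) = 0 := hb
    rw [Submodule.mkQ_apply, Submodule.Quotient.mk_eq_zero] at h4
    exact h4
  exact diff_integral hQ D hR x hx hDx b.1 w (hVa b.1 h3) hwT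

theorem div_local_fst (u : Module.Basis ι K L)
    (hu : Submodule.span R (Set.range u) = intB R L)
    (δ : R) (hδ : algebraMap R K δ = Algebra.discr K u)
    (D : Derivation ℤ L L)
    (hR : ∀ r : R, ∃ r' : R, D (algebraMap R L r) = algebraMap R L r')
    (x : R) (hx : Irreducible x)
    (hDx : ∃ r' : Rˣ, D (algebraMap R L x) = algebraMap R L (r' : R))
    (V : Submodule R (L × L)) (hV : V ≤ (intB R L).prod (intB R L))
    (hVa : ∀ a : L, (a, 0) ∈ V → ∀ b : L, IsIntegral R b → IsIntegral R (a * D b)) :
    IsDiscreteValuationRing.addVal R δ ≤ idx ((intB R L).prod (intB R L)) V :=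
  div_local_aux u hu δ hδ D hR x hx hDx V (LinearMap.inl R L L)
    (fun _ hb => ⟨hb, zero_mem _⟩) hVa

theorem div_local_snd (u : Module.Basis ι K L)
    (hu : Submodule.span R (Set.range u) = intB R L)
    (δ : R) (hδ : algebraMap R K δ = Algebra.discr K u)
    (D : Derivation ℤ L L)
    (hR : ∀ r : R, ∃ r' : R, D (algebraMap R L r) = algebraMap R L r')
    (x : R) (hx : Irreducible x)
    (hDx : ∃ r' : Rˣ, D (algebraMap R L x) = algebraMap R L (r' : R))
    (V : Submodule R (L × L)) (hV : V ≤ (intB R L).prod (intB R L))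
    (hVa : ∀ a : L, (0, a) ∈ V → ∀ b : L, IsIntegral R b → IsIntegral R (a * D b)) :
    IsDiscreteValuationRing.addVal R δ ≤ idx ((intB R L).prod (intB R L)) V :=
  div_local_aux u hu δ hδ D hR x hx hDx V (LinearMap.inr R L L)
    (fun _ hb => ⟨zero_mem _, hb⟩) hVa

end

end Pool.Agent.Helper85.RIG
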