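import Mathlib
import Pool.Agent.Helper85.RIG.OrdR
import Pool.Agent.Helper85.RigidLift

/-!
# RIG-16 S2Facts: facts on power series rings

* `le_order_iff_mem`: `k <= order f` iff `f` is in `(X_1, .., X_n)^k`. From right to left: `order` is
  additive and `order X_i = 1` (induction on `k`, `Submodule.span_induction` / `Ideal.pow_succ`,
  `Submodule.mul_induction_on`). From left to right: induction on `k`; if `k + 1 <= order f` then
  `constantCoeff f = 0`, `f = sum X_i piece f i` (`Pool.Agent.Helper85.eq_sum_X_mul`) and
  `k <= order (piece f i)` (definition of `piece`).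
* `s2_ufd`: `MvPowerSeries.finSuccEquiv` twice and `MvPowerSeries.isEmptyEquiv`: `S2` is isomorphic to
  `C[[x]][[y]]`, a unique factorisation domain by the instance for `PowerSeries` over a principal
  ideal domain (`Mathlib/RingTheory/PowerSeries/Ideal.lean`).
* `dvd_of_primes`: unique factorisation: if `a <> 0` and every prime power dividing `a` divides `b`, then
  `a | b` (induction on the factorisation of `a`, or `UniqueFactorizationMonoid.dvd_iff_..`,
  `emultiplicity` and `normalizedFactors`).
* `prime_not_dvd_pderiv`: let `r = order pi >= 1` (`pi` is not a unit); there is `d` of degree `r` with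
  `coeff d pi <> 0`, and `i` with `d i >= 1`; the coefficient of `pderiv i pi` at `d - e_i` is `d i * coeff d pi <> 0`
  (`coeff_pderiv`), so `order (pderiv i pi) < order pi`, while `pi | h` implies `order pi <= order h`.
-/

set_option autoImplicit false

namespace Pool.Agent.Helper85.RIG

open MvPowerSeries

theorem le_order_iff_mem {n : ℕ} (f : MvPowerSeries (Fin n) ℂ) (k : ℕ) :
    (k : ℕ∞) ≤ f.order ↔
      f ∈ (Ideal.span (Set.range (X : Fin n → MvPowerSeries (Fin n) ℂ))) ^ k := by
  constructor
  · induction k generalizing f with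
    | zero =>
      intro _
      rw [pow_zero, Ideal.one_eq_top]
      exact Submodule.mem_top
    | succ k ih =>
      intro h
      have h0 : constantCoeff f = 0 := by
        rw [← MvPowerSeries.one_le_order_iff_constCoeff_eq_zero]
        refine le_trans ?_ h
        push_cast
        exact le_add_self
      rw [Pool.Agent.Helper85.eq_sum_X_mul f h0]
      refine Ideal.sum_mem _ fun i _ => ?_
      rw [pow_succ']
      refine Ideal.mul_mem_mul (Ideal.subset_span ⟨i, rfl⟩) (ih _ ?_)
      refine MvPowerSeries.le_order fun d hd => ?_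
      change (if (∀ j < i, d j = 0) then coeff (d + Finsupp.single i 1) f else 0) = 0
      split_ifs with hj
      · apply MvPowerSeries.coeff_of_lt_order
        refine lt_of_lt_of_le ?_ h
        rw [map_add, Finsupp.degree_single]
        push_cast
        have : (Finsupp.degree d : ℕ) < k := by exact_mod_cast hd
        exact_mod_cast Nat.add_lt_add_right this 1
      · rfl
  · induction k generalizing f with
    | zero => intro _; simp
    | succ k ih =>
      intro h
      rw [pow_succ] at h
      refine Submodule.mul_induction_on h ?_ ?_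
      · intro a ha b hb
        have h1 : 1 ≤ b.order := by
          rw [MvPowerSeries.one_le_order_iff_constCoeff_eq_zero]
          have h2 : Ideal.span (Set.range (X : Fin n → MvPowerSeries (Fin n) ℂ)) ≤
              RingHom.ker (constantCoeff : MvPowerSeries (Fin n) ℂ →+* ℂ) := by
            rw [Ideal.span_le]
            rintro _ ⟨i, rfl⟩
            simp
          exact h2 hb
        refine le_trans ?_ (MvPowerSeries.le_order_mul)
        push_cast
        exact add_le_add (ih a ha) h1
      · intro a b ha hb
        exact le_trans (le_min ha hb) MvPowerSeries.min_order_le_add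

instance s2_ufd : UniqueFactorizationMonoid S2 := by
  have : IsDomain (MvPowerSeries (Fin 1) ℂ) := NoZeroDivisors.to_isDomain _
  have : IsPrincipalIdealRing (MvPowerSeries (Fin 1) ℂ) := by
    have e : PowerSeries ℂ ≃ₐ[ℂ] MvPowerSeries (Fin 1) ℂ :=
      MvPowerSeries.renameEquiv ℂ (Equiv.ofUnique Unit (Fin 1))
    exact IsPrincipalIdealRing.of_surjective (e : PowerSeries ℂ →+* MvPowerSeries (Fin 1) ℂ)
      e.surjective
  exact (MvPowerSeries.finSuccEquiv ℂ 1).toMulEquiv.symm.uniqueFactorizationMonoid inferInstance

theorem dvd_of_primes {a b : S2} (ha : a ≠ 0)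
    (h : ∀ π : S2, Prime π → ∀ k : ℕ, π ^ k ∣ a → π ^ k ∣ b) : a ∣ b := by
  revert b
  revert ha
  refine UniqueFactorizationMonoid.induction_on_prime a ?_ ?_ ?_
  · intro h0
    exact absurd rfl h0
  · intro u hu _ b _
    exact hu.dvd
  · intro a p ha0 hp ih _ b h
    have hpb : p ∣ b := by
      have := h p hp 1 (by rw [pow_one]; exact dvd_mul_right p a)
      rwa [pow_one] at this
    obtain ⟨b', rfl⟩ := hpb
    refine mul_dvd_mul_left p (ih ha0 fun π hπ k hk => ?_)
    by_cases hass : π ∣ p
    · have hass' : Associated π p := hπ.irreducible.associated_of_dvd hp.irreducible hass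
      have h1 : π ^ (k + 1) ∣ p * b' := by
        apply h π hπ
        rw [pow_succ']
        exact mul_dvd_mul hass hk
      obtain ⟨u, hu⟩ := hass'
      rw [pow_succ', ← hu, mul_assoc] at h1
      have h2 := (mul_dvd_mul_iff_left hπ.ne_zero).1 h1
      exact (IsUnit.dvd_mul_left u.isUnit).1 h2
    · have h1 : π ^ k ∣ p * b' := h π hπ k (hk.mul_left p)
      exact hπ.pow_dvd_of_dvd_mul_left k hass h1

theorem prime_not_dvd_pderiv {π : S2} (hπ : Prime π) : ∃ i : Fin 2, ¬ π ∣ pderiv ℂ i π := by
  obtain ⟨d, hd, hdeg⟩ := MvPowerSeries.exists_coeff_ne_zero_and_order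
    (MvPowerSeries.ne_zero_iff_order_finite.1 hπ.ne_zero)
  have hd0 : d ≠ 0 := by
    rintro rfl
    apply hπ.not_isUnit
    rw [MvPowerSeries.isUnit_iff_constantCoeff]
    rw [MvPowerSeries.coeff_zero_eq_constantCoeff_apply] at hd
    exact isUnit_iff_ne_zero.2 hd
  obtain ⟨i, hi⟩ : ∃ i, d i ≠ 0 := by
    by_contra hcon
    push Not at hcon
    exact hd0 (Finsupp.ext hcon)
  have hsplit : d - Finsupp.single i 1 + Finsupp.single i 1 = d := by
    ext j
    by_cases hj : j = i
    · subst hj
      simp only [Finsupp.coe_add, Finsupp.coe_tsub, Pi.add_apply, Pi.sub_apply,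
        Finsupp.single_eq_same]
      omega
    · simp [Ne.symm hj]
  refine ⟨i, fun hdvd => ?_⟩
  obtain ⟨c, hc⟩ := hdvd
  have h1 : coeff (d - Finsupp.single i 1) (pderiv ℂ i π) ≠ 0 := by
    rw [MvPowerSeries.coeff_pderiv, hsplit]
    refine mul_ne_zero hd ?_
    exact Nat.cast_add_one_ne_zero _
  have h2 := MvPowerSeries.order_le h1
  rw [hc, MvPowerSeries.order_mul, ← hdeg] at h2
  have h3 : ((Finsupp.degree d : ℕ) : ℕ∞) ≤ ((Finsupp.degree (d - Finsupp.single i 1) : ℕ) : ℕ∞) :=
    le_trans le_self_add h2
  have h4 : Finsupp.degree d = Finsupp.degree (d - Finsupp.single i 1) + 1 := by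
    conv_lhs => rw [← hsplit, map_add, Finsupp.degree_single]
  have h5 : Finsupp.degree d ≤ Finsupp.degree (d - Finsupp.single i 1) := by exact_mod_cast h3
  omega

end Pool.Agent.Helper85.RIG
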