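import Mathlib
import Pool.Agent.Helper85.RIG.OrdR
import Pool.Agent.Helper85.RIG.S2Facts

/-!
# RIG-26 FreeReg: depth two implies free over `C[[x, y]]`

A finitely generated `S2`-module `M` on which `X 0` is injective and `X 1` is injective modulo `X 0` is free.

Proof. `S2 / (X 0)` is isomorphic to `C[[y]]` (`MvPowerSeries.finSuccEquiv` and/or the substitution `x = 0`; or: show directly that
`S2 / (X 0)` is a discrete valuation ring / principal ideal domain: a local noetherian domain whose maximal ideal is
generated by the class of `X 1`; `S2 / (X 0)` is a domain since `X 0` is prime (`MvPowerSeries.X_prime`), local, noetherian, maximal ideal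
`(X 0, X 1) / (X 0)` principal: `IsLocalRing`-TFAE `IsDiscreteValuationRing.TFAE`, `tfae_of_isNoetherianRing_of_isLocalRing_of_isDomain` in
`Mathlib/RingTheory/DiscreteValuationRing/TFAE.lean`). `M / X 0 M` (`QuotSMulTop (X 0) M`) is a finitely generated module over it on
which `X 1` is injective, hence torsion free (every nonzero element of a discrete valuation ring is a unit times a power of `X 1`), hence free
(`Module.free_of_finite_type_torsion_free'` or an instance for principal ideal domains). Conclude with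
`Module.free_quotSMulTop_iff_free` (`Mathlib/RingTheory/Regular/Free.lean`; `X 0` is in the Jacobson radical of the local ring `S2`).
-/

set_option autoImplicit false

namespace Pool.Agent.Helper85.RIG

open MvPowerSeries
open scoped Pointwise

private theorem X_not_unit (i : Fin 2) : ¬ IsUnit (X i : S2) := by
  rw [MvPowerSeries.isUnit_iff_constantCoeff, MvPowerSeries.constantCoeff_X]
  exact not_isUnit_zero

private theorem mem_span_of_not_unit {f : S2} (hf : ¬ IsUnit f) :
    ∃ a b : S2, f = X 0 * a + X 1 * b := by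
  have h0 : constantCoeff f = 0 := by
    by_contra hne
    exact hf (MvPowerSeries.isUnit_iff_constantCoeff.2 (isUnit_iff_ne_zero.2 hne))
  have h1 : ((1 : ℕ) : ℕ∞) ≤ f.order := by
    rw [Nat.cast_one]
    exact MvPowerSeries.one_le_order_iff_constCoeff_eq_zero.2 h0
  have h2 := (le_order_iff_mem f 1).1 h1
  rw [pow_one] at h2
  have h3 : Ideal.span (Set.range (X : Fin 2 → MvPowerSeries (Fin 2) ℂ)) ≤
      Ideal.span {(X 0 : S2), X 1} := by
    rw [Ideal.span_le]
    rintro _ ⟨i, rfl⟩
    fin_cases i
    · exact Ideal.subset_span (by simp)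
    · exact Ideal.subset_span (by simp)
  obtain ⟨a, b, hab⟩ := Ideal.mem_span_pair.1 (h3 h2)
  exact ⟨a, b, by rw [← hab]; ring⟩

private abbrev RX : Type := S2 ⧸ Ideal.span {(X 0 : S2)}

private theorem RX_nontrivial : Nontrivial RX := by
  rw [Ideal.Quotient.nontrivial_iff]
  intro h
  exact X_not_unit 0 (Ideal.span_singleton_eq_top.1 h)

private theorem RX_local : IsLocalRing RX := by
  have := RX_nontrivial
  exact IsLocalRing.of_surjective' (Ideal.Quotient.mk (Ideal.span {(X 0 : S2)}))
    Ideal.Quotient.mk_surjective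

private theorem y_not_unit : ¬ IsUnit (Ideal.Quotient.mk (Ideal.span {(X 0 : S2)}) (X 1)) := by
  intro h
  obtain ⟨b, hb⟩ := h.exists_right_inv
  obtain ⟨g, rfl⟩ := Ideal.Quotient.mk_surjective b
  rw [← map_mul, ← map_one (Ideal.Quotient.mk (Ideal.span {(X 0 : S2)})), Ideal.Quotient.eq,
    Ideal.mem_span_singleton] at hb
  obtain ⟨c, hc⟩ := hb
  have h1 := congrArg (constantCoeff : S2 →+* ℂ) hc
  rw [map_sub, map_mul, map_mul, MvPowerSeries.constantCoeff_X, MvPowerSeries.constantCoeff_X,
    map_one, zero_mul, zero_mul, zero_sub] at h1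
  exact neg_ne_zero.2 one_ne_zero h1

private theorem y_span_maximal :
    (Ideal.span {Ideal.Quotient.mk (Ideal.span {(X 0 : S2)}) (X 1)}).IsMaximal := by
  have := RX_local
  have h : Ideal.span {Ideal.Quotient.mk (Ideal.span {(X 0 : S2)}) (X 1)} =
      IsLocalRing.maximalIdeal RX := by
    apply le_antisymm
    · rw [Ideal.span_le, Set.singleton_subset_iff]
      exact y_not_unit
    · intro r hr
      obtain ⟨f, rfl⟩ := Ideal.Quotient.mk_surjective r
      have h1 : ¬ IsUnit f := fun hu => hr (hu.map _)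
      obtain ⟨a, b, rfl⟩ := mem_span_of_not_unit h1
      have h2 : Ideal.Quotient.mk (Ideal.span {(X 0 : S2)}) (X 0) = 0 :=
        Ideal.Quotient.eq_zero_iff_mem.2 (Ideal.mem_span_singleton_self _)
      rw [map_add, map_mul, map_mul, h2, zero_mul, zero_add, Ideal.mem_span_singleton]
      exact dvd_mul_right _ _
  rw [h]
  infer_instance

theorem free_of_regular {M : Type*} [AddCommGroup M] [Module S2 M] [Module.Finite S2 M]
    (h0 : ∀ m : M, (X 0 : S2) • m = 0 → m = 0)
    (h1 : ∀ m m' : M, (X 1 : S2) • m = (X 0 : S2) • m' → ∃ m'' : M, m = (X 0 : S2) • m'') :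
    Module.Free S2 M := by
  have hloc := RX_local
  have hmax := y_span_maximal
  have hfp : Module.FinitePresentation S2 M := Module.finitePresentation_of_finite S2 M
  have mem0 : (X 0 : S2) ∈ (⊥ : Ideal S2).jacobson := by
    rw [IsLocalRing.jacobson_eq_maximalIdeal ⊥ bot_ne_top]
    exact X_not_unit 0
  have reg0 : IsSMulRegular M (X 0 : S2) := by
    intro m m' h
    have h2 : (X 0 : S2) • (m - m') = 0 := by
      rw [smul_sub, sub_eq_zero]
      exact h
    exact sub_eq_zero.1 (h0 _ h2)
  rw [← Module.free_quotSMulTop_iff_free S2 M mem0 reg0]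
  have hfin : Module.Finite RX (QuotSMulTop (X 0 : S2) M) :=
    Module.Finite.of_restrictScalars_finite S2 RX (QuotSMulTop (X 0 : S2) M)
  have hfp1 : Module.FinitePresentation RX (QuotSMulTop (X 0 : S2) M) :=
    Module.finitePresentation_of_finite RX _
  have mem1 : Ideal.Quotient.mk (Ideal.span {(X 0 : S2)}) (X 1) ∈ (⊥ : Ideal RX).jacobson := by
    rw [IsLocalRing.jacobson_eq_maximalIdeal ⊥ bot_ne_top]
    exact y_not_unit
  have key : ∀ n : QuotSMulTop (X 0 : S2) M,
      Ideal.Quotient.mk (Ideal.span {(X 0 : S2)}) (X 1) • n = 0 → n = 0 := by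
    intro n hn
    obtain ⟨m, rfl⟩ := Submodule.mkQ_surjective _ n
    have h2 : Submodule.mkQ ((X 0 : S2) • (⊤ : Submodule S2 M)) ((X 1 : S2) • m) = 0 := by
      rw [map_smul]
      exact hn
    rw [Submodule.mkQ_apply, Submodule.Quotient.mk_eq_zero,
      Submodule.mem_smul_pointwise_iff_exists] at h2
    obtain ⟨m', _, hm'⟩ := h2
    obtain ⟨m'', hm''⟩ := h1 m m' hm'.symm
    rw [Submodule.mkQ_apply, Submodule.Quotient.mk_eq_zero,
      Submodule.mem_smul_pointwise_iff_exists]
    exact ⟨m'', Submodule.mem_top, hm''.symm⟩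
  have reg1 : IsSMulRegular (QuotSMulTop (X 0 : S2) M)
      (Ideal.Quotient.mk (Ideal.span {(X 0 : S2)}) (X 1)) := by
    intro m m' h
    have h2 : Ideal.Quotient.mk (Ideal.span {(X 0 : S2)}) (X 1) • (m - m') = 0 := by
      rw [smul_sub, sub_eq_zero]
      exact h
    exact sub_eq_zero.1 (key _ h2)
  rw [← Module.free_quotSMulTop_iff_free RX (QuotSMulTop (X 0 : S2) M) mem1 reg1]
  let _ := Ideal.Quotient.field
    (Ideal.span {Ideal.Quotient.mk (Ideal.span {(X 0 : S2)}) (X 1)})
  exact Module.Free.of_divisionRing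
    (RX ⧸ Ideal.span {Ideal.Quotient.mk (Ideal.span {(X 0 : S2)}) (X 1)}) _

end Pool.Agent.Helper85.RIG
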