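import Mathlib
import Pool.Agent.Helper85.RIG.OrdR

/-!
# RIG-23 VADef: the module of derivations of `A` as a submodule of `L x L`

`VA A P` is the set of the pairs `(a, b)` in `L x L` such that `a d_x + b d_y` maps `A` to `A`, an `A`-submodule (and so an
`S2`-submodule). `VA_fst`, `VA_snd`: `a` and `b` are then in `A` (apply to `x` and `y`).
-/

set_option autoImplicit false

namespace Pool.Agent.Helper85.RIG

open MvPowerSeries

section
variable (A : Type*) {L : Type*} [CommRing A] [Field L] [Algebra A L]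

/-- The pairs `(a, b)` such that `a d_x + b d_y` maps `A` to `A`. -/
def VA (P : Fin 2 → Derivation ℤ L L) : Submodule A (L × L) where
  carrier := {z | ∀ a : A, ∃ c : A,
    z.1 * P 0 (algebraMap A L a) + z.2 * P 1 (algebraMap A L a) = algebraMap A L c}
  add_mem' := by
    rintro z z' h h' a
    obtain ⟨c, hc⟩ := h a
    obtain ⟨c', hc'⟩ := h' a
    refine ⟨c + c', ?_⟩
    rw [map_add, ← hc, ← hc', Prod.fst_add, Prod.snd_add]; ring
  zero_mem' := by
    intro a
    exact ⟨0, by simp⟩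
  smul_mem' := by
    rintro r z h a
    obtain ⟨c, hc⟩ := h a
    refine ⟨r * c, ?_⟩
    rw [map_mul, ← hc, Prod.smul_fst, Prod.smul_snd, Algebra.smul_def, Algebra.smul_def]; ring

theorem mem_VA {P : Fin 2 → Derivation ℤ L L} {z : L × L} :
    z ∈ VA A P ↔ ∀ a : A, ∃ c : A,
      z.1 * P 0 (algebraMap A L a) + z.2 * P 1 (algebraMap A L a) = algebraMap A L c := Iff.rfl

variable {A} [Algebra S2 A] [Algebra S2 L] [IsScalarTower S2 A L]

theorem P_X (P : Fin 2 → Derivation ℤ L L)
    (hP : ∀ i (f : S2), P i (algebraMap S2 L f) = algebraMap S2 L (pderiv ℂ i f)) (i j : Fin 2) :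
    P i (algebraMap S2 L (X j)) = if i = j then 1 else 0 := by
  rw [hP]
  by_cases h : i = j
  · subst h; rw [if_pos rfl, pderiv_X_self, map_one]
  · rw [if_neg h, pderiv_X_of_ne (Ne.symm h), map_zero]

theorem VA_fst (P : Fin 2 → Derivation ℤ L L)
    (hP : ∀ i (f : S2), P i (algebraMap S2 L f) = algebraMap S2 L (pderiv ℂ i f))
    {z : L × L} (hz : z ∈ VA A P) : ∃ c : A, z.1 = algebraMap A L c := by
  obtain ⟨c, hc⟩ := hz (algebraMap S2 A (X 0))
  refine ⟨c, ?_⟩
  rw [← IsScalarTower.algebraMap_apply, P_X P hP, P_X P hP] at hc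
  simpa using hc

theorem VA_snd (P : Fin 2 → Derivation ℤ L L)
    (hP : ∀ i (f : S2), P i (algebraMap S2 L f) = algebraMap S2 L (pderiv ℂ i f))
    {z : L × L} (hz : z ∈ VA A P) : ∃ c : A, z.2 = algebraMap A L c := by
  obtain ⟨c, hc⟩ := hz (algebraMap S2 A (X 1))
  refine ⟨c, ?_⟩
  rw [← IsScalarTower.algebraMap_apply, P_X P hP, P_X P hP] at hc
  simpa using hc

end

end Pool.Agent.Helper85.RIG
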