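import Mathlib
import Pool.Agent.Helper85.RIG.VADef
import Pool.Agent.Helper85.RIG.FreeReg

/-!
# RIG-28 VFree: the module of derivations is free over `C[[x, y]]`, given by a matrix

`u` is a basis of `A` over `S2` (indexed by `iota`). `ee` is the `S2`-basis `(u_j, 0)`, `(0, u_j)` of `A x A` inside `L x L`. There is a
square matrix `Pm` over `S2` with nonzero determinant such that `VA A P` is the `S2`-span of the rows `sum_j Pm i j ee j`.

Proof. `V = VA A P` as an `S2`-module is contained in the image of `A x A` (`VA_fst`, `VA_snd`), which is a finite `S2`-module; `S2` is noetherian, so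
`V` is finitely generated. `X 0` is injective on `V <= L x L`. If `X 1 z = X 0 z'` with `z, z'` in `V`, put `z'' = z / x` in `L x L`
(`x` the image of `X 0`). For `a` in `A` let `c, c'` in `A` be the values of `z, z'` at `a`: `y c = x c'`, so `x | y c`, `x | c` by `hreg`, and
the value of `z''` at `a` is `c / x` in `A`. So `z''` is in `V` and `z = x z''`. By `free_of_regular` `V` is free over `S2`. Its rank is
`2 card iota`: for every `w` in `L x L` there is a nonzero `s` in `S2` with `s w` in `V` (choose `s` such that `s w.1 p_j`, `s w.1 q_j`, `s w.2 q_j`.. and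
`s w.1 u_j, s w.2 u_j` are in `A` where `p_j = P 0 u_j`, `q_j = P 1 u_j`; every element of `L` is `a / s` with `a` in `A` and `0 <> s` in `S2`; for
`a = sum s_j u_j`: `w.1 P_0 a + w.2 P_1 a = sum_j s_j (w.1 p_j + w.2 q_j) + sum_j u_j (w.1 pderiv 0 s_j + w.2 pderiv 1 s_j)`), so an `S2`-basis of `V` is a
`K`-basis of `L x L`, which has dimension `2 card iota` (`u` gives a `K`-basis of `L`). Take a basis of `V` indexed by `iota + iota`,
and expand it in `ee`; the determinant is nonzero because both families are linearly independent over `S2`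
(an `S2`-linear relation between the rows of a matrix with zero determinant: `Matrix.exists_vecMul_eq_zero_iff`).
-/

set_option autoImplicit false

namespace Pool.Agent.Helper85.RIG

open MvPowerSeries

/-- The basis `(u_j, 0)`, `(0, u_j)` of `A x A` inside `L x L`. -/
def ee {A ι : Type*} (L : Type*) [CommRing A] [Field L] [Algebra A L] (u : ι → A) :
    ι ⊕ ι → L × L :=
  Sum.elim (fun j => (algebraMap A L (u j), 0)) (fun j => (0, algebraMap A L (u j)))

private lemma exists_den {A L : Type*} [CommRing A] [IsDomain A] [Algebra S2 A]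
    [Module.Finite S2 A] [Field L] [Algebra A L] [IsFractionRing A L] [Algebra S2 L]
    [IsScalarTower S2 A L] (z : L) :
    ∃ s : S2, s ≠ 0 ∧ algebraMap S2 L s * z ∈ (algebraMap A L).range := by
  obtain ⟨a, b, hb, rfl⟩ := IsFractionRing.div_surjective (A := A) z
  have hint : IsIntegral S2 b := Algebra.IsIntegral.isIntegral b
  obtain ⟨c, d, hd, hdc⟩ := IsAlgebraic.exists_smul_eq_mul a hint.isAlgebraic hb
  refine ⟨d, hd, c, ?_⟩
  have hbL : algebraMap A L b ≠ 0 :=
    IsLocalization.to_map_ne_zero_of_mem_nonZeroDivisors L le_rfl hb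
  have h1 : algebraMap S2 A d * a = b * c := by
    rw [← Algebra.smul_def]
    exact hdc
  rw [mul_div_assoc', eq_div_iff hbL, IsScalarTower.algebraMap_apply S2 A L, ← map_mul,
    ← map_mul, h1, mul_comm b c]

private lemma exists_den_fin {A L κ : Type*} [CommRing A] [IsDomain A] [Algebra S2 A]
    [Module.Finite S2 A] [Field L] [Algebra A L] [IsFractionRing A L] [Algebra S2 L]
    [IsScalarTower S2 A L] [Fintype κ] (f : κ → L) :
    ∃ s : S2, s ≠ 0 ∧ ∀ k, algebraMap S2 L s * f k ∈ (algebraMap A L).range := by
  classical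
  choose s hs0 hs using fun k => exists_den (A := A) (f k)
  refine ⟨∏ k, s k, Finset.prod_ne_zero_iff.2 fun k _ => hs0 k, fun k => ?_⟩
  obtain ⟨t, ht⟩ : s k ∣ ∏ k, s k := Finset.dvd_prod_of_mem s (Finset.mem_univ k)
  rw [ht, map_mul]
  have h1 : algebraMap S2 L (s k) * algebraMap S2 L t * f k =
      algebraMap S2 L t * (algebraMap S2 L (s k) * f k) := by ring
  rw [h1]
  refine mul_mem ⟨algebraMap S2 A t, ?_⟩ (hs k)
  rw [← IsScalarTower.algebraMap_apply]

theorem VA_free {A K L ι : Type*} [CommRing A] [IsDomain A] [Algebra S2 A]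
    [Module.Finite S2 A] [FaithfulSMul S2 A]
    [Field K] [Algebra S2 K] [IsFractionRing S2 K]
    [Field L] [Algebra A L] [IsFractionRing A L] [Algebra S2 L] [IsScalarTower S2 A L]
    [Algebra K L] [IsScalarTower S2 K L] [FiniteDimensional K L] [Fintype ι] [DecidableEq ι]
    (P : Fin 2 → Derivation ℤ L L)
    (hP : ∀ i (f : S2), P i (algebraMap S2 L f) = algebraMap S2 L (pderiv ℂ i f))
    (hreg : ∀ a : A, algebraMap S2 A (X 0) ∣ algebraMap S2 A (X 1) * a →
      algebraMap S2 A (X 0) ∣ a)
    (u : Module.Basis ι S2 A) :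
    ∃ Pm : Matrix (ι ⊕ ι) (ι ⊕ ι) S2, Pm.det ≠ 0 ∧
      (VA A P).restrictScalars S2 =
        Submodule.span S2 (Set.range fun i => ∑ j, Pm i j • ee L u j) := by
  classical
  have hAL : Function.Injective (algebraMap A L) := IsFractionRing.injective A L
  have hSA : Function.Injective (algebraMap S2 A) := FaithfulSMul.algebraMap_injective S2 A
  have hSL : Function.Injective (algebraMap S2 L) := by
    rw [IsScalarTower.algebraMap_eq S2 A L]
    exact hAL.comp hSA
  have hX0 : algebraMap S2 L (X 0) ≠ 0 := by
    intro h
    have h1 : (X 0 : S2) = 0 := hSL (by rw [h, map_zero])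
    have h2 := order_X_eq 0
    rw [h1, MvPowerSeries.order_zero] at h2
    exact absurd h2 (by decide)
  let V : Submodule S2 (L × L) := (VA A P).restrictScalars S2
  let g : A →ₗ[S2] L := (IsScalarTower.toAlgHom S2 A L).toLinearMap
  let φ : (A × A) →ₗ[S2] (L × L) := g.prodMap g
  have hφ : ∀ a : A × A, φ a = (algebraMap A L a.1, algebraMap A L a.2) := fun a => rfl
  have hφinj : Function.Injective φ := by
    intro a b hab
    rw [hφ, hφ, Prod.mk.injEq] at hab
    exact Prod.ext (hAL hab.1) (hAL hab.2)
  have hVle : V ≤ LinearMap.range φ := by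
    intro z hz
    obtain ⟨c, hc⟩ := VA_fst P hP (show z ∈ VA A P from hz)
    obtain ⟨d, hd⟩ := VA_snd P hP (show z ∈ VA A P from hz)
    exact ⟨(c, d), by rw [hφ]; exact Prod.ext hc.symm hd.symm⟩
  have hVfg : V.FG := by
    have h1 : IsNoetherian S2 (LinearMap.range φ) := inferInstance
    exact isNoetherian_submodule.1 h1 V hVle
  have hVfin : Module.Finite S2 V := Module.Finite.iff_fg.2 hVfg
  -- freeness
  have hfree : Module.Free S2 V := by
    apply free_of_regular
    · intro m hm
      have h1 : (X 0 : S2) • (m : L × L) = 0 := by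
        have := congrArg Subtype.val hm
        simpa using this
      apply Subtype.ext
      have h2 : algebraMap S2 L (X 0) * (m : L × L).1 = 0 := by
        have := congrArg Prod.fst h1
        rwa [Prod.smul_fst, Algebra.smul_def] at this
      have h3 : algebraMap S2 L (X 0) * (m : L × L).2 = 0 := by
        have := congrArg Prod.snd h1
        rwa [Prod.smul_snd, Algebra.smul_def] at this
      exact Prod.ext ((mul_eq_zero.1 h2).resolve_left hX0) ((mul_eq_zero.1 h3).resolve_left hX0)
    · intro m m' hmm
      have h1 : (X 1 : S2) • (m : L × L) = (X 0 : S2) • (m' : L × L) := by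
        have := congrArg Subtype.val hmm
        simpa using this
      have h2 : algebraMap S2 L (X 1) * (m : L × L).1 = algebraMap S2 L (X 0) * (m' : L × L).1 := by
        have := congrArg Prod.fst h1
        rwa [Prod.smul_fst, Prod.smul_fst, Algebra.smul_def, Algebra.smul_def] at this
      have h3 : algebraMap S2 L (X 1) * (m : L × L).2 = algebraMap S2 L (X 0) * (m' : L × L).2 := by
        have := congrArg Prod.snd h1
        rwa [Prod.smul_snd, Prod.smul_snd, Algebra.smul_def, Algebra.smul_def] at this
      set x : L := algebraMap S2 L (X 0) with hx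
      have hmem : ((x⁻¹ * (m : L × L).1, x⁻¹ * (m : L × L).2) : L × L) ∈ VA A P := by
        intro a
        obtain ⟨c, hc⟩ := (show (m : L × L) ∈ VA A P from m.2) a
        obtain ⟨c', hc'⟩ := (show (m' : L × L) ∈ VA A P from m'.2) a
        have h4 : algebraMap S2 A (X 1) * c = algebraMap S2 A (X 0) * c' := by
          apply hAL
          rw [map_mul, map_mul, ← hc, ← hc', ← IsScalarTower.algebraMap_apply,
            ← IsScalarTower.algebraMap_apply, ← hx, mul_add, mul_add, ← mul_assoc, ← mul_assoc,
            ← mul_assoc, ← mul_assoc, h2, h3]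
        obtain ⟨c'', hc''⟩ := hreg c ⟨c', h4⟩
        refine ⟨c'', ?_⟩
        have h5 : algebraMap A L c = x * algebraMap A L c'' := by
          rw [hc'', map_mul, ← IsScalarTower.algebraMap_apply]
        rw [h5] at hc
        have h6 : x⁻¹ * (m : L × L).1 * P 0 (algebraMap A L a) +
            x⁻¹ * (m : L × L).2 * P 1 (algebraMap A L a) =
            x⁻¹ * ((m : L × L).1 * P 0 (algebraMap A L a) +
              (m : L × L).2 * P 1 (algebraMap A L a)) := by ring
        change x⁻¹ * (m : L × L).1 * P 0 (algebraMap A L a) +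
            x⁻¹ * (m : L × L).2 * P 1 (algebraMap A L a) = _
        rw [h6, hc, ← mul_assoc, inv_mul_cancel₀ hX0, one_mul]
      refine ⟨⟨_, hmem⟩, ?_⟩
      apply Subtype.ext
      rw [Submodule.coe_smul]
      refine Prod.ext ?_ ?_
      · rw [Prod.smul_fst, Algebra.smul_def, ← hx, ← mul_assoc, mul_inv_cancel₀ hX0, one_mul]
      · rw [Prod.smul_snd, Algebra.smul_def, ← hx, ← mul_assoc, mul_inv_cancel₀ hX0, one_mul]
  -- denominators
  obtain ⟨s, hs0, hs⟩ := exists_den_fin (A := A)
    (fun q : Fin 2 × ι => P q.1 (algebraMap A L (u q.2)))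
  have hsP : ∀ (i : Fin 2) (a : A),
      algebraMap S2 L s * P i (algebraMap A L a) ∈ (algebraMap A L).range := by
    intro i a
    have h1 : algebraMap A L a =
        ∑ j, algebraMap S2 L (u.repr a j) * algebraMap A L (u j) := by
      conv_lhs => rw [← u.sum_repr a]
      rw [map_sum]
      apply Finset.sum_congr rfl
      intro j _
      rw [Algebra.smul_def, map_mul, ← IsScalarTower.algebraMap_apply]
    rw [h1, map_sum, Finset.mul_sum]
    apply sum_mem
    intro j _
    rw [Derivation.leibniz, hP, smul_eq_mul, smul_eq_mul, mul_add]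
    apply add_mem
    · have h2 : algebraMap S2 L s * (algebraMap S2 L (u.repr a j) * P i (algebraMap A L (u j))) =
          algebraMap S2 L (u.repr a j) * (algebraMap S2 L s * P i (algebraMap A L (u j))) := by
        ring
      rw [h2]
      refine mul_mem ⟨algebraMap S2 A (u.repr a j), ?_⟩ (hs (i, j))
      rw [← IsScalarTower.algebraMap_apply]
    · refine mul_mem ⟨algebraMap S2 A s, ?_⟩
        (mul_mem ⟨u j, rfl⟩ ⟨algebraMap S2 A (pderiv ℂ i (u.repr a j)), ?_⟩)
      · rw [← IsScalarTower.algebraMap_apply]
      · rw [← IsScalarTower.algebraMap_apply]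
  have hsV : ∀ a : A × A, s • φ a ∈ V := by
    intro a b
    have h1 := hsP 0 b
    have h2 := hsP 1 b
    have h3 : algebraMap A L a.1 * (algebraMap S2 L s * P 0 (algebraMap A L b)) +
        algebraMap A L a.2 * (algebraMap S2 L s * P 1 (algebraMap A L b)) ∈
        (algebraMap A L).range :=
      add_mem (mul_mem ⟨a.1, rfl⟩ h1) (mul_mem ⟨a.2, rfl⟩ h2)
    obtain ⟨c, hc⟩ := h3
    refine ⟨c, ?_⟩
    rw [hc, hφ, Prod.smul_fst, Prod.smul_snd, Algebra.smul_def, Algebra.smul_def]
    ring
  -- the rank
  have hrank : Module.finrank S2 V = Fintype.card (ι ⊕ ι) := by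
    have hb : Module.finrank S2 (A × A) = Fintype.card (ι ⊕ ι) :=
      Module.finrank_eq_card_basis (u.prod u)
    apply le_antisymm
    · rw [← hb]
      let ψ : V →ₗ[S2] (A × A) :=
        (LinearEquiv.ofInjective φ hφinj).symm.toLinearMap ∘ₗ Submodule.inclusion hVle
      have hψ : Function.Injective ψ :=
        (LinearEquiv.ofInjective φ hφinj).symm.injective.comp (Submodule.inclusion_injective hVle)
      exact LinearMap.finrank_le_finrank_of_injective hψ
    · rw [← hb]
      let ψ : (A × A) →ₗ[S2] V := LinearMap.codRestrict V (s • φ) (fun a => hsV a)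
      have hψ : Function.Injective ψ := by
        intro a b hab
        have h1 : s • φ a = s • φ b := congrArg Subtype.val hab
        have h2 : algebraMap S2 L s ≠ 0 := by
          intro h
          exact hs0 (hSL (by rw [h, map_zero]))
        apply hφinj
        refine Prod.ext ?_ ?_
        · have := congrArg Prod.fst h1
          rw [Prod.smul_fst, Prod.smul_fst, Algebra.smul_def, Algebra.smul_def] at this
          exact mul_left_cancel₀ h2 this
        · have := congrArg Prod.snd h1
          rw [Prod.smul_snd, Prod.smul_snd, Algebra.smul_def, Algebra.smul_def] at this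
          exact mul_left_cancel₀ h2 this
      exact LinearMap.finrank_le_finrank_of_injective hψ
  -- the basis
  let bV := Module.Free.chooseBasis S2 V
  have hcard : Fintype.card (Module.Free.ChooseBasisIndex S2 V) = Fintype.card (ι ⊕ ι) := by
    rw [← Module.finrank_eq_card_chooseBasisIndex, hrank]
  let b : Module.Basis (ι ⊕ ι) S2 V := bV.reindex (Fintype.equivOfCardEq hcard)
  have hbφ : ∀ i, ∃ a : A × A, φ a = (b i : L × L) := fun i => hVle (b i).2
  choose a ha using hbφ
  let Pm : Matrix (ι ⊕ ι) (ι ⊕ ι) S2 := Matrix.of fun i j => (u.prod u).repr (a i) j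
  have hee : ∀ j, φ ((u.prod u) j) = ee L u j := by
    intro j
    rcases j with j | j
    · rw [hφ]
      simp [ee]
    · rw [hφ]
      simp [ee]
  have hrow : ∀ i, ∑ j, Pm i j • ee L u j = (b i : L × L) := by
    intro i
    rw [← ha i]
    conv_rhs => rw [← (u.prod u).sum_repr (a i)]
    rw [map_sum]
    apply Finset.sum_congr rfl
    intro j _
    rw [map_smul, hee]
    rfl
  refine ⟨Pm, ?_, ?_⟩
  · intro hdet
    obtain ⟨v, hv0, hv⟩ := Matrix.exists_vecMul_eq_zero_iff.2 hdet
    have hsum : ∑ i, v i • b i = 0 := by
      apply Subtype.ext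
      rw [Submodule.coe_sum, Submodule.coe_zero]
      calc ∑ i, ((v i • b i : V) : L × L) = ∑ i, v i • ∑ j, Pm i j • ee L u j := by
            apply Finset.sum_congr rfl
            intro i _
            rw [hrow, Submodule.coe_smul]
        _ = ∑ j, (∑ i, v i * Pm i j) • ee L u j := by
            simp only [Finset.smul_sum, Finset.sum_smul, smul_smul]
            exact Finset.sum_comm
        _ = 0 := by
            apply Finset.sum_eq_zero
            intro j _
            have h1 : ∑ i, v i * Pm i j = 0 := congrFun hv j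
            rw [h1, zero_smul]
    apply hv0
    funext i
    exact Fintype.linearIndependent_iff.1 b.linearIndependent v hsum i
  · have h1 : (fun i => ∑ j, Pm i j • ee L u j) = V.subtype ∘ b := by
      funext i
      exact hrow i
    rw [h1, Set.range_comp, ← Submodule.map_span, b.span_eq, Submodule.map_top,
      Submodule.range_subtype]

end Pool.Agent.Helper85.RIG
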