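import Mathlib
import Pool.Agent.Helper85.RIG.IdxDet
import Pool.Agent.Helper85.RIG.VFree
import Pool.Agent.Helper85.RIG.BasisL

/-!
# RIG-40 IdxVA: the index of the module of derivations over a discrete valuation ring containing `S2`

`R` is a discrete valuation ring with `S2 -> R -> K` (in the application `Rord K` and `Oloc K pi`), `AR` the `R`-span of the `u_i`.
Then `idx (AR x AR) (R-span of VA) = addVal R (det Pm)`.

Proof. `AR x AR` is the `R`-span of the range of `ee L u` (`ee_span`). The `R`-span of `VA` is the `R`-span of the `S2`-span of the rows, i.e. of the rows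
`sum_j Pm i j ee j = sum_j (algebraMap S2 R (Pm i j)) ee j`. The family `ee` is linearly independent over `R`, because it is
over `K` (`exists_basis_L`). The determinant of the mapped matrix is `algebraMap S2 R (det Pm)` (`RingHom.map_det`), nonzero as
`S2 -> K` is injective. Apply `idx_span_det`.
-/

set_option autoImplicit false

namespace Pool.Agent.Helper85.RIG

section
variable {A K L R ι : Type*} [CommRing A] [IsDomain A] [Algebra S2 A]
  [Module.Finite S2 A] [FaithfulSMul S2 A]
  [Field K] [Algebra S2 K] [IsFractionRing S2 K]
  [Field L] [Algebra A L] [IsFractionRing A L] [Algebra S2 L] [IsScalarTower S2 A L]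
  [Algebra K L] [IsScalarTower S2 K L] [Fintype ι] [DecidableEq ι]
  [CommRing R] [IsDomain R] [IsDiscreteValuationRing R] [Algebra S2 R] [Algebra R K]
  [IsFractionRing R K] [IsScalarTower S2 R K] [Algebra R L] [IsScalarTower R K L]
  [IsScalarTower S2 R L]

omit [Module.Finite S2 A] [FaithfulSMul S2 A] [IsFractionRing A L] [IsDomain A]
  [DecidableEq ι] [IsDomain R] [IsDiscreteValuationRing R] in
theorem ee_span (u : Module.Basis ι S2 A) :
    (Submodule.span R (Set.range fun i => algebraMap A L (u i))).prod
      (Submodule.span R (Set.range fun i => algebraMap A L (u i))) =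
    Submodule.span R (Set.range (ee L u)) := by
  apply le_antisymm
  · rintro ⟨a, b⟩ ⟨ha, hb⟩
    have h1 : (Submodule.span R (Set.range fun i => algebraMap A L (u i))).map
        (LinearMap.inl R L L) ≤ Submodule.span R (Set.range (ee L u)) := by
      rw [Submodule.map_span, Submodule.span_le]
      rintro _ ⟨_, ⟨i, rfl⟩, rfl⟩
      exact Submodule.subset_span ⟨Sum.inl i, rfl⟩
    have h2 : (Submodule.span R (Set.range fun i => algebraMap A L (u i))).map
        (LinearMap.inr R L L) ≤ Submodule.span R (Set.range (ee L u)) := by
      rw [Submodule.map_span, Submodule.span_le]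
      rintro _ ⟨_, ⟨i, rfl⟩, rfl⟩
      exact Submodule.subset_span ⟨Sum.inr i, rfl⟩
    have h3 : ((a, b) : L × L) = LinearMap.inl R L L a + LinearMap.inr R L L b := by
      simp
    rw [h3]
    exact add_mem (h1 ⟨a, ha, rfl⟩) (h2 ⟨b, hb, rfl⟩)
  · rw [Submodule.span_le]
    rintro _ ⟨s, rfl⟩
    rcases s with i | i
    · exact ⟨Submodule.subset_span ⟨i, rfl⟩, zero_mem _⟩
    · exact ⟨zero_mem _, Submodule.subset_span ⟨i, rfl⟩⟩

include K in
theorem idx_VA (P : Fin 2 → Derivation ℤ L L) (u : Module.Basis ι S2 A)
    (Pm : Matrix (ι ⊕ ι) (ι ⊕ ι) S2) (hdet : Pm.det ≠ 0)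
    (hPm : (VA A P).restrictScalars S2 =
      Submodule.span S2 (Set.range fun i => ∑ j, Pm i j • ee L u j)) :
    idx ((Submodule.span R (Set.range fun i => algebraMap A L (u i))).prod
        (Submodule.span R (Set.range fun i => algebraMap A L (u i))))
      (Submodule.span R (VA A P : Set (L × L))) =
    IsDiscreteValuationRing.addVal R (algebraMap S2 R Pm.det) := by
  obtain ⟨uL, huL, -⟩ := exists_basis_L (K := K) (L := L) u
  -- linear independence of ee over R
  have hlin : LinearIndependent R (ee L u) := by
    rw [Fintype.linearIndependent_iff]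
    intro g hg
    rw [Fintype.sum_sum_type] at hg
    have hRK : ∀ (r : R) (z : L), r • z = algebraMap R K r • z := by
      intro r z
      rw [algebraMap_smul]
    have h1 : ∑ i, g (Sum.inl i) • algebraMap A L (u i) = 0 := by
      have h := congrArg Prod.fst hg
      simpa [ee, Prod.fst_sum] using h
    have h2 : ∑ i, g (Sum.inr i) • algebraMap A L (u i) = 0 := by
      have h := congrArg Prod.snd hg
      simpa [ee, Prod.snd_sum] using h
    have key : ∀ c : ι → R, ∑ i, c i • algebraMap A L (u i) = 0 → ∀ i, c i = 0 := by
      intro c hc i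
      have h3 := Fintype.linearIndependent_iff.1 uL.linearIndependent
        (fun i => algebraMap R K (c i)) (by
          rw [← hc]
          refine Finset.sum_congr rfl fun i _ => ?_
          rw [huL, hRK]) i
      exact (IsFractionRing.injective R K) (by rw [h3, map_zero])
    rintro (i | i)
    · exact key _ h1 i
    · exact key _ h2 i
  have hinj : Function.Injective (algebraMap S2 R) := by
    have h1 : Function.Injective (algebraMap S2 K) := IsFractionRing.injective S2 K
    rw [IsScalarTower.algebraMap_eq S2 R K] at h1
    exact Function.Injective.of_comp h1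
  have hdetR : (Pm.map (algebraMap S2 R)).det = algebraMap S2 R Pm.det := by
    rw [← RingHom.mapMatrix_apply, ← RingHom.map_det]
  have hdetR0 : (Pm.map (algebraMap S2 R)).det ≠ 0 := by
    rw [hdetR]
    intro h0
    exact hdet (hinj (by rw [h0, map_zero]))
  have key := idx_span_det (ee L u) hlin (Pm.map (algebraMap S2 R)) hdetR0
  rw [hdetR] at key
  rw [ee_span, ← key]
  congr 1
  have hrow : ∀ i, ∑ j, (Pm.map (algebraMap S2 R)) i j • ee L u j = ∑ j, Pm i j • ee L u j := by
    intro i
    refine Finset.sum_congr rfl fun j _ => ?_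
    rw [Matrix.map_apply, algebraMap_smul]
  apply le_antisymm
  · rw [Submodule.span_le]
    intro z hz
    have hz' : z ∈ (VA A P).restrictScalars S2 := hz
    rw [hPm] at hz'
    have h3 : z ∈ Submodule.span R (Set.range fun i => ∑ j, Pm i j • ee L u j) :=
      Submodule.span_subset_span S2 R _ hz'
    have h4 : (fun i => ∑ j, (Pm.map (algebraMap S2 R)) i j • ee L u j) =
        fun i => ∑ j, Pm i j • ee L u j := funext hrow
    rw [h4]
    exact h3
  · rw [Submodule.span_le]
    rintro _ ⟨i, rfl⟩
    simp only
    rw [hrow]
    apply Submodule.subset_span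
    have h3 : (∑ j, Pm i j • ee L u j) ∈ (VA A P).restrictScalars S2 := by
      rw [hPm]
      exact Submodule.subset_span ⟨i, rfl⟩
    exact h3

end

end Pool.Agent.Helper85.RIG
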