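import Mathlib
import Pool.Agent.Helper85.RIG.Oloc

/-!
# RIG-22 IntOloc: the integral closure of `Oloc K pi` in `L` is the localisation of `A`

`A` is an integrally closed domain with fraction field `L`, finite over `S2`, `u` a basis of `A` over `S2`.
Then `intB (Oloc K pi) L` is the `Oloc K pi`-span of the `u_i`.

Proof. `u_i` is integral over `S2`, hence over `Oloc K pi`; so the span is contained in `intB`. Conversely let `z` in `L` be integral over
`O = Oloc K pi`: a monic polynomial of degree `n` with coefficients `f_i / g_i`, `pi` not dividing `g_i`; let `g` be the product of the `g_i`;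
`pi` does not divide `g`, and `g z` is a root of the monic polynomial with coefficients `g^(n-i) f_i / g_i` in `S2` (see also
`IsIntegral.exists_multiple_integral_of_isLocalization` if `Oloc` is shown to be a localisation, or
`Polynomial.scaleRoots`), so `g z` is integral over `S2`, hence over `A`, so `g z = algebraMap A L a` (`IsIntegrallyClosed.isIntegral_iff`),
`a = sum s_i u_i`, `z = sum (s_i / g) u_i` with `s_i / g` in `O`.
-/

set_option autoImplicit false

namespace Pool.Agent.Helper85.RIG

open MvPowerSeries

/-- The complement of the prime ideal `(π)`. -/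
private def cpl (π : S2) (hπ : Prime π) : Submonoid S2 where
  carrier := {g | ¬ π ∣ g}
  one_mem' := fun hd => hπ.not_isUnit (isUnit_of_dvd_one hd)
  mul_mem' := by
    intro a b ha hb hd
    rcases hπ.dvd_or_dvd hd with h1 | h1
    · exact ha h1
    · exact hb h1

private theorem isLoc (K : Type*) [Field K] [Algebra S2 K] [IsFractionRing S2 K] (π : S2)
    (hπ : Prime π) : IsLocalization (cpl π hπ) (Oloc K π hπ) where
  map_units := fun g => Oloc_isUnit K π hπ g.1 g.2
  surj := by
    rintro ⟨z, f, g, hg, h⟩
    exact ⟨(f, ⟨g, hg⟩), Subtype.ext h⟩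
  exists_of_eq := by
    intro a b hab
    refine ⟨1, ?_⟩
    have h1 : algebraMap S2 K a = algebraMap S2 K b := congrArg Subtype.val hab
    rw [IsFractionRing.injective S2 K h1]

theorem intB_Oloc {A K L ι : Type*} [CommRing A] [IsDomain A] [IsIntegrallyClosed A]
    [Algebra S2 A] [Module.Finite S2 A]
    [Field K] [Algebra S2 K] [IsFractionRing S2 K]
    [Field L] [Algebra A L] [IsFractionRing A L] [Algebra S2 L] [IsScalarTower S2 A L]
    [Algebra K L] [IsScalarTower S2 K L] [Fintype ι]
    (u : Module.Basis ι S2 A) (π : S2) (hπ : Prime π) :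
    Submodule.span (Oloc K π hπ) (Set.range fun i => algebraMap A L (u i)) =
      intB (Oloc K π hπ) L := by
  have hloc := isLoc K π hπ
  have hfin : Algebra.IsIntegral S2 A := Algebra.IsIntegral.of_finite S2 A
  have htow : IsScalarTower S2 (Oloc K π hπ) L := by
    infer_instance
  apply le_antisymm
  · rw [Submodule.span_le]
    rintro _ ⟨i, rfl⟩
    have h1 : IsIntegral S2 (algebraMap A L (u i)) :=
      (hfin.isIntegral (u i)).map (IsScalarTower.toAlgHom S2 A L)
    exact h1.tower_top
  · intro z hz
    obtain ⟨g, hg⟩ := IsIntegral.exists_multiple_integral_of_isLocalization (cpl π hπ) z hz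
    have h2 : IsIntegral A (g • z) := hg.tower_top
    obtain ⟨a, ha⟩ := IsIntegrallyClosed.isIntegral_iff.mp h2
    obtain ⟨w, hw⟩ := Oloc_isUnit K π hπ g.1 g.2
    have h3 : g • z = (w : Oloc K π hπ) • z := by
      rw [hw, algebraMap_smul]
      rfl
    have h4 : z = (↑w⁻¹ : Oloc K π hπ) • algebraMap A L a := by
      rw [ha, h3, smul_smul, Units.inv_mul, one_smul]
    rw [h4]
    apply Submodule.smul_mem
    rw [← u.sum_repr a, map_sum]
    apply Submodule.sum_mem
    intro i _
    have h5 : algebraMap A L ((u.repr a) i • u i) =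
        algebraMap S2 (Oloc K π hπ) ((u.repr a) i) • algebraMap A L (u i) := by
      rw [algebraMap_smul, Algebra.smul_def, Algebra.smul_def, map_mul,
        ← IsScalarTower.algebraMap_apply]
    rw [h5]
    exact Submodule.smul_mem _ _ (Submodule.subset_span ⟨i, rfl⟩)

end Pool.Agent.Helper85.RIG
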