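import Mathlib
import Pool.Agent.Helper85.RIG.IdxVA
import Pool.Agent.Helper85.RIG.DerOloc
import Pool.Agent.Helper85.RIG.IntOloc
import Pool.Agent.Helper85.RIG.DivLocal
import Pool.Agent.Helper85.RIG.S2Facts

/-!
# RIG-25 Div: the discriminant divides the determinant (step 3)

Proof. By `dvd_of_primes` it suffices: for every prime `pi` of `S2`, `pi^k | disc` implies `pi^k | det Pm`. Let `O = Oloc K pi`,
`AO` the `O`-span of the `u_i`, equal to `intB O L` (`intB_Oloc`), `uL` the basis of `exists_basis_L`. `prime_not_dvd_pderiv` gives `i` with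
`pi` not dividing `pderiv i pi`. Let `V` be the `O`-span of `VA A P`. `V <= AO x AO` (`VA_fst`, `VA_snd`; the image of `A` is in `AO`). Every
`(a, c)` in `V` satisfies `a P_0 b + c P_1 b` in `AO` for all `b` in the image of `A` (true for `VA`, and stable under
`O`-linear combinations). If `(a, 0)` is in `V` then `a` is in `AO`, and for `b = sum r_j u_j` in `AO`, `a P_0 b = sum (r_j (a P_0 u_j) + (P_0 r_j) a u_j)` is
in `AO` (`P_O`; `AO = intB` is a ring). Similarly for `(0, a)` and `P_1`. So `div_local_fst` (if `i = 0`) or `div_local_snd` (if `i = 1`), with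
`x = algebraMap S2 O pi` (`Oloc_irred`), `D = P i` (`P_O`, `P_pi`), gives `addVal O disc <= idx (AO x AO) V = addVal O (det Pm)`
(`idx_VA`). Hence `algebraMap pi ^ k | algebraMap disc` implies `algebraMap pi ^ k | algebraMap (det Pm)` in `O` (a discrete
valuation ring: `IsDiscreteValuationRing.addVal_le_iff_dvd` or similar) and `Oloc_dvd_iff` finishes. The discriminant is nonzero
(`Algebra.discr_not_zero_of_basis` for `L / K` separable). `algebraMap O K (algebraMap S2 O disc) = discr K uL`.
-/

set_option autoImplicit false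

namespace Pool.Agent.Helper85.RIG

open MvPowerSeries

section aux
variable {A K L : Type*} [CommRing A]
  [Algebra S2 A] [Module.Finite S2 A]
  [Field K] [Algebra S2 K] [IsFractionRing S2 K]
  [Field L] [Algebra A L] [Algebra S2 L] [IsScalarTower S2 A L]
  [Algebra K L] [IsScalarTower S2 K L] (π : S2) (hπ : Prime π)

omit [IsFractionRing S2 K] in
private theorem int_map (c : A) : IsIntegral (Oloc K π hπ) (algebraMap A L c) := by
  have h1 : IsIntegral S2 c := Algebra.IsIntegral.isIntegral c
  have h2 : IsIntegral S2 (algebraMap A L c) := h1.algebraMap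
  exact h2.tower_top

omit [IsFractionRing S2 K] in
private theorem val_int (P : Fin 2 → Derivation ℤ L L) (z : L × L)
    (hz : z ∈ Submodule.span (Oloc K π hπ) (VA A P : Set (L × L))) (c : A) :
    IsIntegral (Oloc K π hπ) (z.1 * P 0 (algebraMap A L c) + z.2 * P 1 (algebraMap A L c)) := by
  induction hz using Submodule.span_induction with
  | mem z h =>
    obtain ⟨c', hc'⟩ := h c
    rw [hc']
    exact int_map π hπ c'
  | zero => simpa using isIntegral_zero
  | add z z' _ _ h h' =>
    have h1 : (z + z').1 * P 0 (algebraMap A L c) + (z + z').2 * P 1 (algebraMap A L c) =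
        (z.1 * P 0 (algebraMap A L c) + z.2 * P 1 (algebraMap A L c)) +
          (z'.1 * P 0 (algebraMap A L c) + z'.2 * P 1 (algebraMap A L c)) := by
      rw [Prod.fst_add, Prod.snd_add]; ring
    rw [h1]
    exact h.add h'
  | smul r z _ h =>
    have h1 : (r • z).1 * P 0 (algebraMap A L c) + (r • z).2 * P 1 (algebraMap A L c) =
        r • (z.1 * P 0 (algebraMap A L c) + z.2 * P 1 (algebraMap A L c)) := by
      rw [Prod.smul_fst, Prod.smul_snd, smul_mul_assoc, smul_mul_assoc, smul_add]
    rw [h1]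
    exact h.smul r

omit [IsFractionRing S2 K] in
private theorem span_int (P : Fin 2 → Derivation ℤ L L)
    (hP : ∀ i (f : S2), P i (algebraMap S2 L f) = algebraMap S2 L (pderiv ℂ i f)) (z : L × L)
    (hz : z ∈ Submodule.span (Oloc K π hπ) (VA A P : Set (L × L))) :
    IsIntegral (Oloc K π hπ) z.1 ∧ IsIntegral (Oloc K π hπ) z.2 := by
  induction hz using Submodule.span_induction with
  | mem z h =>
    obtain ⟨c, hc⟩ := VA_fst P hP h
    obtain ⟨c', hc'⟩ := VA_snd P hP h
    rw [hc, hc']
    exact ⟨int_map π hπ c, int_map π hπ c'⟩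
  | zero => exact ⟨isIntegral_zero, isIntegral_zero⟩
  | add z z' _ _ h h' => exact ⟨h.1.add h'.1, h.2.add h'.2⟩
  | smul r z _ h => exact ⟨h.1.smul r, h.2.smul r⟩

omit [IsFractionRing S2 K] [Algebra S2 L] [IsScalarTower S2 K L] in
private theorem der_int {ι : Type*} (w : ι → L) (D : Derivation ℤ L L)
    (hD : ∀ r : Oloc K π hπ, ∃ r' : Oloc K π hπ,
      D (algebraMap (Oloc K π hπ) L r) = algebraMap (Oloc K π hπ) L r')
    (hw : ∀ i, IsIntegral (Oloc K π hπ) (w i)) (a : L) (ha : IsIntegral (Oloc K π hπ) a)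
    (haw : ∀ i, IsIntegral (Oloc K π hπ) (a * D (w i))) (b : L)
    (hb : b ∈ Submodule.span (Oloc K π hπ) (Set.range w)) :
    IsIntegral (Oloc K π hπ) b ∧ IsIntegral (Oloc K π hπ) (a * D b) := by
  induction hb using Submodule.span_induction with
  | mem z h =>
    obtain ⟨i, rfl⟩ := h
    exact ⟨hw i, haw i⟩
  | zero => exact ⟨isIntegral_zero, by simpa using isIntegral_zero⟩
  | add z z' _ _ h h' =>
    refine ⟨h.1.add h'.1, ?_⟩
    rw [map_add, mul_add]
    exact h.2.add h'.2
  | smul r z _ h =>
    refine ⟨h.1.smul r, ?_⟩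
    obtain ⟨r', hr'⟩ := hD r
    have h1 : a * D (r • z) = r • (a * D z) + r' • (a * z) := by
      rw [Algebra.smul_def r z, Derivation.leibniz, hr', Algebra.smul_def r (a * D z),
        Algebra.smul_def r' (a * z), smul_eq_mul, smul_eq_mul]
      ring
    rw [h1]
    exact (h.2.smul r).add ((ha.mul h.1).smul r')

end aux

theorem disc_dvd {A K L ι : Type*} [CommRing A] [IsDomain A] [IsIntegrallyClosed A]
    [Algebra S2 A] [Module.Finite S2 A] [FaithfulSMul S2 A]
    [Field K] [Algebra S2 K] [IsFractionRing S2 K] [CharZero K] [Algebra ℂ K]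
    [IsScalarTower ℂ S2 K]
    [Field L] [Algebra A L] [IsFractionRing A L] [Algebra S2 L] [IsScalarTower S2 A L]
    [Algebra K L] [IsScalarTower S2 K L] [FiniteDimensional K L] [Fintype ι] [DecidableEq ι]
    (P : Fin 2 → Derivation ℤ L L)
    (hP : ∀ i (f : S2), P i (algebraMap S2 L f) = algebraMap S2 L (pderiv ℂ i f))
    (u : Module.Basis ι S2 A)
    (Pm : Matrix (ι ⊕ ι) (ι ⊕ ι) S2) (hdet : Pm.det ≠ 0)
    (hPm : (VA A P).restrictScalars S2 =
      Submodule.span S2 (Set.range fun i => ∑ j, Pm i j • ee L u j)) :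
    Algebra.discr S2 u ∣ Pm.det := by
  obtain ⟨uL, huL, hdisc⟩ := exists_basis_L (K := K) (L := L) u
  have hd0 : Algebra.discr S2 u ≠ 0 := by
    intro h
    have h1 := Algebra.discr_not_zero_of_basis K uL
    rw [hdisc, h, map_zero] at h1
    exact h1 rfl
  refine dvd_of_primes hd0 fun π hπ k hk => ?_
  have huL' : (uL : ι → L) = fun i => algebraMap A L (u i) := funext huL
  have hspan : Submodule.span (Oloc K π hπ) (Set.range uL) = intB (Oloc K π hπ) L := by
    rw [huL']
    exact intB_Oloc u π hπ
  have hint : ∀ b : L, IsIntegral (Oloc K π hπ) b ↔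
      b ∈ Submodule.span (Oloc K π hπ) (Set.range fun i => algebraMap A L (u i)) := by
    intro b
    rw [← huL', hspan]
    rfl
  have hV : Submodule.span (Oloc K π hπ) (VA A P : Set (L × L)) ≤
      (intB (Oloc K π hπ) L).prod (intB (Oloc K π hπ) L) := by
    intro z hz
    exact span_int π hπ P hP z hz
  obtain ⟨i, hi⟩ := prime_not_dvd_pderiv hπ
  have key : IsDiscreteValuationRing.addVal (Oloc K π hπ)
      (algebraMap S2 (Oloc K π hπ) (Algebra.discr S2 u)) ≤
      idx ((intB (Oloc K π hπ) L).prod (intB (Oloc K π hπ) L))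
        (Submodule.span (Oloc K π hπ) (VA A P : Set (L × L))) := by
    have hδ : algebraMap (Oloc K π hπ) K (algebraMap S2 (Oloc K π hπ) (Algebra.discr S2 u)) =
        Algebra.discr K uL := by
      rw [hdisc]
      rfl
    have hi' : i = 0 ∨ i = 1 := by omega
    rcases hi' with rfl | rfl
    · refine div_local_fst uL hspan _ hδ (P 0) (P_O π hπ P hP 0) _ (Oloc_irred K π hπ)
        (P_pi π hπ P hP 0 hi) _ hV ?_
      intro a ha b hb
      refine (der_int π hπ (fun i => algebraMap A L (u i)) (P 0) (P_O π hπ P hP 0)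
        (fun j => int_map π hπ (u j)) a (span_int π hπ P hP _ ha).1 (fun j => ?_) b
        ((hint b).1 hb)).2
      have h1 := val_int π hπ P _ ha (u j)
      simpa using h1
    · refine div_local_snd uL hspan _ hδ (P 1) (P_O π hπ P hP 1) _ (Oloc_irred K π hπ)
        (P_pi π hπ P hP 1 hi) _ hV ?_
      intro a ha b hb
      refine (der_int π hπ (fun i => algebraMap A L (u i)) (P 1) (P_O π hπ P hP 1)
        (fun j => int_map π hπ (u j)) a (span_int π hπ P hP _ ha).2 (fun j => ?_) b
        ((hint b).1 hb)).2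
      have h1 := val_int π hπ P _ ha (u j)
      simpa using h1
  rw [← intB_Oloc (A := A) u π hπ, idx_VA (K := K) P u Pm hdet hPm,
    IsDiscreteValuationRing.addVal_le_iff_dvd] at key
  exact (Oloc_dvd_iff K π hπ _ k).1 (((Oloc_dvd_iff K π hπ _ k).2 hk).trans key)

end Pool.Agent.Helper85.RIG
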