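import Mathlib
import Pool.Agent.Helper85.RIG.OrdR
import Pool.Agent.Helper85.RIG.IntB

/-!
# RIG-20 MInXB: `m B = x B` (step 4)

`B = integralClosure (Rord K) L` is a principal ideal domain (`intB_pid`) containing `A` (every element of `A` is integral over
`S2`, hence over `Rord K`). From `m^(r+1) = (x, y) m^r` in `A` it follows that `m B = x B`: let `J = m B` (the ideal of `B`
generated by the images of `m`), `J^(r+1) = (x, y)B J^r = x B J^r`, because `y = t x` with `t` in `Rord K` (`Rord_t`). `J` is
nonzero (it contains `x`: `x` in `m`) and `B` is a principal ideal domain, so `J^r` can be cancelled: `J = x B`.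
The ring homomorphism `A -> B` is `a -> algebraMap A L a` (integrality).
-/

set_option autoImplicit false

namespace Pool.Agent.Helper85.RIG

open MvPowerSeries

/-- Cancellation of ideals in a Dedekind domain. -/
private theorem mx_cancel {A B : Type*} [CommRing A] [CommRing B] [IsDedekindDomain B]
    (φ : A →+* B) (m : Ideal A) (x y : A) (r : ℕ)
    (hred : m ^ (r + 1) = Ideal.span {x, y} * m ^ r) (hxm : x ∈ m) (hx : φ x ≠ 0) (t : B)
    (hy : φ y = t * φ x) (z : A) (hz : z ∈ m) : ∃ b, φ z = φ x * b := by
  set J : Ideal B := m.map φ with hJ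
  have hJx : φ x ∈ J := Ideal.mem_map_of_mem φ hxm
  have hJ0 : J ≠ 0 := by
    intro h
    rw [h, Ideal.zero_eq_bot, Ideal.mem_bot] at hJx
    exact hx hJx
  have h1 : J ^ (r + 1) = Ideal.span {φ x} * J ^ r := by
    have h2 := congrArg (Ideal.map φ) hred
    rw [Ideal.map_mul, Ideal.map_pow, Ideal.map_pow, Ideal.map_span, Set.image_pair] at h2
    rw [hJ, h2]
    congr 1
    apply le_antisymm
    · rw [Ideal.span_le]
      rintro b hb
      rcases hb with rfl | hb
      · exact Ideal.subset_span rfl
      · rw [Set.mem_singleton_iff] at hb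
        rw [hb, hy]
        exact Ideal.mul_mem_left _ _ (Ideal.subset_span rfl)
    · exact Ideal.span_mono (by simp)
  rw [pow_succ'] at h1
  have h2 : J = Ideal.span {φ x} := mul_right_cancel₀ (pow_ne_zero r hJ0) h1
  have h3 : φ z ∈ J := Ideal.mem_map_of_mem φ hz
  rw [h2, Ideal.mem_span_singleton] at h3
  exact h3

theorem m_in_xB {A K L : Type*} [CommRing A] [IsDomain A] [IsLocalRing A] [Algebra S2 A]
    [Module.Finite S2 A]
    [Field K] [Algebra S2 K] [IsFractionRing S2 K] [CharZero K]
    [Field L] [Algebra A L] [IsFractionRing A L] [Algebra S2 L] [IsScalarTower S2 A L]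
    [Algebra K L] [IsScalarTower S2 K L] [FiniteDimensional K L]
    (hX : ∀ i, algebraMap S2 A (X i) ∈ IsLocalRing.maximalIdeal A) (r : ℕ)
    (hred : (IsLocalRing.maximalIdeal A) ^ (r + 1) =
      Ideal.span {algebraMap S2 A (X 0), algebraMap S2 A (X 1)} *
        (IsLocalRing.maximalIdeal A) ^ r)
    (z : A) (hz : z ∈ IsLocalRing.maximalIdeal A) :
    ∃ b : L, IsIntegral (Rord K) b ∧ algebraMap A L z = algebraMap S2 L (X 0) * b := by
  have hint : ∀ a : A, IsIntegral (Rord K) (algebraMap A L a) := by
    intro a
    have h1 : IsIntegral S2 a := Algebra.IsIntegral.isIntegral a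
    have h2 : IsIntegral S2 (algebraMap A L a) := h1.algebraMap
    exact h2.tower_top
  let φ : A →+* integralClosure (Rord K) L :=
    (algebraMap A L).codRestrict (integralClosure (Rord K) L) hint
  have hφ : ∀ a, ((φ a : integralClosure (Rord K) L) : L) = algebraMap A L a := fun a => rfl
  have hD : IsDedekindDomain (integralClosure (Rord K) L) := intB_dedekind (Rord K) K L
  have hinjK : Function.Injective (algebraMap S2 L) := by
    rw [IsScalarTower.algebraMap_eq S2 K L]
    exact (algebraMap K L).injective.comp (IsFractionRing.injective S2 K)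
  have hX0 : (X 0 : S2) ≠ 0 := by
    intro h
    have := order_X_eq 0
    rw [h, MvPowerSeries.order_zero] at this
    exact absurd this (by simp)
  have hx0 : φ (algebraMap S2 A (X 0)) ≠ 0 := by
    intro h
    have h1 : algebraMap A L (algebraMap S2 A (X 0)) = 0 := by
      rw [← hφ, h]
      rfl
    rw [← IsScalarTower.algebraMap_apply S2 A L] at h1
    exact hX0 (hinjK (by rw [h1, map_zero]))
  obtain ⟨t, ht⟩ := Rord_t K
  have hy : φ (algebraMap S2 A (X 1)) =
      algebraMap (Rord K) (integralClosure (Rord K) L) t * φ (algebraMap S2 A (X 0)) := by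
    apply Subtype.ext
    change algebraMap A L (algebraMap S2 A (X 1)) =
      algebraMap (Rord K) L t * algebraMap A L (algebraMap S2 A (X 0))
    rw [← IsScalarTower.algebraMap_apply S2 A L, ← IsScalarTower.algebraMap_apply S2 A L,
      IsScalarTower.algebraMap_apply S2 (Rord K) L, IsScalarTower.algebraMap_apply S2 (Rord K) L,
      ht, map_mul]
  obtain ⟨b, hb⟩ := mx_cancel (A := A) (B := integralClosure (Rord K) L) φ
    (IsLocalRing.maximalIdeal A) (algebraMap S2 A (X 0)) (algebraMap S2 A (X 1)) r hred (hX 0)
    (by exact hx0) (algebraMap (Rord K) (integralClosure (Rord K) L) t) (by exact hy) z hz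
  refine ⟨(b : L), b.2, ?_⟩
  have h4 := congrArg (fun u : integralClosure (Rord K) L => (u : L)) hb
  change algebraMap A L z = algebraMap A L (algebraMap S2 A (X 0)) * (b : L) at h4
  rw [h4, ← IsScalarTower.algebraMap_apply S2 A L]

end Pool.Agent.Helper85.RIG
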