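import Mathlib
import Pool.Agent.Helper85.RIG.S2Facts

/-!
# RIG-18 DerR: the logarithmic derivations preserve the order valuation ring

`P 0`, `P 1` extend the partial derivatives of `S2 = C[[x, y]]` to `L`. `D1 = x d_x + y d_y`, `D2 = x d_y` map `Rord K` to
itself: for `f` in `S2`, `D1 f = x pderiv 0 f + y pderiv 1 f` and `D2 f = x pderiv 1 f` are in `S2` and have order at least
`order f` (`order f <= order (pderiv i f) + 1` from `coeff_pderiv`, `MvPowerSeries.le_order`), and for
`r = f / g` in `Rord K`, `order g <= order f`, `D (f / g) = (g D f - f D g) / g^2` is again in `Rord K`. `D1 x = x`, `D2 x = 0`.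
-/

set_option autoImplicit false

namespace Pool.Agent.Helper85.RIG

open MvPowerSeries

private theorem order_le_pderiv (f : S2) (i : Fin 2) :
    f.order ≤ 1 + (pderiv ℂ i f).order := by
  by_cases hg : pderiv ℂ i f = 0
  · rw [hg, MvPowerSeries.order_zero]
    simp
  · obtain ⟨d, hd, hdeg⟩ := MvPowerSeries.exists_coeff_ne_zero_and_order
      (MvPowerSeries.ne_zero_iff_order_finite.1 hg)
    rw [MvPowerSeries.coeff_pderiv] at hd
    have h1 := MvPowerSeries.order_le (left_ne_zero_of_mul hd)
    rw [← hdeg]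
    refine h1.trans ?_
    rw [map_add, Finsupp.degree_single]
    push_cast
    rw [add_comm]

private theorem order_le_X_pderiv (f : S2) (i j : Fin 2) :
    f.order ≤ (X j * pderiv ℂ i f : S2).order := by
  rw [MvPowerSeries.order_mul, order_X_eq]
  exact order_le_pderiv f i

section
variable {K L : Type*} [Field K] [Algebra S2 K] [IsFractionRing S2 K]
  [Field L] [Algebra K L] [Algebra S2 L] [IsScalarTower S2 K L]

/-- The derivation `x d_x + y d_y`. -/
noncomputable def D1 (P : Fin 2 → Derivation ℤ L L) : Derivation ℤ L L :=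
  algebraMap S2 L (X 0) • P 0 + algebraMap S2 L (X 1) • P 1

/-- The derivation `x d_y`. -/
noncomputable def D2 (P : Fin 2 → Derivation ℤ L L) : Derivation ℤ L L :=
  algebraMap S2 L (X 0) • P 1

theorem D1_apply (P : Fin 2 → Derivation ℤ L L) (z : L) :
    D1 P z = algebraMap S2 L (X 0) * P 0 z + algebraMap S2 L (X 1) * P 1 z := rfl

theorem D2_apply (P : Fin 2 → Derivation ℤ L L) (z : L) :
    D2 P z = algebraMap S2 L (X 0) * P 1 z := rfl

private theorem DD_R (D : Derivation ℤ L L) (δ : S2 → S2)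
    (hD : ∀ f : S2, D (algebraMap S2 L f) = algebraMap S2 L (δ f))
    (hδ : ∀ f : S2, f.order ≤ (δ f).order) (r : Rord K) :
    ∃ r' : Rord K, D (algebraMap (Rord K) L r) = algebraMap (Rord K) L r' := by
  obtain ⟨z, hz⟩ := r
  obtain ⟨f, g, hg, ho, h⟩ := id hz
  have hgK : algebraMap S2 K g ≠ 0 := algebraMap_ne K hg
  have hgL : algebraMap S2 L g ≠ 0 := by
    rw [IsScalarTower.algebraMap_apply S2 K L]
    intro h0
    exact hgK ((map_eq_zero (algebraMap K L)).1 h0)
  have hq : (algebraMap S2 K (δ f * g - f * δ g)) / algebraMap S2 K (g * g) ∈ Rord K := by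
    refine ⟨δ f * g - f * δ g, g * g, mul_ne_zero hg hg, ?_, ?_⟩
    · rw [MvPowerSeries.order_mul, sub_eq_add_neg]
      refine le_trans ?_ MvPowerSeries.min_order_le_add
      have e : (-(f * δ g)).order = (f * δ g).order := by
        have e1 : -(f * δ g) = (-1 : S2) * (f * δ g) := by ring
        have e2 : (-1 : S2).order = 0 := by
          have e3 : (-1 : S2) * (-1 : S2) = 1 := by ring
          have e4 := congrArg MvPowerSeries.order e3
          rw [MvPowerSeries.order_mul, order_one_eq] at e4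
          exact (add_eq_zero.1 e4).1
        rw [e1, MvPowerSeries.order_mul, e2, zero_add]
      rw [e, MvPowerSeries.order_mul, MvPowerSeries.order_mul]
      exact le_min (add_le_add (ho.trans (hδ f)) le_rfl) (add_le_add ho (hδ g))
    · rw [div_mul_cancel₀]
      exact algebraMap_ne K (mul_ne_zero hg hg)
  refine ⟨⟨_, hq⟩, ?_⟩
  change D (algebraMap K L z) =
    algebraMap K L (algebraMap S2 K (δ f * g - f * δ g) / algebraMap S2 K (g * g))
  have h1 : algebraMap K L z * algebraMap S2 L g = algebraMap S2 L f := by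
    rw [IsScalarTower.algebraMap_apply S2 K L, IsScalarTower.algebraMap_apply S2 K L f, ← map_mul,
      h]
  have h2 := congrArg D h1
  rw [Derivation.leibniz, hD, hD, smul_eq_mul, smul_eq_mul] at h2
  rw [map_div₀, ← IsScalarTower.algebraMap_apply S2 K L, ← IsScalarTower.algebraMap_apply S2 K L,
    map_sub, map_mul, map_mul, map_mul, eq_div_iff (mul_ne_zero hgL hgL), ← h1, ← h2]
  ring

theorem D1_R (P : Fin 2 → Derivation ℤ L L)
    (hP : ∀ i (f : S2), P i (algebraMap S2 L f) = algebraMap S2 L (pderiv ℂ i f)) (r : Rord K) :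
    ∃ r' : Rord K, D1 P (algebraMap (Rord K) L r) = algebraMap (Rord K) L r' := by
  refine DD_R (D1 P) (fun f => X 0 * pderiv ℂ 0 f + X 1 * pderiv ℂ 1 f) (fun f => ?_)
    (fun f => ?_) r
  · rw [D1_apply, hP, hP, map_add, map_mul, map_mul]
  · exact le_trans (le_min (order_le_X_pderiv f 0 0) (order_le_X_pderiv f 1 1))
      MvPowerSeries.min_order_le_add

theorem D2_R (P : Fin 2 → Derivation ℤ L L)
    (hP : ∀ i (f : S2), P i (algebraMap S2 L f) = algebraMap S2 L (pderiv ℂ i f)) (r : Rord K) :
    ∃ r' : Rord K, D2 P (algebraMap (Rord K) L r) = algebraMap (Rord K) L r' := by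
  refine DD_R (D2 P) (fun f => X 0 * pderiv ℂ 1 f) (fun f => ?_)
    (fun f => order_le_X_pderiv f 1 0) r
  rw [D2_apply, hP, map_mul]

variable (K)

theorem D1_x (P : Fin 2 → Derivation ℤ L L)
    (hP : ∀ i (f : S2), P i (algebraMap S2 L f) = algebraMap S2 L (pderiv ℂ i f)) :
    ∃ r' : Rord K, D1 P (algebraMap (Rord K) L (algebraMap S2 (Rord K) (X 0))) =
      algebraMap (Rord K) L (algebraMap S2 (Rord K) (X 0) * r') := by
  refine ⟨1, ?_⟩
  have h1 : algebraMap (Rord K) L (algebraMap S2 (Rord K) (X 0)) = algebraMap S2 L (X 0) := by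
    rw [IsScalarTower.algebraMap_apply S2 K L]
    rfl
  rw [mul_one, h1, D1_apply, hP, hP, pderiv_X_self, pderiv_X_of_ne (by decide), map_one, map_zero,
    mul_one, mul_zero, add_zero]

theorem D2_x (P : Fin 2 → Derivation ℤ L L)
    (hP : ∀ i (f : S2), P i (algebraMap S2 L f) = algebraMap S2 L (pderiv ℂ i f)) :
    ∃ r' : Rord K, D2 P (algebraMap (Rord K) L (algebraMap S2 (Rord K) (X 0))) =
      algebraMap (Rord K) L (algebraMap S2 (Rord K) (X 0) * r') := by
  refine ⟨0, ?_⟩
  have h1 : algebraMap (Rord K) L (algebraMap S2 (Rord K) (X 0)) = algebraMap S2 L (X 0) := by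
    rw [IsScalarTower.algebraMap_apply S2 K L]
    rfl
  rw [mul_zero, map_zero, h1, D2_apply, hP, pderiv_X_of_ne (by decide), map_zero, mul_zero]

end

end Pool.Agent.Helper85.RIG
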