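import Mathlib
import Pool.Agent.Helper85.RIG.DerR
import Pool.Agent.Helper85.RIG.DerB

/-!
# RIG-19 PInt: the partial derivatives of `x B` are integral (step 4b)

`b` integral over `Rord K`, `z = x b`. Then `d_x z` and `d_y z` are integral over `Rord K`.

Proof. By `der_integral` (with `R = Rord K`, `hQ` from `Rord_natCast`, `Rord_irred`, and `D1_R, D1_x`, `D2_R, D2_x`) the elements
`D1 b` and `D2 b` are integral. `d_y z = d_y(x) b + x d_y b = D2 b` (`P 1 (algebraMap X 0) = algebraMap (pderiv 1 (X 0)) = 0`).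
`d_x z = b + x d_x b = b + D1 b - y d_y b = b + D1 b - t D2 b` with `y = t x`, `t` in `Rord K` (`Rord_t`).
-/

set_option autoImplicit false

namespace Pool.Agent.Helper85.RIG

open MvPowerSeries

theorem p_integral {K L : Type*} [Field K] [Algebra S2 K] [IsFractionRing S2 K] [CharZero K]
    [Field L] [Algebra K L] [Algebra S2 L] [IsScalarTower S2 K L] [FiniteDimensional K L]
    (P : Fin 2 → Derivation ℤ L L)
    (hP : ∀ i (f : S2), P i (algebraMap S2 L f) = algebraMap S2 L (pderiv ℂ i f))
    (b : L) (hb : IsIntegral (Rord K) b) (i : Fin 2) :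
    IsIntegral (Rord K) (P i (algebraMap S2 L (X 0) * b)) := by
  have hD1 : IsIntegral (Rord K) (D1 P b) :=
    der_integral (R := Rord K) (K := K) (L := L) (Rord_natCast K) (D1 P) (D1_R P hP) _
      (Rord_irred K) (D1_x K P hP) b hb
  have hD2 : IsIntegral (Rord K) (D2 P b) :=
    der_integral (R := Rord K) (K := K) (L := L) (Rord_natCast K) (D2 P) (D2_R P hP) _
      (Rord_irred K) (D2_x K P hP) b hb
  have hcomp : ∀ f : S2, algebraMap (Rord K) L (algebraMap S2 (Rord K) f) = algebraMap S2 L f := by
    intro f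
    rw [IsScalarTower.algebraMap_apply S2 K L]
    rfl
  obtain ⟨t, ht⟩ := Rord_t K
  have hy : algebraMap S2 L (X 1) = algebraMap (Rord K) L t * algebraMap S2 L (X 0) := by
    rw [← hcomp, ← hcomp, ht, map_mul]
  have h00 : P 0 (algebraMap S2 L (X 0)) = 1 := by
    rw [hP, Pool.Agent.Helper85.pderiv_X_same, map_one]
  have h10 : P 1 (algebraMap S2 L (X 0)) = 0 := by
    rw [hP, Pool.Agent.Helper85.pderiv_X_ne (by decide), map_zero]
  fin_cases i
  · have h1 : P 0 (algebraMap S2 L (X 0) * b) =
        b + (D1 P b - algebraMap (Rord K) L t * D2 P b) := by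
      rw [(P 0).leibniz, h00, D1_apply, D2_apply, hy]
      simp only [smul_eq_mul]
      ring
    change IsIntegral (Rord K) (P 0 (algebraMap S2 L (X 0) * b))
    rw [h1]
    exact hb.add (hD1.sub (isIntegral_algebraMap.mul hD2))
  · have h1 : P 1 (algebraMap S2 L (X 0) * b) = D2 P b := by
      rw [(P 1).leibniz, h10, D2_apply]
      simp only [smul_eq_mul]
      ring
    change IsIntegral (Rord K) (P 1 (algebraMap S2 L (X 0) * b))
    rw [h1]
    exact hD2

end Pool.Agent.Helper85.RIG
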