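import Mathlib
import Pool.Agent.Helper85.RIG.IntB

/-!
# RIG-11 LamDef: the `B`-module `Lam w = w^-1 tdual(B)` (step 4c)

`AR` is a lattice in `L` which is a ring (closed under multiplication) contained in `B`; `w` in
`tdual AR`, `w <> 0`, with `tdual AR` contained in `B w`. `Lam w = {g : g w in tdual B}`.

* `lam_mul`: `Lam w` is a `B`-module (`mul_mem_tdual_intB`).
* `lam_le`: `Lam w <= AR`: for `g` in `Lam w` and `h` in `tdual AR`, `h = b w` with `b` integral, so
  `Tr(g h) = Tr(g w b)` is in `R`; hence `g` is in `tdual (tdual AR) = AR` (`tdual_tdual`).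
* `lam_idx`: `idx AR (Lam w) + idx (tdual AR) (AR w) = idx B AR`. Multiplication by `w` is an `R`-linear
  automorphism of `L` mapping `AR` to `AR w` and `Lam w` to `tdual B`, so `idx AR (Lam w) = idx (AR w) (tdual B)`
  (`idx_map`). `tdual B <= AR w <= tdual AR` (the second: `Tr(a w a') = Tr(w (a a'))`), so by `idx_trans`
  `idx (tdual AR) (tdual B) = idx (tdual AR) (AR w) + idx (AR w) (tdual B)`, and the left side is `idx B AR` by
  `idx_tdual_tdual` (`B` is spanned by a basis, `exists_basis_intB`).
* `two_idx_le`: `2 idx B AR <= addVal(disc)`: `AR <= B <= tdual B <= tdual AR` (`intB_le_tdual`, `tdual_anti`),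
  `idx (tdual AR) AR = idx (tdual AR) (tdual B) + idx (tdual B) B + idx B AR` and `idx (tdual AR) (tdual B) = idx B AR`;
  the left side is `addVal disc` by `idx_tdual_self`.
-/

set_option autoImplicit false

namespace Pool.Agent.Helper85.RIG

variable {R K L ι : Type*} [CommRing R] [IsDomain R] [IsDiscreteValuationRing R]
  [Field K] [Algebra R K] [IsFractionRing R K] [Field L] [Algebra K L] [Algebra R L]
  [IsScalarTower R K L] [FiniteDimensional K L] [Algebra.IsSeparable K L]
  [Fintype ι] [DecidableEq ι]

/-- `Lam w = {g : g w in tdual B}`. -/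
def Lam (R K : Type*) {L : Type*} [CommRing R] [Field K] [Algebra R K] [Field L] [Algebra K L]
    [Algebra R L] [IsScalarTower R K L] (w : L) : Submodule R L :=
  (tdual R K (intB R L)).comap (LinearMap.mulRight R w)

theorem mem_lam {w g : L} : g ∈ Lam R K w ↔ g * w ∈ tdual R K (intB R L) := Iff.rfl

theorem lam_mul {w g b : L} (hg : g ∈ Lam R K w) (hb : IsIntegral R b) : g * b ∈ Lam R K w := by
  rw [mem_lam] at hg ⊢
  have h : g * b * w = g * w * b := by ring
  rw [h]
  exact mul_mem_tdual_intB hg hb

theorem lam_le (u : Module.Basis ι K L) (w : L)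
    (hw : ∀ h ∈ tdual R K (Submodule.span R (Set.range u)), IsIntegral R (h * w⁻¹))
    (hw0 : w ≠ 0) : Lam R K w ≤ Submodule.span R (Set.range u) := by
  intro g hg
  rw [← tdual_tdual (R := R) u]
  rw [mem_lam] at hg
  intro h hh
  have hb := hw h hh
  have h1 : g * h = g * w * (h * w⁻¹) := by
    field_simp
  rw [h1]
  exact hg _ hb

/-- multiplication by `w` as an automorphism of `L` -/
private noncomputable def mulE (R : Type*) {L : Type*} [CommRing R] [Field L] [Algebra R L] (w : L)
    (hw0 : w ≠ 0) : L ≃ₗ[R] L :=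
  LinearEquiv.ofLinear (LinearMap.mulRight R w) (LinearMap.mulRight R w⁻¹)
    (by
      ext z
      simp [mul_assoc, inv_mul_cancel₀ hw0])
    (by
      ext z
      simp [mul_assoc, mul_inv_cancel₀ hw0])

private theorem mulE_toLin (R : Type*) {L : Type*} [CommRing R] [Field L] [Algebra R L] (w : L)
    (hw0 : w ≠ 0) : (mulE R w hw0).toLinearMap = LinearMap.mulRight R w := rfl

private theorem lam_map (w : L) (hw0 : w ≠ 0) :
    (Lam R K w).map (mulE R w hw0).toLinearMap = tdual R K (intB R L) := by
  rw [mulE_toLin]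
  unfold Lam
  apply Submodule.map_comap_eq_of_surjective
  intro z
  exact ⟨z * w⁻¹, by rw [LinearMap.mulRight_apply, mul_assoc, inv_mul_cancel₀ hw0, mul_one]⟩

theorem lam_idx (u : Module.Basis ι K L) (w : L)
    (hB : Submodule.span R (Set.range u) ≤ intB R L)
    (hmul : ∀ a ∈ Submodule.span R (Set.range u), ∀ b ∈ Submodule.span R (Set.range u),
      a * b ∈ Submodule.span R (Set.range u))
    (hwT : w ∈ tdual R K (Submodule.span R (Set.range u))) (hw0 : w ≠ 0)
    (hw : ∀ h ∈ tdual R K (Submodule.span R (Set.range u)), IsIntegral R (h * w⁻¹)) :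
    idx (Submodule.span R (Set.range u)) (Lam R K w) +
      idx (tdual R K (Submodule.span R (Set.range u)))
        ((Submodule.span R (Set.range u)).map (LinearMap.mulRight R w)) =
      idx (intB R L) (Submodule.span R (Set.range u)) := by
  obtain ⟨v, hv⟩ := exists_basis_intB (R := R) u
  have hle : Lam R K w ≤ Submodule.span R (Set.range u) := lam_le u w hw hw0
  have h1 : idx (Submodule.span R (Set.range u)) (Lam R K w) =
      idx ((Submodule.span R (Set.range u)).map (LinearMap.mulRight R w))
        (tdual R K (intB R L)) := by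
    rw [← idx_map (mulE R w hw0), lam_map w hw0, mulE_toLin]
  have h2 : tdual R K (intB R L) ≤
      (Submodule.span R (Set.range u)).map (LinearMap.mulRight R w) := by
    rw [← lam_map (R := R) (K := K) w hw0, mulE_toLin]
    exact Submodule.map_mono hle
  have h3 : (Submodule.span R (Set.range u)).map (LinearMap.mulRight R w) ≤
      tdual R K (Submodule.span R (Set.range u)) := by
    rintro z ⟨a, ha, rfl⟩
    intro a' ha'
    rw [LinearMap.mulRight_apply]
    have h4 : a * w * a' = w * (a * a') := by ring
    rw [h4]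
    exact hwT _ (hmul a ha a' ha')
  have h4 := idx_trans h2 h3
  have h5 : idx (tdual R K (Submodule.span R (Set.range u))) (tdual R K (intB R L)) =
      idx (intB R L) (Submodule.span R (Set.range u)) := by
    rw [hv]
    apply idx_tdual_tdual
    rw [← hv]
    exact hB
  rw [h1, add_comm, ← h4, h5]

theorem two_idx_le (u : Module.Basis ι K L)
    (hB : Submodule.span R (Set.range u) ≤ intB R L)
    (δ : R) (hδ : algebraMap R K δ = Algebra.discr K u) :
    2 * idx (intB R L) (Submodule.span R (Set.range u)) ≤ IsDiscreteValuationRing.addVal R δ := by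
  obtain ⟨v, hv⟩ := exists_basis_intB (R := R) u
  have h1 : intB R L ≤ tdual R K (intB R L) := intB_le_tdual R K L
  have h2 : tdual R K (intB R L) ≤ tdual R K (Submodule.span R (Set.range u)) := tdual_anti hB
  have h3 : idx (tdual R K (Submodule.span R (Set.range u))) (tdual R K (intB R L)) =
      idx (intB R L) (Submodule.span R (Set.range u)) := by
    rw [hv]
    apply idx_tdual_tdual
    rw [← hv]
    exact hB
  rw [← idx_tdual_self u (hB.trans (h1.trans h2)) δ hδ, idx_trans (hB.trans h1) h2, h3,
    idx_trans hB h1, two_mul]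
  gcongr
  exact le_add_self

theorem idx_intB_ne_top (u : Module.Basis ι K L)
    (hB : Submodule.span R (Set.range u) ≤ intB R L) :
    idx (intB R L) (Submodule.span R (Set.range u)) ≠ ⊤ := by
  obtain ⟨v, hv⟩ := exists_basis_intB (R := R) u
  rw [hv]
  apply idx_ne_top (K := K)
  rw [← hv]
  exact hB

/-- The criterion of step 4e. -/
theorem lam_crit (AR : Submodule R L) (w : L) (hw0 : w ≠ 0)
    (hARw : tdual R K AR ≤ AR.map (LinearMap.mulRight R w)) (x : R) (hx : x ≠ 0)
    (hres : ∀ a ∈ AR, ∃ r : R, ∃ b : L, IsIntegral R b ∧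
      a = algebraMap R L r + algebraMap R L x * b)
    (g : L) (hg : g ∈ Lam R K w)
    (hgx : ∃ r : R, Algebra.trace K L (g * w) = algebraMap R K (x * r)) :
    ∃ a ∈ AR, g = x • a := by
  have hxK : algebraMap R K x ≠ 0 := by
    intro h
    exact hx ((IsFractionRing.injective R K) (by rw [h, map_zero]))
  have hxL : algebraMap R L x ≠ 0 := by
    rw [IsScalarTower.algebraMap_apply R K L]
    intro h
    exact hxK ((algebraMap K L).injective (by rw [h, map_zero]))
  have h1 : (algebraMap R L x)⁻¹ * (g * w) ∈ tdual R K AR := by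
    intro a ha
    obtain ⟨r, b, hb, hab⟩ := hres a ha
    obtain ⟨r', hr'⟩ := hgx
    obtain ⟨r'', hr''⟩ := (mem_lam.1 hg) b hb
    have h2 : (algebraMap R L x)⁻¹ * (g * w) * a =
        ((algebraMap R K x)⁻¹ * algebraMap R K r) • (g * w) + g * w * b := by
      rw [Algebra.smul_def, map_mul, map_inv₀, ← IsScalarTower.algebraMap_apply R K L,
        ← IsScalarTower.algebraMap_apply R K L, hab]
      field_simp
    rw [h2, map_add, map_smul, hr', ← hr'', smul_eq_mul, map_mul]
    refine ⟨r * r' + r'', ?_⟩
    rw [map_add, map_mul]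
    field_simp
  obtain ⟨a, ha, haw⟩ := hARw h1
  refine ⟨a, ha, ?_⟩
  rw [LinearMap.mulRight_apply] at haw
  rw [Algebra.smul_def]
  apply mul_right_cancel₀ hw0
  rw [mul_assoc, haw, mul_inv_cancel_left₀ hxL]

end Pool.Agent.Helper85.RIG
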