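import Mathlib
import Pool.Agent.Helper85.RIG.LamDef

/-!
# RIG-12 UpDef: the lattice of derivations at `R` and its index (steps 4d, 4e)

`AR` = `R`-span of a `K`-basis `u` of `L` (indexed by `iota`), `p i`, `q i` integral over `R`
(in the application `p i = d_x u_i`, `q i = d_y u_i`). `VR` is the set of the pairs `(a, b)` with `a`, `b`
and all `a p_i + b q_i` in `AR`.

* `up1`: `Lam x Lam <= VR <= AR x AR` (`lam_mul`, `lam_le`), so `idx (AR x AR) VR <= idx (AR x AR) (Lam x Lam) =
  2 idx AR Lam`.
* `up2`: assume `tdual AR <= AR w`, the hypotheses of `lam_crit`, and `p i0 = q i0 = 0` for one index `i0`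
  (`u_i0 = 1`). Let `V'' <= Lam x Lam` be the kernel of the `R`-linear map
  `Lam x Lam -> (R / x)^2 x (R / x)^{iota - i0}`, `(a, b) -> (Tr(a w), Tr(b w), Tr((a p_i + b q_i) w)_{i <> i0})` modulo `x`
  (the traces are in `R` because the elements are in `Lam` and `1` is integral). By `idx_le_length`
  `idx (Lam x Lam) V'' <= card iota + 1` (`R / x` has length `1`). By `lam_crit` `V'' <= x VR`
  (`a = x a'`, `b = x b'`, `a p_i + b q_i = x c_i` with `a', b', c_i` in `AR`; for `i0` the element is `0`). So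
  `idx (AR x AR) (x VR) <= idx (AR x AR) V'' = idx (AR x AR) (Lam x Lam) + idx (Lam x Lam) V'' <= 2 idx AR Lam + card iota + 1`,
  and `idx (AR x AR) (x VR) = idx (AR x AR) (x (AR x AR)) + idx (x (AR x AR)) (x VR) = 2 card iota + idx (AR x AR) VR`
  (`idx_map` with multiplication by `x`, an automorphism of `L x L`; `idx_span_det` for the diagonal matrix `x`, or
  `AR` is free of rank `card iota`).
* `rside`: with `beta = idx B AR`, `e = idx AR Lam`, `f = idx (tdual AR) (AR w)`, `e + f = beta` finite:
  `2 beta <= idx (AR x AR) VR <= 2 e` gives `f = 0`, so `tdual AR <= AR w` (`le_of_idx_eq_zero`), `e = beta`, and `up2` gives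
  `2 beta + 2 d <= 2 beta + d + 1`, so `d = card iota <= 1`. `w` exists by `exists_gen` for `T = tdual AR`
  (finitely generated: `exists_basis_tdual`, nonzero).
-/

set_option autoImplicit false

namespace Pool.Agent.Helper85.RIG

variable {R K L ι : Type*} [CommRing R] [IsDomain R] [IsDiscreteValuationRing R]
  [Field K] [Algebra R K] [IsFractionRing R K] [Field L] [Algebra K L] [Algebra R L]
  [IsScalarTower R K L] [FiniteDimensional K L] [Algebra.IsSeparable K L]
  [Fintype ι] [DecidableEq ι]

/-- The pairs `(a, b)` in `AR x AR` with all `a p_i + b q_i` in `AR`. -/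
def VR (AR : Submodule R L) (p q : ι → L) : Submodule R (L × L) where
  carrier := {z | z.1 ∈ AR ∧ z.2 ∈ AR ∧ ∀ i, z.1 * p i + z.2 * q i ∈ AR}
  add_mem' := by
    rintro z z' ⟨h1, h2, h3⟩ ⟨h1', h2', h3'⟩
    refine ⟨add_mem h1 h1', add_mem h2 h2', fun i => ?_⟩
    have h : (z + z').1 * p i + (z + z').2 * q i =
        (z.1 * p i + z.2 * q i) + (z'.1 * p i + z'.2 * q i) := by
      simp only [Prod.fst_add, Prod.snd_add]; ring
    rw [h]; exact add_mem (h3 i) (h3' i)
  zero_mem' := by
    refine ⟨AR.zero_mem, AR.zero_mem, fun i => ?_⟩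
    simp
  smul_mem' := by
    rintro r z ⟨h1, h2, h3⟩
    refine ⟨AR.smul_mem r h1, AR.smul_mem r h2, fun i => ?_⟩
    have h : (r • z).1 * p i + (r • z).2 * q i = r • (z.1 * p i + z.2 * q i) := by
      simp only [Prod.smul_fst, Prod.smul_snd, smul_mul_assoc, smul_add]
    rw [h]; exact AR.smul_mem r (h3 i)

theorem mem_VR {AR : Submodule R L} {p q : ι → L} {z : L × L} :
    z ∈ VR AR p q ↔ z.1 ∈ AR ∧ z.2 ∈ AR ∧ ∀ i, z.1 * p i + z.2 * q i ∈ AR := Iff.rfl

theorem VR_le (AR : Submodule R L) (p q : ι → L) : VR AR p q ≤ AR.prod AR :=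
  fun _ h => ⟨h.1, h.2.1⟩

theorem up1 (AR : Submodule R L) (p q : ι → L) (hp : ∀ i, IsIntegral R (p i))
    (hq : ∀ i, IsIntegral R (q i)) (w : L) (hle : Lam R K w ≤ AR) :
    idx (AR.prod AR) (VR AR p q) ≤ 2 * idx AR (Lam R K w) := by
  have h1 : (Lam R K w).prod (Lam R K w) ≤ VR AR p q := by
    rintro ⟨a, b⟩ ⟨ha, hb⟩
    exact ⟨hle ha, hle hb, fun i => hle (add_mem (lam_mul ha (hp i)) (lam_mul hb (hq i)))⟩
  rw [two_mul, ← idx_prod hle hle]
  exact idx_anti _ h1

/-- multiplication by a nonzero `w` as an automorphism of `L` -/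
private noncomputable def mulU (R : Type*) {L : Type*} [CommRing R] [Field L] [Algebra R L] (w : L)
    (hw0 : w ≠ 0) : L ≃ₗ[R] L :=
  LinearEquiv.ofLinear (LinearMap.mulRight R w) (LinearMap.mulRight R w⁻¹)
    (by
      ext z
      simp [mul_assoc, inv_mul_cancel₀ hw0])
    (by
      ext z
      simp [mul_assoc, mul_inv_cancel₀ hw0])

private theorem mulU_apply (R : Type*) {L : Type*} [CommRing R] [Field L] [Algebra R L] (w : L)
    (hw0 : w ≠ 0) (z : L) : mulU R w hw0 z = z * w := rfl

private theorem traceR_ex (w : L) (g : Lam R K w) :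
    ∃ r : R, algebraMap R K r = Algebra.trace K L ((g : L) * w) := by
  have h1 := (mem_lam.1 g.2) 1 isIntegral_one
  rw [mul_one] at h1
  exact h1

/-- the trace of `g w` as an element of `R` -/
private noncomputable def traceF (w : L) (g : Lam R K w) : R := Classical.choose (traceR_ex w g)

private theorem traceF_spec (w : L) (g : Lam R K w) :
    algebraMap R K (traceF w g) = Algebra.trace K L ((g : L) * w) :=
  Classical.choose_spec (traceR_ex w g)

/-- the trace of `g w` as an element of `R` -/
private noncomputable def traceR (w : L) : Lam R K w →ₗ[R] R where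
  toFun g := traceF w g
  map_add' := by
    intro g h
    apply IsFractionRing.injective R K
    rw [map_add, traceF_spec, traceF_spec, traceF_spec, ← map_add, Submodule.coe_add, add_mul]
  map_smul' := by
    intro r g
    apply IsFractionRing.injective R K
    rw [RingHom.id_apply, smul_eq_mul, map_mul, traceF_spec, traceF_spec, Submodule.coe_smul,
      smul_mul_assoc, ← algebraMap_smul K r ((g : L) * w), map_smul, smul_eq_mul]

private theorem traceR_spec (w : L) (g : Lam R K w) :
    algebraMap R K (traceR w g) = Algebra.trace K L ((g : L) * w) :=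
  traceF_spec w g

/-- `(a, b) ↦ a c + b d` on `Lam x Lam` -/
private noncomputable def comb (w c d : L) (hc : IsIntegral R c) (hd : IsIntegral R d) :
    ((Lam R K w).prod (Lam R K w) : Submodule R (L × L)) →ₗ[R] Lam R K w :=
  LinearMap.codRestrict (Lam R K w)
    (((LinearMap.mulRight R c).comp (LinearMap.fst R L L) +
      (LinearMap.mulRight R d).comp (LinearMap.snd R L L)).comp
      ((Lam R K w).prod (Lam R K w)).subtype)
    (by
      rintro ⟨⟨a, b⟩, ha, hb⟩
      exact add_mem (lam_mul ha hc) (lam_mul hb hd))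

private theorem comb_apply (w c d : L) (hc : IsIntegral R c) (hd : IsIntegral R d)
    (z : ((Lam R K w).prod (Lam R K w) : Submodule R (L × L))) :
    ((comb (K := K) w c d hc hd z : Lam R K w) : L) = (z : L × L).1 * c + (z : L × L).2 * d := rfl

/-- the map of the header -/
private noncomputable def bigF (w x : L) (y : R) (i₀ : ι) (p q : ι → L)
    (hp : ∀ i, IsIntegral R (p i)) (hq : ∀ i, IsIntegral R (q i)) :
    ((Lam R K w).prod (Lam R K w) : Submodule R (L × L)) →ₗ[R]
      (((R ⧸ Ideal.span {y}) × (R ⧸ Ideal.span {y})) × ({i : ι // i ≠ i₀} → R ⧸ Ideal.span {y})) :=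
  LinearMap.prod
    (LinearMap.prod
      ((Submodule.mkQ (Ideal.span {y})).comp
        ((traceR w).comp (comb w 1 0 isIntegral_one isIntegral_zero)))
      ((Submodule.mkQ (Ideal.span {y})).comp
        ((traceR w).comp (comb w 0 1 isIntegral_zero isIntegral_one))))
    (LinearMap.pi fun i => (Submodule.mkQ (Ideal.span {y})).comp
        ((traceR w).comp (comb w (p i) (q i) (hp i) (hq i))))

private theorem length_quot (x : R) (hx : Irreducible x) :
    Module.length R (R ⧸ Ideal.span {x}) = 1 := by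
  have h1 : (Ideal.span {x}).IsMaximal := by
    rw [← (IsDiscreteValuationRing.irreducible_iff_uniformizer x).1 hx]
    exact IsLocalRing.maximalIdeal.isMaximal R
  rw [Module.length_eq_one_iff, isSimpleModule_iff_isCoatom]
  exact h1.out

private theorem card_ne (i₀ : ι) : Fintype.card ι = Fintype.card {i : ι // i ≠ i₀} + 1 := by
  have h1 : Fintype.card {i : ι // i ≠ i₀} = Fintype.card ι - 1 := by
    rw [Fintype.card_subtype, Finset.filter_ne', Finset.card_erase_of_mem (Finset.mem_univ _),
      Finset.card_univ]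
  have h2 : 0 < Fintype.card ι := Fintype.card_pos_iff.2 ⟨i₀⟩
  omega

private theorem idx_mul (u : Module.Basis ι K L) (x : R) (hx : Irreducible x)
    (hxL : algebraMap R L x ≠ 0) :
    idx (Submodule.span R (Set.range u))
      ((Submodule.span R (Set.range u)).map (mulU R (algebraMap R L x) hxL).toLinearMap) =
      (Fintype.card ι : ℕ∞) := by
  have hli : LinearIndependent R u := by
    refine LinearIndependent.restrict_scalars (K := K) ?_ u.linearIndependent
    intro r s hrs
    apply IsFractionRing.injective R K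
    simpa [Algebra.smul_def] using hrs
  have hdet : (Matrix.diagonal (fun _ : ι => x)).det = x ^ Fintype.card ι := by
    rw [Matrix.det_diagonal, Finset.prod_const, Finset.card_univ]
  have h1 := idx_span_det (R := R) (u : ι → L) hli (Matrix.diagonal (fun _ => x)) (by
    rw [hdet]
    exact pow_ne_zero _ hx.ne_zero)
  rw [hdet, hx.addVal_pow] at h1
  rw [← h1]
  congr 1
  rw [Submodule.map_span, ← Set.range_comp]
  congr 1
  apply congrArg Set.range
  funext i
  rw [Finset.sum_eq_single i]
  · rw [Matrix.diagonal_apply_eq, Algebra.smul_def, mul_comm]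
    rfl
  · intro j _ hj
    rw [Matrix.diagonal_apply_ne _ (Ne.symm hj), zero_smul]
  · intro h
    exact absurd (Finset.mem_univ i) h

theorem up2 (u : Module.Basis ι K L) (p q : ι → L) (hp : ∀ i, IsIntegral R (p i))
    (hq : ∀ i, IsIntegral R (q i)) (i₀ : ι) (hp0 : p i₀ = 0) (hq0 : q i₀ = 0)
    (w : L) (hw0 : w ≠ 0) (hle : Lam R K w ≤ Submodule.span R (Set.range u))
    (hARw : tdual R K (Submodule.span R (Set.range u)) ≤
      (Submodule.span R (Set.range u)).map (LinearMap.mulRight R w))
    (x : R) (hx : Irreducible x)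
    (hres : ∀ a ∈ Submodule.span R (Set.range u), ∃ r : R, ∃ b : L, IsIntegral R b ∧
      a = algebraMap R L r + algebraMap R L x * b) :
    idx ((Submodule.span R (Set.range u)).prod (Submodule.span R (Set.range u)))
        (VR (Submodule.span R (Set.range u)) p q) + 2 * (Fintype.card ι : ℕ∞) ≤
      2 * idx (Submodule.span R (Set.range u)) (Lam R K w) + (Fintype.card ι : ℕ∞) + 1 := by
  obtain ⟨AR, hAR⟩ : ∃ AR, AR = Submodule.span R (Set.range u) := ⟨_, rfl⟩
  have hxK : algebraMap R K x ≠ 0 := by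
    intro h
    exact hx.ne_zero ((IsFractionRing.injective R K) (by rw [h, map_zero]))
  have hxL : algebraMap R L x ≠ 0 := by
    rw [IsScalarTower.algebraMap_apply R K L]
    intro h
    exact hxK ((algebraMap K L).injective (by rw [h, map_zero]))
  have hidx := idx_mul u x hx hxL
  rw [← hAR] at hle hARw hres hidx ⊢
  have hcrit := lam_crit AR w hw0 hARw x hx.ne_zero hres
  obtain ⟨E, hE⟩ : ∃ E, E = mulU R (algebraMap R L x) hxL := ⟨_, rfl⟩
  rw [← hE] at hidx
  have hEa : ∀ z, E z = x • z := by
    intro z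
    rw [hE, mulU_apply, Algebra.smul_def, mul_comm]
  obtain ⟨e, he⟩ : ∃ e, e = LinearEquiv.prodCongr E E := ⟨_, rfl⟩
  have hea : ∀ z : L × L, e z = (x • z.1, x • z.2) := by
    intro z
    rw [he, ← hEa, ← hEa]
    rfl
  have hPe : (AR.prod AR).map e.toLinearMap = (AR.map E.toLinearMap).prod (AR.map E.toLinearMap) := by
    ext z
    constructor
    · rintro ⟨⟨a, b⟩, ⟨ha, hb⟩, rfl⟩
      rw [LinearEquiv.coe_coe, hea]
      exact ⟨⟨a, ha, hEa a⟩, ⟨b, hb, hEa b⟩⟩
    · rintro ⟨⟨a, ha, ha'⟩, ⟨b, hb, hb'⟩⟩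
      refine ⟨(a, b), ⟨ha, hb⟩, ?_⟩
      rw [LinearEquiv.coe_coe, hea]
      rw [LinearEquiv.coe_coe, hEa] at ha' hb'
      exact Prod.ext ha' hb'
  have hAE : AR.map E.toLinearMap ≤ AR := by
    rintro z ⟨a, ha, rfl⟩
    rw [LinearEquiv.coe_coe, hEa]
    exact AR.smul_mem x ha
  have hPP : (AR.prod AR).map e.toLinearMap ≤ AR.prod AR := by
    rw [hPe]
    exact Submodule.prod_mono hAE hAE
  have h1 : idx (AR.prod AR) ((AR.prod AR).map e.toLinearMap) = 2 * (Fintype.card ι : ℕ∞) := by
    rw [hPe, idx_prod hAE hAE, hidx, two_mul]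
  have h2 : idx (AR.prod AR) ((VR AR p q).map e.toLinearMap) =
      2 * (Fintype.card ι : ℕ∞) + idx (AR.prod AR) (VR AR p q) := by
    rw [idx_trans (Submodule.map_mono (VR_le AR p q)) hPP, h1, idx_map e]
  -- the map
  have hker : ∀ z : ((Lam R K w).prod (Lam R K w) : Submodule R (L × L)),
      bigF (K := K) w (0 : L) x i₀ p q hp hq z = 0 →
      (z : L × L) ∈ (Lam R K w).prod (Lam R K w) ⊓ (VR AR p q).map e.toLinearMap := by
    intro z hz
    refine ⟨z.2, ?_⟩
    have hmk : ∀ r : R, Submodule.mkQ (Ideal.span {x}) r = 0 → ∃ r' : R, r = x * r' := by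
      intro r hr
      rw [Submodule.mkQ_apply, Submodule.Quotient.mk_eq_zero, Ideal.mem_span_singleton] at hr
      exact hr
    have hgen : ∀ (c d : L) (hc : IsIntegral R c) (hd : IsIntegral R d),
        Submodule.mkQ (Ideal.span {x}) (traceR w (comb w c d hc hd z)) = 0 →
        ∃ a ∈ AR, (z : L × L).1 * c + (z : L × L).2 * d = x • a := by
      intro c d hc hd h0
      obtain ⟨r', hr'⟩ := hmk _ h0
      refine hcrit _ (comb w c d hc hd z).2 ⟨r', ?_⟩
      rw [← hr', traceR_spec, comb_apply]
    have hz1 := congrArg (fun t => t.1.1) hz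
    have hz2 := congrArg (fun t => t.1.2) hz
    have hz3 := congrArg (fun t => t.2) hz
    obtain ⟨a, ha, haz⟩ := hgen 1 0 isIntegral_one isIntegral_zero hz1
    obtain ⟨b, hb, hbz⟩ := hgen 0 1 isIntegral_zero isIntegral_one hz2
    rw [mul_one, mul_zero, add_zero] at haz
    rw [mul_one, mul_zero, zero_add] at hbz
    refine ⟨(a, b), ⟨ha, hb, fun i => ?_⟩, ?_⟩
    · by_cases hi : i = i₀
      · rw [hi, hp0, hq0]
        simp
      · obtain ⟨c, hc, hcz⟩ := hgen (p i) (q i) (hp i) (hq i) (congrFun hz3 ⟨i, hi⟩)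
        rw [haz, hbz] at hcz
        have h5 : x • (a * p i + b * q i) = x • c := by
          rw [← hcz, smul_add, smul_mul_assoc, smul_mul_assoc]
        have h6 : a * p i + b * q i = c := by
          rw [Algebra.smul_def, Algebra.smul_def] at h5
          exact mul_left_cancel₀ hxL h5
        change a * p i + b * q i ∈ AR
        rw [h6]
        exact hc
    · rw [LinearEquiv.coe_coe, hea]
      exact Prod.ext haz.symm hbz.symm
  have h3 := idx_le_length (bigF (K := K) w (0 : L) x i₀ p q hp hq) hker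
  have hW : Module.length R (((R ⧸ Ideal.span {x}) × (R ⧸ Ideal.span {x})) ×
      ({i : ι // i ≠ i₀} → R ⧸ Ideal.span {x})) = (Fintype.card ι : ℕ∞) + 1 := by
    rw [Module.length_prod, Module.length_prod, Module.length_pi, length_quot x hx, mul_one,
      ENat.card_eq_coe_fintype_card, card_ne i₀]
    push_cast
    ring
  rw [hW] at h3
  have h4 : idx (AR.prod AR) ((VR AR p q).map e.toLinearMap) ≤
      2 * idx AR (Lam R K w) + ((Fintype.card ι : ℕ∞) + 1) := by
    refine (idx_anti (AR.prod AR) (inf_le_right :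
      (Lam R K w).prod (Lam R K w) ⊓ (VR AR p q).map e.toLinearMap ≤ _)).trans ?_
    rw [idx_trans (inf_le_left : (Lam R K w).prod (Lam R K w) ⊓ (VR AR p q).map e.toLinearMap ≤ _)
      (Submodule.prod_mono hle hle), idx_prod hle hle, two_mul]
    gcongr
  rw [h2] at h4
  rw [add_comm, add_assoc]
  exact h4

end Pool.Agent.Helper85.RIG
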