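import Mathlib
import Pool.Agent.Helper85.RIG.UpDef
import Pool.Agent.Helper85.RIG.Gen

/-!
# RIG-13 RSide: the local contradiction at `R` (step 5)

See the header of `UpDef`. `w` exists by `exists_gen` for `T = tdual AR` (finitely generated and nonzero by
`exists_basis_tdual`; `iota` is nonempty because of `i0`). `lam_le`, `lam_idx`, `idx_intB_ne_top`, `up1`, `up2`,
`le_of_idx_eq_zero`; arithmetic in `ENat` (all quantities are finite: lift to natural numbers, `omega`).
-/

set_option autoImplicit false

namespace Pool.Agent.Helper85.RIG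

theorem rside {R K L ι : Type*} [CommRing R] [IsDomain R] [IsDiscreteValuationRing R]
    [Algebra ℂ R]
    [Field K] [Algebra R K] [IsFractionRing R K] [Field L] [Algebra K L] [Algebra R L]
    [IsScalarTower R K L] [FiniteDimensional K L] [Algebra.IsSeparable K L]
    [Fintype ι] [DecidableEq ι]
    (u : Module.Basis ι K L) (p q : ι → L) (hp : ∀ i, IsIntegral R (p i))
    (hq : ∀ i, IsIntegral R (q i)) (i₀ : ι) (hp0 : p i₀ = 0) (hq0 : q i₀ = 0)
    (hB : Submodule.span R (Set.range u) ≤ intB R L)
    (hmul : ∀ a ∈ Submodule.span R (Set.range u), ∀ b ∈ Submodule.span R (Set.range u),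
      a * b ∈ Submodule.span R (Set.range u))
    (x : R) (hx : Irreducible x)
    (hres : ∀ a ∈ Submodule.span R (Set.range u), ∃ r : R, ∃ b : L, IsIntegral R b ∧
      a = algebraMap R L r + algebraMap R L x * b)
    (hbig : 2 * idx (intB R L) (Submodule.span R (Set.range u)) ≤
      idx ((Submodule.span R (Set.range u)).prod (Submodule.span R (Set.range u)))
        (VR (Submodule.span R (Set.range u)) p q)) :
    Fintype.card ι ≤ 1 := by
  obtain ⟨u', hu'⟩ := exists_basis_tdual (R := R) u
  have hTfg : (tdual R K (Submodule.span R (Set.range u))).FG := by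
    rw [hu']
    exact Submodule.fg_span (Set.finite_range u')
  have hTne : tdual R K (Submodule.span R (Set.range u)) ≠ ⊥ := by
    intro h
    have h1 : u' i₀ ∈ tdual R K (Submodule.span R (Set.range u)) := by
      rw [hu']
      exact Submodule.subset_span ⟨i₀, rfl⟩
    rw [h, Submodule.mem_bot] at h1
    exact u'.ne_zero i₀ h1
  obtain ⟨w, hwT, hw0, hw⟩ := exists_gen (K := K) _ hTfg hTne
  have hle := lam_le u w hw hw0
  have hidx := lam_idx u w hB hmul hwT hw0 hw
  have hfin := idx_intB_ne_top (K := K) u hB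
  have hu1 := up1 (K := K) _ p q hp hq w hle
  have hu2 := up2 u p q hp hq i₀ hp0 hq0 w hw0 hle
  obtain ⟨β, hβ⟩ := ENat.ne_top_iff_exists.1 hfin
  have he : idx (Submodule.span R (Set.range u)) (Lam R K w) ≠ ⊤ := by
    intro h
    rw [h, top_add] at hidx
    exact hfin hidx.symm
  have hf : idx (tdual R K (Submodule.span R (Set.range u)))
      ((Submodule.span R (Set.range u)).map (LinearMap.mulRight R w)) ≠ ⊤ := by
    intro h
    rw [h, add_top] at hidx
    exact hfin hidx.symm
  obtain ⟨e, he⟩ := ENat.ne_top_iff_exists.1 he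
  obtain ⟨f, hf⟩ := ENat.ne_top_iff_exists.1 hf
  have h2 := hbig.trans hu1
  rw [← hβ, ← he] at h2
  rw [← hβ, ← he, ← hf] at hidx
  have h3 : 2 * β ≤ 2 * e := by exact_mod_cast h2
  have h4 : e + f = β := by exact_mod_cast hidx
  have hf0 : f = 0 := by omega
  have hARw : tdual R K (Submodule.span R (Set.range u)) ≤
      (Submodule.span R (Set.range u)).map (LinearMap.mulRight R w) := by
    apply le_of_idx_eq_zero
    rw [← hf, hf0]
    rfl
  have h5 := hu2 hARw x hx hres
  have h6 : 2 * (β : ℕ∞) + 2 * (Fintype.card ι : ℕ∞) ≤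
      2 * (e : ℕ∞) + (Fintype.card ι : ℕ∞) + 1 := by
    rw [hβ, he]
    exact (add_le_add hbig le_rfl).trans h5
  have h7 : 2 * β + 2 * Fintype.card ι ≤ 2 * e + Fintype.card ι + 1 := by exact_mod_cast h6
  omega

end Pool.Agent.Helper85.RIG
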