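import Mathlib
import Pool.Agent.Helper85.RIG.VADef
import Pool.Agent.Helper85.RigidLift

/-!
# RIG-29 DerBridge: derivations of `A` and the submodule `VA A P`

* `der_S2`: for a derivation `D` of `A` over the complex numbers and `f` in `S2`, `D f = D(x) pderiv 0 f + D(y) pderiv 1 f`: the
  difference is a derivation `S2 -> A` killing the variables; `A` is a finite `S2`-module; apply
  `Pool.Agent.Helper85.derivation_eq_zero`.
* `der_eq`: `D a = D(x) P_0 a + D(y) P_1 a` in `L`. The difference `E : A -> L` of the two sides is additive, satisfies the Leibniz rule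
  and vanishes on `S2`. `a` is integral over `S2`: let `g` be a nonzero polynomial over `S2` of minimal degree with `g(a) = 0`
  (`minpoly`); its derivative is nonzero of smaller degree (characteristic zero), so `g'(a) <> 0`, and
  `0 = E(g(a)) = g'(a) E(a)`, so `E(a) = 0`.
* `exists_der`: for `z` in `VA A P` choose `D a` with `algebraMap A L (D a) = z.1 P_0 a + z.2 P_1 a`; additivity, Leibniz rule and
  linearity over the complex numbers (`P i` kills the constants: `P i (algebraMap S2 L (C c)) = 0`) follow from the injectivity of `algebraMap A L`.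
-/

set_option autoImplicit false

namespace Pool.Agent.Helper85.RIG

open MvPowerSeries

private theorem der_alg_zero {R A L : Type*} [CommRing R] [IsDomain R] [CharZero R] [CommRing A]
    [Algebra R A] [Field L] [Algebra A L] [FaithfulSMul A L] [Algebra R L] [FaithfulSMul R A]
    (E : Derivation R A L) (a : A) : ∀ (n : ℕ) (p : Polynomial R), p ≠ 0 → p.natDegree = n →
      Polynomial.aeval a p = 0 → E a = 0 := by
  intro n
  induction n using Nat.strong_induction_on with
  | _ n ih =>
    intro p hp hn hpa
    have hn0 : p.natDegree ≠ 0 := by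
      intro h0
      obtain ⟨c, hc⟩ := Polynomial.natDegree_eq_zero.1 h0
      rw [← hc, Polynomial.aeval_C] at hpa
      have hc0 : c = 0 := (FaithfulSMul.algebraMap_injective R A) (by rw [hpa, map_zero])
      rw [hc0, Polynomial.C_0] at hc
      exact hp hc.symm
    by_cases hd : Polynomial.aeval a (Polynomial.derivative p) = 0
    · refine ih _ ?_ (Polynomial.derivative p) ?_ rfl hd
      · rw [← hn]
        exact Polynomial.natDegree_derivative_lt hn0
      · intro h0
        exact hn0 (Polynomial.derivative_eq_zero.1 h0)
    · have h1 := E.map_aeval p a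
      rw [hpa, map_zero, Algebra.smul_def] at h1
      rcases mul_eq_zero.1 h1.symm with h2 | h2
      · exact absurd ((FaithfulSMul.algebraMap_injective A L) (by rw [h2, map_zero])) hd
      · exact h2

section
variable {A L : Type*} [CommRing A] [IsDomain A] [Algebra ℂ A] [Algebra S2 A]
  [IsScalarTower ℂ S2 A] [Module.Finite S2 A] [FaithfulSMul S2 A]
  [Field L] [Algebra A L] [IsFractionRing A L] [Algebra S2 L] [IsScalarTower S2 A L]

theorem der_S2 (D : Derivation ℂ A A) (f : S2) :
    D (algebraMap S2 A f) = D (algebraMap S2 A (X 0)) * algebraMap S2 A (pderiv ℂ 0 f) +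
      D (algebraMap S2 A (X 1)) * algebraMap S2 A (pderiv ℂ 1 f) := by
  have h := derivation_eq_zero (M := A)
    (D.compAlgebraMap S2 - ((LinearMap.toSpanSingleton S2 A
      (D (algebraMap S2 A (X 0)))).compDer (pderiv ℂ (0 : Fin 2)) +
      (LinearMap.toSpanSingleton S2 A
      (D (algebraMap S2 A (X 1)))).compDer (pderiv ℂ (1 : Fin 2)))) ?_ f
  · have h1 : D (algebraMap S2 A f) - (pderiv ℂ 0 f • D (algebraMap S2 A (X 0)) +
        pderiv ℂ 1 f • D (algebraMap S2 A (X 1))) = 0 := h
    rw [Algebra.smul_def, Algebra.smul_def] at h1
    rw [sub_eq_zero.1 h1]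
    ring
  · intro i
    change D (algebraMap S2 A (X i)) - (pderiv ℂ 0 (X i) • D (algebraMap S2 A (X 0)) +
        pderiv ℂ 1 (X i) • D (algebraMap S2 A (X 1))) = 0
    have h01 : pderiv ℂ (0 : Fin 2) (X 1 : S2) = 0 := pderiv_X_of_ne (by decide)
    have h10 : pderiv ℂ (1 : Fin 2) (X 0 : S2) = 0 := pderiv_X_of_ne (by decide)
    have h00 : pderiv ℂ (0 : Fin 2) (X 0 : S2) = 1 := pderiv_X_self
    have h11 : pderiv ℂ (1 : Fin 2) (X 1 : S2) = 1 := pderiv_X_self
    fin_cases i
    · change D (algebraMap S2 A (X 0)) - (pderiv ℂ 0 (X 0) • D (algebraMap S2 A (X 0)) +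
        pderiv ℂ 1 (X 0) • D (algebraMap S2 A (X 1))) = 0
      rw [h00, h10, one_smul, zero_smul, add_zero, sub_self]
    · change D (algebraMap S2 A (X 1)) - (pderiv ℂ 0 (X 1) • D (algebraMap S2 A (X 0)) +
        pderiv ℂ 1 (X 1) • D (algebraMap S2 A (X 1))) = 0
      rw [h11, h01, one_smul, zero_smul, zero_add, sub_self]

private theorem P_mul (P : Fin 2 → Derivation ℤ L L)
    (hP : ∀ i (f : S2), P i (algebraMap S2 L f) = algebraMap S2 L (pderiv ℂ i f))
    (i : Fin 2) (s : S2) (a : A) :
    P i (algebraMap A L (algebraMap S2 A s * a)) =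
      algebraMap S2 L s * P i (algebraMap A L a) +
        algebraMap A L a * algebraMap S2 L (pderiv ℂ i s) := by
  rw [map_mul, ← IsScalarTower.algebraMap_apply, Derivation.leibniz, hP, smul_eq_mul, smul_eq_mul]

theorem der_eq (P : Fin 2 → Derivation ℤ L L)
    (hP : ∀ i (f : S2), P i (algebraMap S2 L f) = algebraMap S2 L (pderiv ℂ i f))
    (D : Derivation ℂ A A) (a : A) :
    algebraMap A L (D a) = algebraMap A L (D (algebraMap S2 A (X 0))) * P 0 (algebraMap A L a) +
      algebraMap A L (D (algebraMap S2 A (X 1))) * P 1 (algebraMap A L a) := by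
  have : CharZero S2 := charZero_of_injective_algebraMap (algebraMap ℂ S2).injective
  have : FaithfulSMul A L := (faithfulSMul_iff_algebraMap_injective A L).2
    (IsFractionRing.injective A L)
  let E : Derivation S2 A L := Derivation.mk'
    { toFun := fun a => algebraMap A L (D a) -
        (algebraMap A L (D (algebraMap S2 A (X 0))) * P 0 (algebraMap A L a) +
          algebraMap A L (D (algebraMap S2 A (X 1))) * P 1 (algebraMap A L a))
      map_add' := by
        intro a b
        simp only [map_add]
        ring
      map_smul' := by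
        intro s a
        rw [RingHom.id_apply, Algebra.smul_def, Algebra.smul_def, P_mul P hP, P_mul P hP,
          Derivation.leibniz, smul_eq_mul, smul_eq_mul, der_S2]
        simp only [map_add, map_mul, ← IsScalarTower.algebraMap_apply S2 A L]
        ring }
    (by
      intro a b
      change algebraMap A L (D (a * b)) -
        (algebraMap A L (D (algebraMap S2 A (X 0))) * P 0 (algebraMap A L (a * b)) +
          algebraMap A L (D (algebraMap S2 A (X 1))) * P 1 (algebraMap A L (a * b))) =
        a • (algebraMap A L (D b) -
        (algebraMap A L (D (algebraMap S2 A (X 0))) * P 0 (algebraMap A L b) +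
          algebraMap A L (D (algebraMap S2 A (X 1))) * P 1 (algebraMap A L b))) +
        b • (algebraMap A L (D a) -
        (algebraMap A L (D (algebraMap S2 A (X 0))) * P 0 (algebraMap A L a) +
          algebraMap A L (D (algebraMap S2 A (X 1))) * P 1 (algebraMap A L a)))
      have hsm : ∀ (u : A) (v : L), u • v = algebraMap A L u * v := fun u v =>
        Algebra.smul_def u v
      rw [hsm, hsm, D.leibniz, map_mul, Derivation.leibniz, Derivation.leibniz]
      simp only [smul_eq_mul, map_add, map_mul]
      ring)
  have hint : IsIntegral S2 a := Algebra.IsIntegral.isIntegral a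
  obtain ⟨p, hp, hpa⟩ := hint
  have h1 : E a = 0 := der_alg_zero E a p.natDegree p hp.ne_zero rfl hpa
  exact sub_eq_zero.1 h1

theorem exists_der (P : Fin 2 → Derivation ℤ L L)
    (hP : ∀ i (f : S2), P i (algebraMap S2 L f) = algebraMap S2 L (pderiv ℂ i f))
    (z : L × L) (hz : z ∈ VA A P) :
    ∃ D : Derivation ℂ A A, ∀ a, algebraMap A L (D a) =
      z.1 * P 0 (algebraMap A L a) + z.2 * P 1 (algebraMap A L a) := by
  have hinj : Function.Injective (algebraMap A L) := IsFractionRing.injective A L
  choose c hc using hz
  refine ⟨Derivation.mk'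
    { toFun := c
      map_add' := by
        intro a b
        apply hinj
        rw [map_add, ← hc, ← hc, ← hc, map_add, map_add, map_add]
        ring
      map_smul' := by
        intro r a
        apply hinj
        have e : r • a = algebraMap S2 A (algebraMap ℂ S2 r) * a := by
          rw [← IsScalarTower.algebraMap_apply, Algebra.smul_def]
        have e' : r • c a = algebraMap S2 A (algebraMap ℂ S2 r) * c a := by
          rw [← IsScalarTower.algebraMap_apply, Algebra.smul_def]
        rw [RingHom.id_apply, e', map_mul, ← hc, ← hc, e, P_mul P hP, P_mul P hP,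
          Derivation.map_algebraMap, Derivation.map_algebraMap, map_zero, mul_zero,
          ← IsScalarTower.algebraMap_apply S2 A L]
        ring }
    (by
      intro a b
      apply hinj
      change algebraMap A L (c (a * b)) = algebraMap A L (a * c b + b * c a)
      rw [map_add, map_mul, map_mul, ← hc, ← hc, ← hc, map_mul, Derivation.leibniz,
        Derivation.leibniz]
      simp only [smul_eq_mul]
      ring), fun a => (hc a).symm⟩

end

end Pool.Agent.Helper85.RIG
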