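import Mathlib

/-!
# RIG-30 RigDer: lifting of derivations modulo `x` makes the module of derivations strict (step 1)

`A` is a domain, `x <> 0`, `y` is injective modulo `x`, every derivation `A -> A / x A` lifts to a derivation `A -> A`, `Q = (x, y)`. If
`D` is a derivation with all values in `Q^k` then `D` is in `Q^k Der(A)`.

Proof. Induction on `k`, `k = 0` trivial. Let `D(A) <= Q^(k+1)`. `Q^(k+1) = x Q^k + y^(k+1) A` (prove this first). So for every `a` there is
`e(a)` with `D a - y^(k+1) e(a)` in `x A`; the class of `e(a)` modulo `x` is unique (`y^(k+1)` is injective modulo `x`), so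
`a -> [e(a)]` is a derivation `A -> A / x A` over the complex numbers. Lift it to `D1 : A -> A`. Then `D a - y^(k+1) D1 a` is in `x A` for all `a`,
so `D - y^(k+1) D1 = x D2` with a derivation `D2` of `A` (`A` is a domain). `D2(A) <= Q^k`: `x D2 a = D a - y^(k+1) D1 a` is in
`Q^(k+1)`, `x D2 a = x b' + y^(k+1) c` with `b'` in `Q^k`; `x | y^(k+1) c` so `c = x c'` and `D2 a = b' + y^(k+1) c'` is in `Q^k`. By
induction `D2` is in `Q^k Der(A)`, and `D = y^(k+1) D1 + x D2` is in `Q^(k+1) Der(A)`.
-/

set_option autoImplicit false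

namespace Pool.Agent.Helper85.RIG

theorem rigDer_pow {A : Type*} [CommRing A] (x y : A) (k : ℕ) :
    ∀ z ∈ (Ideal.span {x, y}) ^ (k + 1),
      ∃ b ∈ (Ideal.span {x, y}) ^ k, ∃ c : A, z = x * b + y ^ (k + 1) * c := by
  induction k with
  | zero =>
    intro z hz
    rw [zero_add, pow_one, Ideal.mem_span_pair] at hz
    obtain ⟨a, b, rfl⟩ := hz
    refine ⟨a, by simp, b, by ring⟩
  | succ k ih =>
    intro z hz
    rw [pow_succ' _ (k + 1)] at hz
    refine Submodule.mul_induction_on hz ?_ ?_
    · intro u hu v hv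
      obtain ⟨a, b, rfl⟩ := Ideal.mem_span_pair.1 hu
      obtain ⟨b', hb', c', hv'⟩ := ih v hv
      have hy : y ∈ Ideal.span {x, y} := Ideal.subset_span (by simp)
      refine ⟨a * v + b * (y * b'), Ideal.add_mem _ (Ideal.mul_mem_left _ _ hv)
        (Ideal.mul_mem_left _ _ ?_), b * c', ?_⟩
      · rw [pow_succ']
        exact Ideal.mul_mem_mul hy hb'
      · rw [hv']
        ring
    · rintro u v ⟨b, hb, c, rfl⟩ ⟨b', hb', c', rfl⟩
      exact ⟨b + b', Ideal.add_mem _ hb hb', c + c', by ring⟩

theorem rigDer_reg {A : Type*} [CommRing A] (x y : A)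
    (hreg : ∀ a : A, x ∣ y * a → x ∣ a) (m : ℕ) : ∀ a : A, x ∣ y ^ m * a → x ∣ a := by
  induction m with
  | zero => intro a h; simpa using h
  | succ m ih =>
    intro a h
    apply ih
    apply hreg
    rwa [← mul_assoc, ← pow_succ']

theorem rig_der {A : Type*} [CommRing A] [IsDomain A] [Algebra ℂ A] (x y : A) (hx0 : x ≠ 0)
    (hreg : ∀ a : A, x ∣ y * a → x ∣ a)
    (hlift : ∀ δ : Derivation ℂ A (A ⧸ Ideal.span {x}),
      ∃ D : Derivation ℂ A A, ∀ a, Ideal.Quotient.mk (Ideal.span {x}) (D a) = δ a)
    (k : ℕ) (D : Derivation ℂ A A) (hD : ∀ a, D a ∈ (Ideal.span {x, y}) ^ k) :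
    D ∈ (Ideal.span {x, y}) ^ k • (⊤ : Submodule A (Derivation ℂ A A)) := by
  induction k generalizing D with
  | zero =>
    rw [pow_zero, Ideal.one_eq_top, Submodule.top_smul]
    trivial
  | succ k ih =>
    have h1 : ∀ a, ∃ c : A, x ∣ D a - y ^ (k + 1) * c := by
      intro a
      obtain ⟨b, -, c, h⟩ := rigDer_pow x y k (D a) (hD a)
      exact ⟨c, b, by rw [h]; ring⟩
    choose e he using h1
    have huniq : ∀ u v : A, x ∣ y ^ (k + 1) * u - y ^ (k + 1) * v →
        Ideal.Quotient.mk (Ideal.span {x}) u = Ideal.Quotient.mk (Ideal.span {x}) v := by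
      intro u v h
      rw [Ideal.Quotient.eq, Ideal.mem_span_singleton]
      apply rigDer_reg x y hreg (k + 1)
      rwa [mul_sub]
    let δ0 : A →ₗ[ℂ] (A ⧸ Ideal.span {x}) :=
      { toFun := fun a => Ideal.Quotient.mk (Ideal.span {x}) (e a)
        map_add' := by
          intro a b
          rw [← map_add]
          apply huniq
          have h := dvd_sub (dvd_add (he a) (he b)) (he (a + b))
          rw [map_add] at h
          convert h using 1
          ring
        map_smul' := by
          intro r a
          have hs : r • Ideal.Quotient.mk (Ideal.span {x}) (e a) =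
              Ideal.Quotient.mk (Ideal.span {x}) (r • e a) := rfl
          rw [RingHom.id_apply, hs]
          apply huniq
          have h := dvd_sub (Dvd.dvd.mul_left (he a) (algebraMap ℂ A r)) (he (r • a))
          rw [D.map_smul, Algebra.smul_def r (D a)] at h
          rw [Algebra.smul_def r (e a)]
          convert h using 1
          ring }
    let δ : Derivation ℂ A (A ⧸ Ideal.span {x}) := Derivation.mk' δ0 (by
      intro a b
      show Ideal.Quotient.mk (Ideal.span {x}) (e (a * b)) =
        a • Ideal.Quotient.mk (Ideal.span {x}) (e b) +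
          b • Ideal.Quotient.mk (Ideal.span {x}) (e a)
      have hs : ∀ u v : A, u • Ideal.Quotient.mk (Ideal.span {x}) v =
          Ideal.Quotient.mk (Ideal.span {x}) (u * v) := fun u v => rfl
      rw [hs, hs, ← map_add]
      apply huniq
      have h := dvd_sub (dvd_add (Dvd.dvd.mul_left (he b) a) (Dvd.dvd.mul_left (he a) b))
        (he (a * b))
      rw [D.leibniz, smul_eq_mul, smul_eq_mul] at h
      convert h using 1
      ring)
    obtain ⟨D1, hD1⟩ := hlift δ
    have h2 : ∀ a, ∃ c : A, D a - y ^ (k + 1) * D1 a = x * c := by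
      intro a
      have h3 : Ideal.Quotient.mk (Ideal.span {x}) (D1 a) =
          Ideal.Quotient.mk (Ideal.span {x}) (e a) := hD1 a
      rw [Ideal.Quotient.eq, Ideal.mem_span_singleton] at h3
      have h4 := dvd_sub (he a) (Dvd.dvd.mul_left h3 (y ^ (k + 1)))
      obtain ⟨c, hc⟩ := h4
      exact ⟨c, by rw [← hc]; ring⟩
    choose d hd using h2
    have hcan : ∀ u v : A, x * u = x * v → u = v := fun u v h => mul_left_cancel₀ hx0 h
    let d0 : A →ₗ[ℂ] A :=
      { toFun := d
        map_add' := by
          intro a b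
          apply hcan
          rw [mul_add, ← hd, ← hd, ← hd, map_add, map_add]
          ring
        map_smul' := by
          intro r a
          apply hcan
          rw [RingHom.id_apply, mul_smul_comm, ← hd, ← hd, D.map_smul, D1.map_smul,
            smul_sub, mul_smul_comm] }
    let D2 : Derivation ℂ A A := Derivation.mk' d0 (by
      intro a b
      show d (a * b) = a • d b + b • d a
      apply hcan
      rw [smul_eq_mul, smul_eq_mul, mul_add, mul_left_comm x a, mul_left_comm x b, ← hd, ← hd,
        ← hd, D.leibniz, D1.leibniz, smul_eq_mul, smul_eq_mul, smul_eq_mul, smul_eq_mul]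
      ring)
    have hD2 : ∀ a, D2 a = d a := fun a => rfl
    have h5 : ∀ a, D2 a ∈ (Ideal.span {x, y}) ^ k := by
      intro a
      have h6 : x * d a ∈ (Ideal.span {x, y}) ^ (k + 1) := by
        rw [← hd]
        refine Ideal.sub_mem _ (hD a) (Ideal.mul_mem_right _ _ ?_)
        exact Ideal.pow_mem_pow (Ideal.subset_span (by simp)) _
      obtain ⟨b', hb', c, hc⟩ := rigDer_pow x y k _ h6
      have h7 : x ∣ y ^ (k + 1) * c := ⟨d a - b', by rw [mul_sub, hc]; ring⟩
      obtain ⟨c', rfl⟩ := rigDer_reg x y hreg _ _ h7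
      have h8 : d a = b' + y ^ (k + 1) * c' := by
        apply hcan
        rw [hc]
        ring
      rw [hD2, h8]
      refine Ideal.add_mem _ hb' ?_
      rw [pow_succ, mul_assoc]
      exact Ideal.mul_mem_right _ _ (Ideal.pow_mem_pow (Ideal.subset_span (by simp)) _)
    have h9 := ih D2 h5
    have h10 : D = y ^ (k + 1) • D1 + x • D2 := by
      ext a
      rw [Derivation.add_apply, Derivation.smul_apply, Derivation.smul_apply, smul_eq_mul,
        smul_eq_mul, hD2, ← hd]
      ring
    rw [h10]
    refine Submodule.add_mem _ ?_ ?_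
    · exact Submodule.smul_mem_smul (Ideal.pow_mem_pow (Ideal.subset_span (by simp)) _) trivial
    · rw [pow_succ', ← smul_eq_mul, Submodule.smul_assoc]
      exact Submodule.smul_mem_smul (Ideal.subset_span (by simp)) h9

end Pool.Agent.Helper85.RIG
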