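import Mathlib
import Pool.Agent.Helper85.RIG.DerBridge
import Pool.Agent.Helper85.RIG.RigDer

/-!
# RIG-31 RigV: step 1 for the submodule `VA A P`

If `z` is in `VA A P` and all its values are in `Q^k`, `Q = (x, y)`, then `z` is in `Q^k VA A P`. From `rig_der` through the
`A`-linear map `D -> (D x, D y)` from the derivations to `L x L`, which maps the top submodule into `VA A P` (`der_eq`).
-/

set_option autoImplicit false

namespace Pool.Agent.Helper85.RIG

open MvPowerSeries

theorem rig_V {A L : Type*} [CommRing A] [IsDomain A] [Algebra ℂ A] [Algebra S2 A]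
    [IsScalarTower ℂ S2 A] [Module.Finite S2 A] [FaithfulSMul S2 A]
    [Field L] [Algebra A L] [IsFractionRing A L] [Algebra S2 L] [IsScalarTower S2 A L]
    (P : Fin 2 → Derivation ℤ L L)
    (hP : ∀ i (f : S2), P i (algebraMap S2 L f) = algebraMap S2 L (pderiv ℂ i f))
    (hx0 : algebraMap S2 A (X 0) ≠ 0)
    (hreg : ∀ a : A, algebraMap S2 A (X 0) ∣ algebraMap S2 A (X 1) * a →
      algebraMap S2 A (X 0) ∣ a)
    (hlift : ∀ δ : Derivation ℂ A (A ⧸ Ideal.span {algebraMap S2 A (X 0)}),
      ∃ D : Derivation ℂ A A, ∀ a,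
        Ideal.Quotient.mk (Ideal.span {algebraMap S2 A (X 0)}) (D a) = δ a)
    (k : ℕ) (z : L × L) (hz : z ∈ VA A P)
    (hk : ∀ a : A, ∃ c ∈ (Ideal.span {algebraMap S2 A (X 0), algebraMap S2 A (X 1)}) ^ k,
      z.1 * P 0 (algebraMap A L a) + z.2 * P 1 (algebraMap A L a) = algebraMap A L c) :
    z ∈ (Ideal.span {algebraMap S2 A (X 0), algebraMap S2 A (X 1)}) ^ k • VA A P := by
  obtain ⟨D, hD⟩ := exists_der P hP z hz
  have hDk : ∀ a, D a ∈ (Ideal.span {algebraMap S2 A (X 0), algebraMap S2 A (X 1)}) ^ k := by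
    intro a
    obtain ⟨c, hc, hc'⟩ := hk a
    have h1 : algebraMap A L (D a) = algebraMap A L c := by rw [hD, hc']
    rw [IsFractionRing.injective A L h1]
    exact hc
  have h1 := rig_der _ _ hx0 hreg hlift k D hDk
  let F : Derivation ℂ A A →ₗ[A] L × L :=
    { toFun := fun D => (algebraMap A L (D (algebraMap S2 A (X 0))),
        algebraMap A L (D (algebraMap S2 A (X 1))))
      map_add' := by
        intro D D'
        rw [Derivation.add_apply, Derivation.add_apply, map_add, map_add]
        rfl
      map_smul' := by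
        intro a D
        rw [Derivation.smul_apply, Derivation.smul_apply, smul_eq_mul, smul_eq_mul, map_mul,
          map_mul]
        ext
        · rw [RingHom.id_apply, Prod.smul_fst, Algebra.smul_def]
        · rw [RingHom.id_apply, Prod.smul_snd, Algebra.smul_def] }
  have h2 : (⊤ : Submodule A (Derivation ℂ A A)).map F ≤ VA A P := by
    rintro w ⟨D', _, rfl⟩ a
    refine ⟨D' a, ?_⟩
    exact (der_eq P hP D' a).symm
  have h3 : F D = z := by
    ext
    · change algebraMap A L (D (algebraMap S2 A (X 0))) = z.1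
      rw [hD, ← IsScalarTower.algebraMap_apply, P_X P hP, P_X P hP]
      simp
    · change algebraMap A L (D (algebraMap S2 A (X 1))) = z.2
      rw [hD, ← IsScalarTower.algebraMap_apply, P_X P hP, P_X P hP]
      simp
  rw [← h3]
  have h4 : F D ∈ ((Ideal.span {algebraMap S2 A (X 0), algebraMap S2 A (X 1)}) ^ k •
      (⊤ : Submodule A (Derivation ℂ A A))).map F := ⟨D, h1, rfl⟩
  rw [Submodule.map_smul''] at h4
  exact Submodule.smul_mono le_rfl h2 h4

end Pool.Agent.Helper85.RIG
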