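import Mathlib
import Pool.Agent.Helper85.RIG.UpDef
import Pool.Agent.Helper85.RIG.VADef
import Pool.Agent.Helper85.RIG.BasisL
import Pool.Agent.Helper85.RIG.S2Facts

/-!
# RIG-41 VRspan: over the order valuation ring all derivations come from `A` (step 2)

`AR` is the `Rord K`-span of the `u_i`, `p_i = P_0 u_i`, `q_i = P_1 u_i`. `hrig` is the conclusion of `rig_V`. Then `VR AR p q` is contained in the
`Rord K`-span of `VA A P`.

Proof. Let `z` be in `VR AR p q`, `R = Rord K`. For `a = sum s_i u_i` in `A` (`s_i` in `S2`),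
`v(a) := z.1 P_0 a + z.2 P_1 a = sum s_i (z.1 p_i + z.2 q_i) + sum u_i (z.1 pderiv 0 s_i + z.2 pderiv 1 s_i)` is in `AR` (`AR` is stable under
multiplication by the image of `A`, since `u_i u_j` is an `S2`-combination of the `u_k`). By `exists_smul_mem` there is `0 <> g` in `S2` with `g z.1`, `g z.2` and
all `g (z.1 p_i + z.2 q_i)` in the image of `A` (product of the denominators), so `g z` is in `VA A P` (same formula), with values
`g v(a)`. Let `k = order g` (finite). `g = x^k e` in `R` with a unit `e` (`Rord_dvd_iff` and: `g / x^k` has order difference zero, so it is a unit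
of `Rord K`; or only use that `x^k` divides `g` in `R` and, below, that `q / g` is in `R` for `q` in `S2` with `order q >= k`, by definition of
`Rord`). So `c = g v(a)` is in the image of `A` and in `x^k AR`: `c = sum c_i u_i` with `c_i` in `S2`, and `c = sum x^k r_i u_i`; the `u_i` are linearly
independent over `K`, so `x^k` divides `c_i` in `R`, `k <= order c_i` (`Rord_dvd_iff`), `c_i` in `(X 0, X 1)^k` (`le_order_iff_mem`), and `c` is in
`Q^k`, `Q = (x, y) A`. By `hrig`, `g z` is in `Q^k VA A P`. `Q^k` is generated over `A` by the images of the elements `q` of `(X 0, X 1)^k`, so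
`g z` is a sum of elements `q w`, `q` in `S2` of order `>= k`, `w` in `VA A P`; and `q w / g = (q / g) w` is in the `R`-span of `VA A P`.
-/

set_option autoImplicit false

namespace Pool.Agent.Helper85.RIG

open MvPowerSeries

section aux
variable {A K L ι : Type*} [CommRing A] [IsDomain A]
    [Algebra S2 A] [Field K] [Algebra S2 K] [IsFractionRing S2 K]
    [Field L] [Algebra A L] [Algebra S2 L] [IsScalarTower S2 A L]
    [Algebra K L] [IsScalarTower S2 K L] [Fintype ι]

omit [IsDomain A] [IsFractionRing S2 K] in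
private theorem coe_mem_AR (u : Module.Basis ι S2 A) (a : A) :
    algebraMap A L a ∈ Submodule.span (Rord K) (Set.range fun i => algebraMap A L (u i)) := by
  rw [← u.sum_repr a, map_sum]
  refine Submodule.sum_mem _ fun i _ => ?_
  have h : algebraMap A L (u.repr a i • u i) =
      (algebraMap S2 (Rord K) (u.repr a i)) • algebraMap A L (u i) := by
    rw [Algebra.smul_def, map_mul, ← IsScalarTower.algebraMap_apply, Subalgebra.smul_def,
      algebraMap_Rord_coe, Algebra.smul_def, ← IsScalarTower.algebraMap_apply]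
  rw [h]
  exact Submodule.smul_mem _ _ (Submodule.subset_span ⟨i, rfl⟩)

omit [IsDomain A] [IsFractionRing S2 K] in
private theorem mul_mem_AR (u : Module.Basis ι S2 A) (a : A) (z : L)
    (hz : z ∈ Submodule.span (Rord K) (Set.range fun i => algebraMap A L (u i))) :
    algebraMap A L a * z ∈ Submodule.span (Rord K) (Set.range fun i => algebraMap A L (u i)) := by
  induction hz using Submodule.span_induction with
  | mem x hx =>
    obtain ⟨i, rfl⟩ := hx
    change algebraMap A L a * algebraMap A L (u i) ∈ _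
    rw [← map_mul]
    exact coe_mem_AR u _
  | zero => rw [mul_zero]; exact Submodule.zero_mem _
  | add x y _ _ hx hy => rw [mul_add]; exact Submodule.add_mem _ hx hy
  | smul r x _ hx => rw [mul_smul_comm]; exact Submodule.smul_mem _ _ hx

omit [IsDomain A] in
private theorem v_formula (P : Fin 2 → Derivation ℤ L L)
    (hP : ∀ i (f : S2), P i (algebraMap S2 L f) = algebraMap S2 L (pderiv ℂ i f))
    (u : Module.Basis ι S2 A) (z : L × L) (a : A) :
    z.1 * P 0 (algebraMap A L a) + z.2 * P 1 (algebraMap A L a) =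
      ∑ i, (algebraMap A L (algebraMap S2 A (u.repr a i)) *
          (z.1 * P 0 (algebraMap A L (u i)) + z.2 * P 1 (algebraMap A L (u i))) +
        (algebraMap A L (u i * algebraMap S2 A (pderiv ℂ 0 (u.repr a i))) * z.1 +
          algebraMap A L (u i * algebraMap S2 A (pderiv ℂ 1 (u.repr a i))) * z.2)) := by
  have h : ∀ j, P j (algebraMap A L a) = ∑ i, (algebraMap A L (algebraMap S2 A (u.repr a i)) *
      P j (algebraMap A L (u i)) +
      algebraMap A L (u i * algebraMap S2 A (pderiv ℂ j (u.repr a i)))) := by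
    intro j
    conv_lhs => rw [← u.sum_repr a, map_sum, map_sum]
    refine Finset.sum_congr rfl fun i _ => ?_
    rw [Algebra.smul_def, map_mul, Derivation.leibniz, smul_eq_mul, smul_eq_mul, map_mul,
      ← IsScalarTower.algebraMap_apply, hP, ← IsScalarTower.algebraMap_apply]
  rw [h, h, Finset.mul_sum, Finset.mul_sum, ← Finset.sum_add_distrib]
  refine Finset.sum_congr rfl fun i _ => ?_
  ring

end aux

theorem VR_le_span {A K L ι : Type*} [CommRing A] [IsDomain A]
    [Algebra S2 A] [Module.Finite S2 A] [FaithfulSMul S2 A]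
    [Field K] [Algebra S2 K] [IsFractionRing S2 K]
    [Field L] [Algebra A L] [IsFractionRing A L] [Algebra S2 L] [IsScalarTower S2 A L]
    [Algebra K L] [IsScalarTower S2 K L] [FiniteDimensional K L] [Fintype ι] [DecidableEq ι]
    (P : Fin 2 → Derivation ℤ L L)
    (hP : ∀ i (f : S2), P i (algebraMap S2 L f) = algebraMap S2 L (pderiv ℂ i f))
    (u : Module.Basis ι S2 A)
    (hrig : ∀ (k : ℕ) (z : L × L), z ∈ VA A P →
      (∀ a : A, ∃ c ∈ (Ideal.span {algebraMap S2 A (X 0), algebraMap S2 A (X 1)}) ^ k,
        z.1 * P 0 (algebraMap A L a) + z.2 * P 1 (algebraMap A L a) = algebraMap A L c) →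
      z ∈ (Ideal.span {algebraMap S2 A (X 0), algebraMap S2 A (X 1)}) ^ k • VA A P) :
    VR (Submodule.span (Rord K) (Set.range fun i => algebraMap A L (u i)))
      (fun i => P 0 (algebraMap A L (u i))) (fun i => P 1 (algebraMap A L (u i))) ≤
    Submodule.span (Rord K) (VA A P : Set (L × L)) := by
  intro z hz
  obtain ⟨hz1, hz2, hz3⟩ := mem_VR.1 hz
  -- a common denominator
  obtain ⟨s1, hs1, a1, ha1⟩ := exists_smul_mem A z.1
  obtain ⟨s2, hs2, a2, ha2⟩ := exists_smul_mem A z.2
  choose s hs b hb using fun i => exists_smul_mem A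
    (z.1 * P 0 (algebraMap A L (u i)) + z.2 * P 1 (algebraMap A L (u i)))
  obtain ⟨g, hgdef⟩ : ∃ g, g = s1 * s2 * ∏ i, s i := ⟨_, rfl⟩
  have hg0 : g ≠ 0 := by
    rw [hgdef]
    exact mul_ne_zero (mul_ne_zero hs1 hs2) (Finset.prod_ne_zero_iff.2 fun i _ => hs i)
  have hscale : ∀ (f : S2) (y : L) (c : A), f ∣ g → algebraMap S2 L f * y = algebraMap A L c →
      ∃ c' : A, algebraMap S2 L g * y = algebraMap A L c' := by
    rintro f y c ⟨f', rfl⟩ h
    refine ⟨algebraMap S2 A f' * c, ?_⟩
    rw [map_mul, map_mul, ← h, ← IsScalarTower.algebraMap_apply]; ring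
  have hd1 : s1 ∣ g := ⟨s2 * ∏ i, s i, by rw [hgdef]; ring⟩
  have hd2 : s2 ∣ g := ⟨s1 * ∏ i, s i, by rw [hgdef]; ring⟩
  have hd3 : ∀ i, s i ∣ g := fun i => by
    rw [hgdef]
    exact (Finset.dvd_prod_of_mem s (Finset.mem_univ i)).mul_left _
  obtain ⟨c1, hc1⟩ := hscale s1 z.1 a1 hd1 ha1
  obtain ⟨c2, hc2⟩ := hscale s2 z.2 a2 hd2 ha2
  choose d hd using fun i => hscale (s i) _ (b i) (hd3 i) (hb i)
  -- the values are in the lattice and become integral
  have hv1 : ∀ a : A, z.1 * P 0 (algebraMap A L a) + z.2 * P 1 (algebraMap A L a) ∈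
      Submodule.span (Rord K) (Set.range fun i => algebraMap A L (u i)) := by
    intro a
    rw [v_formula P hP u z a]
    refine Submodule.sum_mem _ fun i _ => ?_
    exact Submodule.add_mem _ (mul_mem_AR u _ _ (hz3 i))
      (Submodule.add_mem _ (mul_mem_AR u _ _ hz1) (mul_mem_AR u _ _ hz2))
  have hv2 : ∀ a : A, ∃ c : A, algebraMap S2 L g *
      (z.1 * P 0 (algebraMap A L a) + z.2 * P 1 (algebraMap A L a)) = algebraMap A L c := by
    intro a
    refine ⟨∑ i, (algebraMap S2 A (u.repr a i) * d i +
      (u i * algebraMap S2 A (pderiv ℂ 0 (u.repr a i)) * c1 +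
        u i * algebraMap S2 A (pderiv ℂ 1 (u.repr a i)) * c2)), ?_⟩
    rw [v_formula P hP u z a, Finset.mul_sum, map_sum]
    refine Finset.sum_congr rfl fun i _ => ?_
    simp only [map_add, map_mul]
    rw [← hc1, ← hc2, ← hd]
    ring
  -- the order
  obtain ⟨k, hk⟩ := ENat.ne_top_iff_exists.1
    (fun h4 => hg0 (MvPowerSeries.order_eq_top_iff.1 h4) : g.order ≠ ⊤)
  have hQ : Ideal.map (algebraMap S2 A) (Ideal.span (Set.range (X : Fin 2 → S2))) =
      Ideal.span {algebraMap S2 A (X 0), algebraMap S2 A (X 1)} := by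
    rw [Ideal.map_span]
    congr 1
    ext t
    constructor
    · rintro ⟨_, ⟨i, rfl⟩, rfl⟩
      fin_cases i
      · exact Or.inl rfl
      · exact Or.inr rfl
    · rintro (rfl | rfl)
      · exact ⟨_, ⟨0, rfl⟩, rfl⟩
      · exact ⟨_, ⟨1, rfl⟩, rfl⟩
  have hQk : Ideal.map (algebraMap S2 A) ((Ideal.span (Set.range (X : Fin 2 → S2))) ^ k) =
      (Ideal.span {algebraMap S2 A (X 0), algebraMap S2 A (X 1)}) ^ k := by
    rw [Ideal.map_pow, hQ]
  obtain ⟨uL, huL, -⟩ := exists_basis_L (K := K) (L := L) u
  have hv3 : ∀ a : A, ∃ c ∈ (Ideal.span {algebraMap S2 A (X 0), algebraMap S2 A (X 1)}) ^ k,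
      algebraMap S2 L g *
      (z.1 * P 0 (algebraMap A L a) + z.2 * P 1 (algebraMap A L a)) = algebraMap A L c := by
    intro a
    obtain ⟨c, hc⟩ := hv2 a
    refine ⟨c, ?_, hc⟩
    obtain ⟨r, hr⟩ := (Submodule.mem_span_range_iff_exists_fun (Rord K)).1 (hv1 a)
    have hci : ∀ i, (r i : K) * algebraMap S2 K g = algebraMap S2 K (u.repr c i) := by
      have e1 : ∑ i, ((r i : K) * algebraMap S2 K g) • uL i =
          ∑ i, (algebraMap S2 K (u.repr c i)) • uL i := by
        have e2 : ∑ i, ((r i : K) * algebraMap S2 K g) • uL i = algebraMap A L c := by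
          rw [← hc, ← hr, Finset.mul_sum]
          refine Finset.sum_congr rfl fun i _ => ?_
          rw [huL, Subalgebra.smul_def, Algebra.smul_def, Algebra.smul_def, map_mul,
            ← IsScalarTower.algebraMap_apply]
          ring
        have e3 : ∑ i, (algebraMap S2 K (u.repr c i)) • uL i = algebraMap A L c := by
          conv_rhs => rw [← u.sum_repr c, map_sum]
          refine Finset.sum_congr rfl fun i _ => ?_
          rw [huL, Algebra.smul_def, Algebra.smul_def, map_mul, ← IsScalarTower.algebraMap_apply,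
            ← IsScalarTower.algebraMap_apply]
        rw [e2, e3]
      have e4 := congrArg (fun t => (uL.repr t : ι → K)) e1
      simp only [Module.Basis.repr_sum_self] at e4
      exact congrFun e4
    rw [← hQk, ← u.sum_repr c]
    refine Ideal.sum_mem _ fun i _ => ?_
    rw [Algebra.smul_def]
    refine Ideal.mul_mem_right _ _ (Ideal.mem_map_of_mem _ ?_)
    rw [← le_order_iff_mem, hk]
    exact order_le_of_mem K (r i).2 hg0 (hci i)
  have hgz : (algebraMap S2 L g) • z ∈
      (Ideal.span {algebraMap S2 A (X 0), algebraMap S2 A (X 1)}) ^ k • VA A P := by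
    have e : ∀ a : A, ((algebraMap S2 L g) • z).1 * P 0 (algebraMap A L a) +
        ((algebraMap S2 L g) • z).2 * P 1 (algebraMap A L a) =
        algebraMap S2 L g * (z.1 * P 0 (algebraMap A L a) + z.2 * P 1 (algebraMap A L a)) := by
      intro a
      rw [Prod.smul_fst, Prod.smul_snd, smul_eq_mul, smul_eq_mul]
      ring
    apply hrig
    · intro a
      obtain ⟨c, -, hc⟩ := hv3 a
      exact ⟨c, by rw [e, hc]⟩
    · intro a
      obtain ⟨c, hcQ, hc⟩ := hv3 a
      exact ⟨c, hcQ, by rw [e, hc]⟩
  -- division by `g`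
  have hgL : algebraMap S2 L g ≠ 0 := by
    rw [IsScalarTower.algebraMap_apply S2 K L]
    intro h
    exact algebraMap_ne K hg0 ((algebraMap K L).injective (by rw [h, map_zero]))
  have hdiv : ∀ t ∈ Ideal.map (algebraMap S2 A) ((Ideal.span (Set.range (X : Fin 2 → S2))) ^ k),
      ∀ w ∈ VA A P, (algebraMap S2 L g)⁻¹ • (t • w) ∈
        Submodule.span (Rord K) (VA A P : Set (L × L)) := by
    intro t ht
    rw [Ideal.map] at ht
    induction ht using Submodule.span_induction with
    | mem x hx =>
      obtain ⟨f, hf, rfl⟩ := hx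
      intro w hw
      have hf' : (k : ℕ∞) ≤ f.order := (le_order_iff_mem f k).2 hf
      have hmem : algebraMap S2 K f / algebraMap S2 K g ∈ Rord K := by
        refine ⟨f, g, hg0, by rw [← hk]; exact hf', ?_⟩
        rw [div_mul_cancel₀ _ (algebraMap_ne K hg0)]
      have e : (algebraMap S2 L g)⁻¹ • ((algebraMap S2 A f) • w) =
          (⟨_, hmem⟩ : Rord K) • w := by
        have key : ∀ y : L, (algebraMap S2 L g)⁻¹ * (algebraMap A L (algebraMap S2 A f) * y) =
            algebraMap K L (algebraMap S2 K f / algebraMap S2 K g) * y := by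
          intro y
          rw [map_div₀, ← IsScalarTower.algebraMap_apply, ← IsScalarTower.algebraMap_apply,
            ← IsScalarTower.algebraMap_apply]
          ring
        refine Prod.ext ?_ ?_
        · rw [Prod.smul_fst, Prod.smul_fst, Prod.smul_fst, smul_eq_mul, Algebra.smul_def, key,
            Subalgebra.smul_def, Algebra.smul_def]
        · rw [Prod.smul_snd, Prod.smul_snd, Prod.smul_snd, smul_eq_mul, Algebra.smul_def, key,
            Subalgebra.smul_def, Algebra.smul_def]
      rw [e]
      exact Submodule.smul_mem _ _ (Submodule.subset_span hw)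
    | zero =>
      intro w _
      rw [zero_smul, smul_zero]
      exact Submodule.zero_mem _
    | add x y _ _ hx hy =>
      intro w hw
      rw [add_smul, smul_add]
      exact Submodule.add_mem _ (hx w hw) (hy w hw)
    | smul a x _ hx =>
      intro w hw
      rw [smul_eq_mul, mul_comm, mul_smul]
      exact hx _ ((VA A P).smul_mem a hw)
  have hfin : ∀ y ∈ (Ideal.span {algebraMap S2 A (X 0), algebraMap S2 A (X 1)}) ^ k • VA A P,
      (algebraMap S2 L g)⁻¹ • y ∈ Submodule.span (Rord K) (VA A P : Set (L × L)) := by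
    intro y hy
    rw [← hQk] at hy
    refine Submodule.smul_induction_on hy ?_ ?_
    · intro t ht w hw
      exact hdiv t ht w hw
    · intro x y hx hy
      rw [smul_add]
      exact Submodule.add_mem _ hx hy
  have := hfin _ hgz
  rwa [smul_smul, inv_mul_cancel₀ hgL, one_smul] at this

end Pool.Agent.Helper85.RIG
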