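import Mathlib

/-!
# RIG-27 YReg: in a normal local domain of dimension two a system of parameters is a regular sequence

Proof. Suppose `x | y b` but not `x | b`. Every element of `(x, y)` multiplies `b` into `x A`, so `m^N b <= x A` with
`N` from `hN`. Take `j` minimal with `m^j b <= x A` (`j >= 1` because `b` is not in `x A`); there is `c` in `m^(j-1) ` with `b' = c b` not in
`x A`, and `m b' <= x A`. Let `L` be the fraction field and `theta = b' / x`, not in `A`, `theta m <= A`. `theta m` is an ideal of `A`.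
If `theta m <= m` then `theta` is integral over `A` (`m` is finitely generated and contains a nonzero element:
`isIntegral_of_smul_mem_submodule`), so `theta` is in `A` (`A` integrally closed), contradiction. Otherwise `theta m` is not contained in the
maximal ideal, so `1 = theta p` for some `p` in `m`; then every `z` in `m` is `z = (theta z) p` with `theta z` in `A`: `m = (p)` is principal and
`dim A <= 1` by Krull's Hauptidealsatz (`Ideal.height_le_one_of_isPrincipal_of_mem_minimalPrimes`, or `Mathlib/RingTheory/Ideal/KrullsHeightTheorem.lean`,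
`IsLocalRing.maximalIdeal_height_eq_ringKrullDim`), contradicting `dim A = 2`.
-/

set_option autoImplicit false

namespace Pool.Agent.Helper85.RIG

theorem y_regular {A : Type*} [CommRing A] [IsDomain A] [IsLocalRing A] [IsNoetherianRing A]
    [IsIntegrallyClosed A] (hdim : ringKrullDim A = 2) (x y : A) (hx0 : x ≠ 0)
    (N : ℕ) (hN : (IsLocalRing.maximalIdeal A) ^ N ≤ Ideal.span {x, y})
    (b : A) (hb : x ∣ y * b) : x ∣ b := by
  classical
  by_contra hcon
  set 𝔪 := IsLocalRing.maximalIdeal A with h𝔪
  -- `x` is in the maximal ideal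
  have hxm : x ∈ 𝔪 := by
    rw [h𝔪, IsLocalRing.mem_maximalIdeal]
    intro hu
    exact hcon (hu.dvd)
  -- a minimal power
  have hex : ∃ j, ∀ z ∈ 𝔪 ^ j, x ∣ z * b := by
    refine ⟨N, fun z hz => ?_⟩
    obtain ⟨s, t, hst⟩ := Ideal.mem_span_pair.1 (hN hz)
    rw [← hst, add_mul]
    refine dvd_add ⟨s * b, by ring⟩ ?_
    obtain ⟨c, hc⟩ := hb
    exact ⟨t * c, by rw [mul_assoc, hc]; ring⟩
  obtain ⟨c, hc⟩ : ∃ c : A, ¬ x ∣ c * b ∧ ∀ z ∈ 𝔪, x ∣ z * (c * b) := by
    have hj := Nat.find_spec hex
    have hj0 : Nat.find hex ≠ 0 := by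
      intro h0
      rw [h0] at hj
      have := hj 1 (by simp)
      rw [one_mul] at this
      exact hcon this
    obtain ⟨j, hjj⟩ := Nat.exists_eq_succ_of_ne_zero hj0
    have hmin := Nat.find_min hex (m := j) (by omega)
    push Not at hmin
    obtain ⟨c, hcm, hcb⟩ := hmin
    refine ⟨c, hcb, fun z hz => ?_⟩
    rw [hjj] at hj
    have h1 : c * z ∈ 𝔪 ^ (j + 1) := by
      rw [pow_succ]
      exact Ideal.mul_mem_mul hcm hz
    have h2 := hj _ h1
    rw [show z * (c * b) = c * z * b by ring]
    exact h2
  set b' := c * b with hb'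
  obtain ⟨hnb, hmb⟩ := hc
  have hb'0 : b' ≠ 0 := by
    intro h0
    exact hnb (by rw [h0]; exact dvd_zero x)
  by_cases hI : ∀ a : A, (∃ z ∈ 𝔪, x * a = z * b') → a ∈ 𝔪
  · -- integral case
    let L := FractionRing A
    have hxL : algebraMap A L x ≠ 0 := by
      intro h0
      exact hx0 ((IsFractionRing.injective A L) (by rw [h0, map_zero]))
    let θ : L := algebraMap A L b' / algebraMap A L x
    have hint : IsIntegral A θ := by
      refine isIntegral_of_smul_mem_submodule (M := L)
        (Submodule.map (Algebra.linearMap A L) 𝔪) ?_ ?_ θ ?_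
      · intro h0
        have h1 : algebraMap A L x ∈ Submodule.map (Algebra.linearMap A L) 𝔪 :=
          ⟨x, hxm, rfl⟩
        rw [h0, Submodule.mem_bot] at h1
        exact hxL h1
      · exact Submodule.FG.map _ (IsNoetherian.noetherian 𝔪)
      · rintro n ⟨z, hz, rfl⟩
        obtain ⟨a, ha⟩ := hmb z hz
        refine ⟨a, hI a ⟨z, hz, ha.symm⟩, ?_⟩
        simp only [Algebra.linearMap_apply, smul_eq_mul, θ]
        rw [div_mul_eq_mul_div, eq_div_iff hxL, ← map_mul, ← map_mul]
        congr 1
        rw [mul_comm a x, ← ha]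
        ring
    obtain ⟨a, ha⟩ := IsIntegrallyClosed.isIntegral_iff.1 hint
    apply hnb
    refine ⟨a, ?_⟩
    have h3 : algebraMap A L (x * a) = algebraMap A L b' := by
      rw [map_mul, ha]
      exact mul_div_cancel₀ _ hxL
    exact (IsFractionRing.injective A L h3).symm
  · push Not at hI
    obtain ⟨a, ⟨z, hz, hza⟩, ham⟩ := hI
    have hau : IsUnit a := by
      by_contra h
      exact ham ((IsLocalRing.mem_maximalIdeal a).2 h)
    obtain ⟨v, hv⟩ := hau.exists_left_inv
    -- `x = q * b'` with `q` in the maximal ideal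
    have hq : x = (v * z) * b' := by
      calc x = x * (v * a) := by rw [hv, mul_one]
        _ = v * (x * a) := by ring
        _ = v * (z * b') := by rw [hza]
        _ = (v * z) * b' := by ring
    have hqm : v * z ∈ 𝔪 := Ideal.mul_mem_left _ _ hz
    have hprin : 𝔪 = Ideal.span {v * z} := by
      apply le_antisymm
      · intro t ht
        rw [Ideal.mem_span_singleton]
        obtain ⟨f, hf⟩ := hmb t ht
        refine ⟨f, mul_right_cancel₀ hb'0 ?_⟩
        rw [hf, hq]
        ring
      · rw [Ideal.span_singleton_le_iff_mem]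
        exact hqm
    have hmin : 𝔪 ∈ (Ideal.span {v * z}).minimalPrimes := by
      rw [← hprin]
      have : 𝔪.IsPrime := Ideal.IsMaximal.isPrime' 𝔪
      rw [Ideal.minimalPrimes_eq_subsingleton_self]
      exact Set.mem_singleton _
    have hP : (Ideal.span {v * z}).IsPrincipal := ⟨⟨v * z, rfl⟩⟩
    have hle := Ideal.height_le_one_of_isPrincipal_of_mem_minimalPrimes (Ideal.span {v * z}) 𝔪 hmin
    have hht := IsLocalRing.maximalIdeal_height_eq_ringKrullDim (R := A)
    rw [hdim, ← h𝔪] at hht
    have h2 : ((𝔪.height : ℕ∞) : WithBot ℕ∞) ≤ ((1 : ℕ∞) : WithBot ℕ∞) := WithBot.coe_le_coe.2 hle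
    rw [hht] at h2
    exact absurd h2 (by decide)

end Pool.Agent.Helper85.RIG
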