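import Mathlib
import Pool.Agent.Helper85.RIG.Div
import Pool.Agent.Helper85.RIG.VRspan
import Pool.Agent.Helper85.RIG.RigV
import Pool.Agent.Helper85.RIG.RSide
import Pool.Agent.Helper85.RIG.PInt
import Pool.Agent.Helper85.RIG.MInXB
import Pool.Agent.Helper85.RIG.YReg
import Pool.Agent.Helper85.RIG.DerExists
import Pool.Agent.Helper85.RIG.Basis1
import Pool.Agent.Helper85.RIG.VFree

/-!
# RIG Core: the assembly

A normal local domain of dimension two, finite over `C[[x, y]]` with `m^(r+1) = (x, y) m^r`, all of whose derivations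
modulo `x` lift, is equal to `C[[x, y]]`.
-/

set_option autoImplicit false

namespace Pool.Agent.Helper85.RIG

open MvPowerSeries

theorem A_free {A : Type*} [CommRing A] [IsDomain A] [Algebra S2 A] [Module.Finite S2 A]
    [FaithfulSMul S2 A]
    (hreg : ∀ a : A, algebraMap S2 A (X 0) ∣ algebraMap S2 A (X 1) * a →
      algebraMap S2 A (X 0) ∣ a) : Module.Free S2 A := by
  apply free_of_regular
  · intro m hm
    rw [Algebra.smul_def] at hm
    rcases mul_eq_zero.mp hm with h | h
    · exfalso
      have h1 : (X 0 : S2) = 0 := FaithfulSMul.algebraMap_injective S2 A (by rw [h, map_zero])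
      have h2 := congrArg (coeff (Finsupp.single 0 1)) h1
      simp at h2
    · exact h
  · intro m m' h
    rw [Algebra.smul_def, Algebra.smul_def] at h
    obtain ⟨c, hc⟩ := hreg m ⟨m', h⟩
    exact ⟨c, by rw [Algebra.smul_def]; exact hc⟩

theorem X0_ne_zero : (X 0 : S2) ≠ 0 := by
  intro h1
  have h2 := congrArg (coeff (Finsupp.single 0 1)) h1
  simp at h2

/-- The counting argument: the degree of `A` over `S2` is one. -/
theorem core_card {A K L : Type*} [CommRing A] [IsDomain A] [IsLocalRing A] [IsIntegrallyClosed A]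
    [Algebra ℂ A] [Algebra S2 A] [IsScalarTower ℂ S2 A] [Module.Finite S2 A] [FaithfulSMul S2 A]
    [Field K] [Algebra S2 K] [IsFractionRing S2 K] [CharZero K] [Algebra ℂ K]
    [IsScalarTower ℂ S2 K]
    [Field L] [Algebra A L] [IsFractionRing A L] [Algebra S2 L] [IsScalarTower S2 A L]
    [Algebra K L] [IsScalarTower S2 K L] [FiniteDimensional K L]
    (hX : ∀ i, algebraMap S2 A (X i) ∈ IsLocalRing.maximalIdeal A) (r : ℕ)
    (hred : (IsLocalRing.maximalIdeal A) ^ (r + 1) =
      Ideal.span {algebraMap S2 A (X 0), algebraMap S2 A (X 1)} *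
        (IsLocalRing.maximalIdeal A) ^ r)
    (hreg : ∀ a : A, algebraMap S2 A (X 0) ∣ algebraMap S2 A (X 1) * a →
      algebraMap S2 A (X 0) ∣ a)
    (hlift : ∀ δ : Derivation ℂ A (A ⧸ Ideal.span {algebraMap S2 A (X 0)}),
      ∃ D : Derivation ℂ A A, ∀ a,
        Ideal.Quotient.mk (Ideal.span {algebraMap S2 A (X 0)}) (D a) = δ a)
    (d : ℕ) (u : Module.Basis (Fin (d + 1)) S2 A) (hu0 : u 0 = 1)
    (hum : ∀ j, j ≠ 0 → u j ∈ IsLocalRing.maximalIdeal A) : d = 0 := by
  classical
  have : Algebra.IsSeparable K L := inferInstance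
  obtain ⟨P, hP⟩ := exists_pderiv_ext K L
  obtain ⟨uL, huL, hdisc⟩ := exists_basis_L (K := K) (L := L) u
  have hx0 : algebraMap S2 A (X 0) ≠ 0 := by
    intro h
    exact X0_ne_zero (FaithfulSMul.algebraMap_injective S2 A (by rw [h, map_zero]))
  have hrange : (fun i => algebraMap A L (u i)) = uL := by
    funext i
    exact (huL i).symm
  -- elements of `A` lie in `AR`
  have hAR : ∀ a : A, algebraMap A L a ∈ Submodule.span (Rord K) (Set.range uL) := by
    intro a
    rw [← u.sum_repr a, map_sum]
    apply Submodule.sum_mem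
    intro i _
    have h1 : algebraMap A L (u.repr a i • u i) =
        algebraMap S2 (Rord K) (u.repr a i) • uL i := by
      rw [Algebra.smul_def, map_mul, ← IsScalarTower.algebraMap_apply, huL, Algebra.smul_def,
        ← IsScalarTower.algebraMap_apply]
    rw [h1]
    exact Submodule.smul_mem _ _ (Submodule.subset_span ⟨i, rfl⟩)
  have hintA : ∀ a : A, IsIntegral (Rord K) (algebraMap A L a) := by
    intro a
    have h1 : IsIntegral S2 a := Algebra.IsIntegral.isIntegral a
    have h2 : IsIntegral S2 (algebraMap A L a) := h1.map (IsScalarTower.toAlgHom S2 A L)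
    exact h2.tower_top
  have hB : Submodule.span (Rord K) (Set.range uL) ≤ intB (Rord K) L := by
    rw [Submodule.span_le]
    rintro z ⟨i, rfl⟩
    rw [huL]
    exact hintA _
  have hmul : ∀ a ∈ Submodule.span (Rord K) (Set.range uL),
      ∀ b ∈ Submodule.span (Rord K) (Set.range uL),
      a * b ∈ Submodule.span (Rord K) (Set.range uL) := by
    intro a ha b hb
    have h1 : a * b ∈ Submodule.span (Rord K) (Set.range uL) *
        Submodule.span (Rord K) (Set.range uL) := Submodule.mul_mem_mul ha hb
    rw [Submodule.span_mul_span] at h1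
    refine Submodule.span_le.mpr ?_ h1
    rintro z ⟨_, ⟨i, rfl⟩, _, ⟨j, rfl⟩, rfl⟩
    change uL i * uL j ∈ _
    rw [huL, huL, ← map_mul]
    exact hAR _
  have hxL : algebraMap (Rord K) L (algebraMap S2 (Rord K) (X 0)) = algebraMap S2 L (X 0) := by
    rw [← IsScalarTower.algebraMap_apply]
  have hub : ∀ j, j ≠ 0 → ∃ b : L, IsIntegral (Rord K) b ∧ uL j = algebraMap S2 L (X 0) * b := by
    intro j hj
    rw [huL]
    exact m_in_xB hX r hred (u j) (hum j hj)
  have huL0 : uL 0 = 1 := by rw [huL, hu0, map_one]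
  have hres : ∀ a ∈ Submodule.span (Rord K) (Set.range uL), ∃ r : Rord K, ∃ b : L,
      IsIntegral (Rord K) b ∧ a = algebraMap (Rord K) L r +
        algebraMap (Rord K) L (algebraMap S2 (Rord K) (X 0)) * b := by
    intro a ha
    induction ha using Submodule.span_induction with
    | mem z hz =>
      obtain ⟨j, rfl⟩ := hz
      by_cases hj : j = 0
      · subst hj
        refine ⟨1, 0, isIntegral_zero, ?_⟩
        rw [huL0, map_one, mul_zero, add_zero]
      · obtain ⟨b, hb, hjb⟩ := hub j hj
        refine ⟨0, b, hb, ?_⟩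
        rw [map_zero, zero_add, hxL]
        exact hjb
    | zero => exact ⟨0, 0, isIntegral_zero, by rw [map_zero, mul_zero, add_zero]⟩
    | add z z' _ _ h h' =>
      obtain ⟨r1, b1, hb1, h1⟩ := h
      obtain ⟨r2, b2, hb2, h2⟩ := h'
      refine ⟨r1 + r2, b1 + b2, hb1.add hb2, ?_⟩
      rw [h1, h2, map_add]; ring
    | smul c z _ h =>
      obtain ⟨r1, b1, hb1, h1⟩ := h
      refine ⟨c * r1, algebraMap (Rord K) L c * b1, isIntegral_algebraMap.mul hb1, ?_⟩
      rw [h1, Algebra.smul_def, map_mul]; ring
  have hpq : ∀ (i : Fin 2) (j : Fin (d + 1)), IsIntegral (Rord K) (P i (uL j)) := by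
    intro i j
    by_cases hj : j = 0
    · subst hj
      rw [huL0, Derivation.map_one_eq_zero]
      exact isIntegral_zero
    · obtain ⟨b, hb, hjb⟩ := hub j hj
      rw [hjb]
      exact p_integral P hP b hb i
  obtain ⟨Pm, hdet, hPm⟩ := VA_free (K := K) P hP hreg u
  have hdvd := disc_dvd (K := K) P hP u Pm hdet hPm
  have hrig := fun (k : ℕ) (z : L × L) => rig_V P hP hx0 hreg hlift k z
  have hspan := VR_le_span (K := K) P hP u hrig
  have hδ : algebraMap (Rord K) K (algebraMap S2 (Rord K) (Algebra.discr S2 u)) =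
      Algebra.discr K uL := by
    rw [hdisc, ← IsScalarTower.algebraMap_apply]
  have h1 := two_idx_le (R := Rord K) uL hB _ hδ
  have h2 : IsDiscreteValuationRing.addVal (Rord K)
      (algebraMap S2 (Rord K) (Algebra.discr S2 u)) ≤
      IsDiscreteValuationRing.addVal (Rord K) (algebraMap S2 (Rord K) Pm.det) := by
    obtain ⟨c, hc⟩ := hdvd
    rw [hc, map_mul, IsDiscreteValuationRing.addVal_mul]
    exact le_self_add
  have h3 := idx_VA (K := K) (R := Rord K) P u Pm hdet hPm
  rw [hrange] at h3
  have h4 : idx ((Submodule.span (Rord K) (Set.range uL)).prod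
      (Submodule.span (Rord K) (Set.range uL))) (Submodule.span (Rord K) (VA A P : Set (L × L))) ≤
      idx ((Submodule.span (Rord K) (Set.range uL)).prod
      (Submodule.span (Rord K) (Set.range uL)))
      (VR (Submodule.span (Rord K) (Set.range uL)) (fun i => P 0 (uL i))
        (fun i => P 1 (uL i))) := by
    apply idx_anti
    have h5 := hspan
    simp only [← huL] at h5
    exact h5
  have h6 := rside (R := Rord K) uL (fun i => P 0 (uL i)) (fun i => P 1 (uL i))
    (fun j => hpq 0 j) (fun j => hpq 1 j) 0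
    (by rw [huL0, Derivation.map_one_eq_zero])
    (by rw [huL0, Derivation.map_one_eq_zero])
    hB hmul (algebraMap S2 (Rord K) (X 0)) (Rord_irred K) hres
    (h1.trans (h2.trans (h3 ▸ h4)))
  rw [Fintype.card_fin] at h6
  omega

/-- The main theorem for `A` finite over `S2` by a minimal reduction. -/
theorem core {A : Type*} [CommRing A] [IsDomain A] [IsLocalRing A] [IsNoetherianRing A]
    [IsIntegrallyClosed A]
    [Algebra ℂ A] [Algebra S2 A] [IsScalarTower ℂ S2 A] [Module.Finite S2 A] [FaithfulSMul S2 A]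
    (hdim : ringKrullDim A = 2)
    (hX : ∀ i, algebraMap S2 A (X i) ∈ IsLocalRing.maximalIdeal A) (r : ℕ)
    (hred : (IsLocalRing.maximalIdeal A) ^ (r + 1) =
      Ideal.span {algebraMap S2 A (X 0), algebraMap S2 A (X 1)} *
        (IsLocalRing.maximalIdeal A) ^ r)
    (hres : ∀ a : A, ∃ c : ℂ, a - algebraMap ℂ A c ∈ IsLocalRing.maximalIdeal A)
    (hlift : ∀ δ : Derivation ℂ A (A ⧸ Ideal.span {algebraMap S2 A (X 0)}),
      ∃ D : Derivation ℂ A A, ∀ a,
        Ideal.Quotient.mk (Ideal.span {algebraMap S2 A (X 0)}) (D a) = δ a) :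
    Function.Bijective (algebraMap S2 A) := by
  classical
  have hx0 : algebraMap S2 A (X 0) ≠ 0 := by
    intro h
    exact X0_ne_zero (FaithfulSMul.algebraMap_injective S2 A (by rw [h, map_zero]))
  have hN : (IsLocalRing.maximalIdeal A) ^ (r + 1) ≤
      Ideal.span {algebraMap S2 A (X 0), algebraMap S2 A (X 1)} := by
    rw [hred]; exact Ideal.mul_le_left
  have hreg : ∀ a : A, algebraMap S2 A (X 0) ∣ algebraMap S2 A (X 1) * a →
      algebraMap S2 A (X 0) ∣ a := fun a ha => y_regular hdim _ _ hx0 (r + 1) hN a ha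
  have : Module.Free S2 A := A_free hreg
  obtain ⟨d, u, hu0, hum⟩ := exists_basis_one hX hres
  letI : Algebra (FractionRing S2) (FractionRing A) :=
    FractionRing.liftAlgebra S2 (FractionRing A)
  have : IsScalarTower S2 (FractionRing S2) (FractionRing A) :=
    FractionRing.isScalarTower_liftAlgebra S2 (FractionRing A)
  have hc : CharZero (FractionRing S2) :=
    charZero_of_injective_algebraMap (algebraMap ℂ (FractionRing S2)).injective
  obtain ⟨uL, _, _⟩ := exists_basis_L (K := FractionRing S2) (L := FractionRing A) u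
  have : FiniteDimensional (FractionRing S2) (FractionRing A) := Module.Finite.of_basis uL
  have hd := core_card (K := FractionRing S2) (L := FractionRing A) hX r hred hreg hlift d u hu0 hum
  subst hd
  refine ⟨FaithfulSMul.algebraMap_injective S2 A, fun a => ⟨u.repr a 0, ?_⟩⟩
  have h1 := u.sum_repr a
  rw [Fin.sum_univ_one, hu0, Algebra.smul_def, mul_one] at h1
  exact h1

end Pool.Agent.Helper85.RIG
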