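import Mathlib
import Pool.Agent.Helper85.RIG.OrdR

/-!
# RIG-36 DimK: the number of parameters is the dimension

* `le_dim`: `phi` injective and finite gives `k <= dim A`: `dim C[[X_1..X_k]] >= k` by induction on `k`
  (`MvPowerSeries.finSuccEquiv` and Mathlib's `ringKrullDim (PowerSeries R) >= ringKrullDim R + 1`, look for
  `ringKrullDim_succ_le_ringKrullDim_powerseries` or similar; dimension is invariant under ring isomorphism), and `dim S <= dim A` for an
  injective integral `S -> A`: a chain of primes of `S` of length `k` lifts to a chain of `A` (lying over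
  `Ideal.exists_ideal_over_prime_of_isIntegral` and going up; strictness because the contractions are distinct).
  Alternatively use the explicit chain `(X_1, .., X_j)` of primes of `S`.
* `dim_le`: `m^N <= (x_1, .., x_k)` gives `dim A <= k` by Krull's height theorem
  (`Mathlib/RingTheory/Ideal/KrullsHeightTheorem.lean`): `m` is a minimal prime over `(x_1, .., x_k)`
  (proper, as `x i` in `m`), and `dim A = height m` (`IsLocalRing.maximalIdeal_height_eq_ringKrullDim`).
-/

set_option autoImplicit false

namespace Pool.Agent.Helper85.RIG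

open MvPowerSeries

theorem le_dim_pow (k : ℕ) : (k : WithBot ℕ∞) ≤ ringKrullDim (MvPowerSeries (Fin k) ℂ) := by
  induction k with
  | zero =>
      have : Nontrivial (MvPowerSeries (Fin 0) ℂ) := inferInstance
      simpa using ringKrullDim_nonneg_of_nontrivial (R := MvPowerSeries (Fin 0) ℂ)
  | succ k ih =>
      rw [ringKrullDim_eq_of_ringEquiv (MvPowerSeries.finSuccEquiv ℂ k).toRingEquiv]
      refine le_trans ?_ ringKrullDim_succ_le_ringKrullDim_powerseries
      have h := add_le_add_left ih 1
      push_cast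
      exact h

theorem exists_over94 {R S : Type*} [CommRing R] [CommRing S] [Algebra R S]
    [Algebra.IsIntegral R S] (p : Ideal R) [p.IsPrime]
    (hinj : Function.Injective (algebraMap R S)) :
    ∃ P : Ideal S, P.IsPrime ∧ P.comap (algebraMap R S) = p := by
  obtain ⟨Q, -, hQ, hQ2⟩ := Ideal.exists_ideal_over_prime_of_isIntegral p (⊥ : Ideal S) (by
    intro x hx
    have h1 : algebraMap R S x = 0 := by simpa using hx
    have h2 : x = 0 := hinj (by rw [h1, map_zero])
    rw [h2]
    exact p.zero_mem)
  exact ⟨Q, hQ, hQ2⟩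

theorem dim_le_of_inj_int {R S : Type*} [CommRing R] [CommRing S] [Algebra R S]
    [Algebra.IsIntegral R S] (hinj : Function.Injective (algebraMap R S)) :
    ringKrullDim R ≤ ringKrullDim S := by
  refine iSup_le fun l => ?_
  obtain ⟨P, hP, hP2⟩ := exists_over94 (S := S) (l.head).asIdeal hinj
  have : P.IsPrime := hP
  have lo : P.LiesOver (RelSeries.head l).asIdeal := ⟨hP2.symm⟩
  obtain ⟨L, hL, -, -⟩ := Ideal.exists_ltSeries_of_hasGoingUp l P
  rw [← hL]
  exact le_iSup (fun p : LTSeries (PrimeSpectrum S) => (p.length : WithBot ℕ∞)) L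

theorem le_dim {A : Type*} [CommRing A] (k : ℕ) (φ : MvPowerSeries (Fin k) ℂ →+* A)
    (hinj : Function.Injective φ) (hfin : φ.Finite) : (k : WithBot ℕ∞) ≤ ringKrullDim A := by
  let _ := φ.toAlgebra
  have : Module.Finite (MvPowerSeries (Fin k) ℂ) A := hfin
  exact (le_dim_pow k).trans (dim_le_of_inj_int hinj)

theorem dim_le {A : Type*} [CommRing A] [IsLocalRing A] [IsNoetherianRing A] (k : ℕ)
    (x : Fin k → A) (hx : ∀ i, x i ∈ IsLocalRing.maximalIdeal A) (N : ℕ)
    (hN : (IsLocalRing.maximalIdeal A) ^ N ≤ Ideal.span (Set.range x)) :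
    ringKrullDim A ≤ (k : WithBot ℕ∞) := by
  rw [← IsLocalRing.maximalIdeal_height_eq_ringKrullDim]
  have hle : Ideal.span (Set.range x) ≤ IsLocalRing.maximalIdeal A := by
    rw [Ideal.span_le]
    rintro _ ⟨i, rfl⟩
    exact hx i
  have hmin : IsLocalRing.maximalIdeal A ∈ (Ideal.span (Set.range x)).minimalPrimes := by
    refine ⟨⟨inferInstance, hle⟩, ?_⟩
    rintro Q ⟨hQ, hQ2⟩ -
    have h1 : (IsLocalRing.maximalIdeal A) ^ N ≤ Q := hN.trans hQ2
    rcases Nat.eq_zero_or_pos N with rfl | hNpos
    · exact absurd (h1.trans' (by simp) : (⊤ : Ideal A) ≤ Q) (fun h => hQ.ne_top (top_le_iff.mp h))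
    · exact hQ.le_of_pow_le h1
  have h2 := Ideal.height_le_card_of_mem_minimalPrimes_span (Set.finite_range x) hmin
  have h3 : (Set.range x).ncard ≤ k := by
    rw [← Set.image_univ]
    refine (Set.ncard_image_le Set.finite_univ).trans ?_
    rw [Set.ncard_univ]
    simp
  have h4 : (IsLocalRing.maximalIdeal A).height ≤ (k : ℕ∞) := h2.trans (by exact_mod_cast h3)
  exact_mod_cast h4

theorem k_eq_two {A : Type*} [CommRing A] [IsLocalRing A] [IsNoetherianRing A]
    (hdim : ringKrullDim A = 2) (k : ℕ) (φ : MvPowerSeries (Fin k) ℂ →+* A)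
    (hinj : Function.Injective φ) (hfin : φ.Finite)
    (x : Fin k → A) (hx : ∀ i, x i ∈ IsLocalRing.maximalIdeal A) (N : ℕ)
    (hN : (IsLocalRing.maximalIdeal A) ^ N ≤ Ideal.span (Set.range x)) : k = 2 := by
  have h1 := le_dim k φ hinj hfin
  have h2 := dim_le k x hx N hN
  rw [hdim] at h1 h2
  have h3 : (k : WithBot ℕ∞) = ((2 : ℕ) : WithBot ℕ∞) := le_antisymm (by simpa using h1) (by simpa using h2)
  exact_mod_cast h3

end Pool.Agent.Helper85.RIG
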