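import Mathlib
import Pool.Agent.Helper85.RIG.S2Facts

/-!
# RIG-33 Eval: power series can be evaluated at elements of the maximal ideal of `A = P / I`

* `exists_eval`: write `x i = mk I (g i)` with `constantCoeff (g i) = 0` (take `g i - C c` where `c` is the
  constant coefficient of a lift; `c = 0` because otherwise the lift is a unit and so is `x i`). Use the
  substitution homomorphism `MvPowerSeries.substAlgHom` (with `MvPowerSeries.hasSubst_of_constantCoeff_zero` or a
  similar lemma) `f -> f(g_1, .., g_k)`, then the quotient map.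
* `eval_mem_pow`: `f` is in `(X_1, .., X_k)^N` by `le_order_iff_mem`; apply `Ideal.map`.
* `res_quot`: the residue field of `A` is the complex numbers: lift `a` to `g` in `P` and take `c = constantCoeff g`.
-/

set_option autoImplicit false

namespace Pool.Agent.Helper85.RIG

open MvPowerSeries

private theorem mk_not_unit {n : ℕ} (I : Ideal (MvPowerSeries (Fin n) ℂ))
    [IsLocalRing (MvPowerSeries (Fin n) ℂ ⧸ I)] {g : MvPowerSeries (Fin n) ℂ}
    (hg : constantCoeff g = 0) :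
    Ideal.Quotient.mk I g ∈ IsLocalRing.maximalIdeal (MvPowerSeries (Fin n) ℂ ⧸ I) := by
  rw [IsLocalRing.mem_maximalIdeal, mem_nonunits_iff]
  intro hu
  obtain ⟨b, hb⟩ := hu.exists_right_inv
  obtain ⟨q, rfl⟩ := Ideal.Quotient.mk_surjective b
  rw [← map_mul, ← map_one (Ideal.Quotient.mk I), Ideal.Quotient.eq] at hb
  have h1 : IsUnit (g * q - 1) := by
    rw [MvPowerSeries.isUnit_iff_constantCoeff, map_sub, map_mul, hg, zero_mul, map_one, zero_sub]
    exact isUnit_one.neg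
  have h2 : I = ⊤ := Ideal.eq_top_of_isUnit_mem I hb h1
  subst h2
  exact one_ne_zero (α := MvPowerSeries (Fin n) ℂ ⧸ (⊤ : Ideal (MvPowerSeries (Fin n) ℂ)))
    (Subsingleton.elim _ _)

theorem exists_eval {n k : ℕ} (I : Ideal (MvPowerSeries (Fin n) ℂ))
    [IsLocalRing (MvPowerSeries (Fin n) ℂ ⧸ I)] (x : Fin k → MvPowerSeries (Fin n) ℂ ⧸ I)
    (hx : ∀ i, x i ∈ IsLocalRing.maximalIdeal (MvPowerSeries (Fin n) ℂ ⧸ I)) :
    ∃ φ : MvPowerSeries (Fin k) ℂ →ₐ[ℂ] (MvPowerSeries (Fin n) ℂ ⧸ I), ∀ i, φ (X i) = x i := by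
  have h1 : ∀ i, ∃ g : MvPowerSeries (Fin n) ℂ, Ideal.Quotient.mk I g = x i :=
    fun i => Ideal.Quotient.mk_surjective (x i)
  choose g hg using h1
  have hc : ∀ i, constantCoeff (g i) = 0 := by
    intro i
    by_contra hne
    have h2 : IsUnit (g i) := by
      rw [MvPowerSeries.isUnit_iff_constantCoeff]
      exact isUnit_iff_ne_zero.2 hne
    have h3 := hx i
    rw [← hg i, IsLocalRing.mem_maximalIdeal, mem_nonunits_iff] at h3
    exact h3 (h2.map (Ideal.Quotient.mk I))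
  have ha : HasSubst g := hasSubst_of_constantCoeff_zero hc
  refine ⟨(Ideal.Quotient.mkₐ ℂ I).comp (substAlgHom (R := ℂ) ha), fun i => ?_⟩
  rw [AlgHom.comp_apply, substAlgHom_X]
  exact hg i

theorem eval_mem_pow {k : ℕ} {A : Type*} [CommRing A] (φ : MvPowerSeries (Fin k) ℂ →+* A)
    (f : MvPowerSeries (Fin k) ℂ) (N : ℕ) (hf : (N : ℕ∞) ≤ f.order) :
    φ f ∈ (Ideal.span (Set.range fun i => φ (X i))) ^ N := by
  have h1 := Ideal.mem_map_of_mem φ ((le_order_iff_mem f N).1 hf)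
  rw [Ideal.map_pow, Ideal.map_span, ← Set.range_comp] at h1
  exact h1

theorem res_quot {n : ℕ} (I : Ideal (MvPowerSeries (Fin n) ℂ))
    [IsLocalRing (MvPowerSeries (Fin n) ℂ ⧸ I)] (a : MvPowerSeries (Fin n) ℂ ⧸ I) :
    ∃ c : ℂ, a - algebraMap ℂ (MvPowerSeries (Fin n) ℂ ⧸ I) c ∈
      IsLocalRing.maximalIdeal (MvPowerSeries (Fin n) ℂ ⧸ I) := by
  obtain ⟨g, rfl⟩ := Ideal.Quotient.mk_surjective a
  refine ⟨constantCoeff g, ?_⟩
  have h1 : Ideal.Quotient.mk I g - algebraMap ℂ (MvPowerSeries (Fin n) ℂ ⧸ I) (constantCoeff g) =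
      Ideal.Quotient.mk I (g - algebraMap ℂ (MvPowerSeries (Fin n) ℂ) (constantCoeff g)) := by
    rw [map_sub]
    rfl
  rw [h1]
  apply mk_not_unit
  rw [map_sub, MvPowerSeries.algebraMap_apply, Algebra.algebraMap_self, RingHom.id_apply,
    constantCoeff_C, sub_self]

end Pool.Agent.Helper85.RIG
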