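import Mathlib
import Pool.Agent.Helper85.RIG.Eval

/-!
# RIG-35 FinRed: a power series ring mapping to a system of parameters is finite

`A = P / I` local, `phi : C[[X_1..X_k]] -> A` with `phi X_i` in `m` and `m^N <= (phi X_1, .., phi X_k)`. Then `A` is a
finite module over `C[[X_1..X_k]]`.

Proof. Let `S = C[[X_1..X_k]]`, `J = (X_1, .., X_k)`, `Q = J A = (phi X_i)`. `S` is `J`-adically complete (Mathlib:
`IsAdicComplete` for `MvPowerSeries` and the span of the range of `X`). `A` is `J`-adically separated: `J^j A = Q^j <= m^j` and the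
intersection of the `m^j` is zero by Krull (`Ideal.iInf_pow_eq_bot_of_isLocalRing`; `A` is noetherian: a quotient of
`MvPowerSeries (Fin n) C`, which is noetherian in Mathlib).
`A / Q` is spanned over the complex numbers by finitely many elements: `m = (z_1, .., z_n)` where `z_i` are the classes of
the variables, `A = sum_{|a| < N} C z^a + m^N` by induction on `N` (residue field: `res_quot`; `m^j` is generated by the monomials of
degree `j`) and `m^N <= Q`; or: `A / m^N` has finite length, each `m^j / m^(j+1)` is a finite dimensional complex vector space.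
Let `v_1, .., v_q` be these elements and `f : (Fin q -> S) -> A`, `f(s) = sum s_i v_i`. `f` is surjective modulo `J A`, so it is
surjective by `surjective_of_mkQ_comp_surjective` (`Mathlib/RingTheory/AdicCompletion/Functoriality.lean`; `Fin q -> S` is
`J`-adically (pre)complete: `IsAdicComplete.pi`/`IsPrecomplete` for finite free modules, or direct).
-/

set_option autoImplicit false

namespace Pool.Agent.Helper85.RIG

open MvPowerSeries

private theorem fr_mem {S ι : Type*} [CommRing S] [Finite ι] (J : Ideal S) (x : ι → S) :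
    x ∈ (J • ⊤ : Submodule S (ι → S)) ↔ ∀ i, x i ∈ J := by
  classical
  have : Fintype ι := Fintype.ofFinite ι
  constructor
  · intro h
    refine Submodule.smul_induction_on (p := fun x : ι → S => ∀ i, x i ∈ J) h ?_ ?_
    · intro r hr y _ i
      rw [Pi.smul_apply, smul_eq_mul]
      exact J.mul_mem_right _ hr
    · intro a b ha hb i
      exact J.add_mem (ha i) (hb i)
  · intro h
    have h1 : x = ∑ i, x i • (Pi.single i 1 : ι → S) := by
      funext j
      rw [Finset.sum_apply, Finset.sum_eq_single j]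
      · simp
      · intro i _ hi
        simp [Pi.single_eq_of_ne' hi]
      · intro hj
        exact absurd (Finset.mem_univ j) hj
    rw [h1]
    exact Submodule.sum_mem _ fun i _ => Submodule.smul_mem_smul (h i) Submodule.mem_top

private theorem fr_prec (k : ℕ) (ι : Type) [Finite ι] : IsPrecomplete
    (Ideal.span (Set.range (X : Fin k → MvPowerSeries (Fin k) ℂ))) (ι → MvPowerSeries (Fin k) ℂ) := by
  constructor
  intro f hf
  have hf' : ∀ {m n : ℕ}, m ≤ n → ∀ i, ∀ d : Fin k →₀ ℕ, d.degree < m →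
      coeff d (f m i) = coeff d (f n i) := by
    intro m n hmn i d hd
    have h1 := (fr_mem _ _).1 (SModEq.sub_mem.1 (hf hmn)) i
    rw [Pi.sub_apply, ← le_order_iff_mem] at h1
    have h2 := coeff_of_lt_order (f := f m i - f n i) (d := d) (lt_of_lt_of_le (by exact_mod_cast hd) h1)
    rw [map_sub] at h2
    exact sub_eq_zero.1 h2
  obtain ⟨L, hL⟩ : ∃ L : ι → MvPowerSeries (Fin k) ℂ, ∀ i (d : Fin k →₀ ℕ),
      coeff d (L i) = coeff d (f (d.degree + 1) i) :=
    ⟨fun i d => coeff d (f (d.degree + 1) i), fun i d => rfl⟩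
  refine ⟨L, fun n => ?_⟩
  rw [SModEq.sub_mem, fr_mem]
  intro i
  rw [← le_order_iff_mem]
  refine nat_le_order fun d hd => ?_
  rw [Pi.sub_apply, map_sub, hL, hf' (Nat.succ_le_of_lt hd) i d (Nat.lt_succ_self _), sub_self]

/-- Modulo powers of the maximal ideal everything is in a finite dimensional space. -/
private theorem fr_span {A : Type*} [CommRing A] [IsNoetherianRing A] [IsLocalRing A] [Algebra ℂ A]
    (hres : ∀ a : A, ∃ c : ℂ, a - algebraMap ℂ A c ∈ IsLocalRing.maximalIdeal A) (j : ℕ) :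
    ∃ V : Submodule ℂ A, V.FG ∧ ∀ a : A, ∃ v ∈ V, a - v ∈ IsLocalRing.maximalIdeal A ^ j := by
  induction j with
  | zero => exact ⟨⊥, Submodule.fg_bot, fun a => ⟨0, Submodule.zero_mem _, by simp⟩⟩
  | succ j ih =>
    obtain ⟨V, hV, h⟩ := ih
    obtain ⟨g, hg⟩ := (IsNoetherian.noetherian (IsLocalRing.maximalIdeal A ^ j) :
      (IsLocalRing.maximalIdeal A ^ j).FG)
    have hg1 : ∀ v ∈ Submodule.span ℂ (g : Set A), v ∈ IsLocalRing.maximalIdeal A ^ j := by
      intro v hv
      have h1 : Submodule.span ℂ (g : Set A) ≤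
          (IsLocalRing.maximalIdeal A ^ j : Ideal A).restrictScalars ℂ := by
        rw [Submodule.span_le]
        intro x hx
        have h2 : x ∈ Ideal.span (g : Set A) := Ideal.subset_span hx
        have h3 : x ∈ IsLocalRing.maximalIdeal A ^ j := by
          rw [← hg]
          exact h2
        exact h3
      exact h1 hv
    have hg2 : ∀ b ∈ IsLocalRing.maximalIdeal A ^ j, ∃ v ∈ Submodule.span ℂ (g : Set A),
        b - v ∈ IsLocalRing.maximalIdeal A ^ (j + 1) := by
      intro b hb
      rw [← hg] at hb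
      refine Submodule.span_induction (p := fun b _ => ∃ v ∈ Submodule.span ℂ (g : Set A),
        b - v ∈ IsLocalRing.maximalIdeal A ^ (j + 1)) ?_ ?_ ?_ ?_ hb
      · intro x hx
        exact ⟨x, Submodule.subset_span hx, by rw [sub_self]; exact Ideal.zero_mem _⟩
      · exact ⟨0, Submodule.zero_mem _, by rw [sub_self]; exact Ideal.zero_mem _⟩
      · rintro x y _ _ ⟨v, hv, hx⟩ ⟨w, hw, hy⟩
        refine ⟨v + w, Submodule.add_mem _ hv hw, ?_⟩
        rw [add_sub_add_comm]
        exact Ideal.add_mem _ hx hy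
      · rintro a x _ ⟨v, hv, hx⟩
        obtain ⟨c, hc⟩ := hres a
        refine ⟨c • v, Submodule.smul_mem _ _ hv, ?_⟩
        have h1 : a • x - c • v = a * (x - v) + (a - algebraMap ℂ A c) * v := by
          rw [smul_eq_mul, Algebra.smul_def]
          ring
        rw [h1]
        refine Ideal.add_mem _ (Ideal.mul_mem_left _ _ hx) ?_
        rw [pow_succ']
        exact Ideal.mul_mem_mul hc (hg1 v hv)
    refine ⟨V ⊔ Submodule.span ℂ (g : Set A), hV.sup ⟨g, rfl⟩, fun a => ?_⟩
    obtain ⟨v, hv, h1⟩ := h a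
    obtain ⟨w, hw, h2⟩ := hg2 _ h1
    exact ⟨v + w, Submodule.add_mem_sup hv hw, by rwa [← sub_sub]⟩

theorem finite_of_pow_le {n k : ℕ} (I : Ideal (MvPowerSeries (Fin n) ℂ))
    [IsLocalRing (MvPowerSeries (Fin n) ℂ ⧸ I)]
    (φ : MvPowerSeries (Fin k) ℂ →ₐ[ℂ] (MvPowerSeries (Fin n) ℂ ⧸ I))
    (hφ : ∀ i, φ (X i) ∈ IsLocalRing.maximalIdeal (MvPowerSeries (Fin n) ℂ ⧸ I))
    (N : ℕ) (hN : (IsLocalRing.maximalIdeal (MvPowerSeries (Fin n) ℂ ⧸ I)) ^ N ≤
      Ideal.span (Set.range fun i => φ (X i))) : φ.toRingHom.Finite := by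
  classical
  set A := MvPowerSeries (Fin n) ℂ ⧸ I with hA
  have hnoeth : IsNoetherianRing A := inferInstance
  obtain ⟨V, ⟨t, ht⟩, hV⟩ := fr_span (fun a : A => res_quot I a) N
  let _ : Algebra (MvPowerSeries (Fin k) ℂ) A := φ.toRingHom.toAlgebra
  have hsmul : ∀ (s : MvPowerSeries (Fin k) ℂ) (a : A), s • a = φ s * a := fun s a => rfl
  set J : Ideal (MvPowerSeries (Fin k) ℂ) := Ideal.span (Set.range X) with hJ
  have hJm : J.map (algebraMap (MvPowerSeries (Fin k) ℂ) A) ≤ IsLocalRing.maximalIdeal A := by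
    rw [Ideal.map_le_iff_le_comap, hJ, Ideal.span_le]
    rintro _ ⟨i, rfl⟩
    exact hφ i
  have hJm' : Ideal.span (Set.range fun i => φ (X i)) ≤
      J.map (algebraMap (MvPowerSeries (Fin k) ℂ) A) := by
    rw [Ideal.span_le]
    rintro _ ⟨i, rfl⟩
    exact Ideal.mem_map_of_mem (algebraMap (MvPowerSeries (Fin k) ℂ) A)
      (Ideal.subset_span ⟨i, rfl⟩)
  have hHaus : IsHausdorff J A := by
    constructor
    intro x hx
    have h1 : ∀ j, x ∈ IsLocalRing.maximalIdeal A ^ j := by
      intro j
      have h2 := SModEq.zero.1 (hx j)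
      rw [Ideal.smul_top_eq_map, Submodule.restrictScalars_mem, Ideal.map_pow] at h2
      exact Ideal.pow_right_mono hJm j h2
    have h3 : x ∈ ⨅ j, IsLocalRing.maximalIdeal A ^ j := Submodule.mem_iInf _ |>.2 h1
    rw [Ideal.iInf_pow_eq_bot_of_isLocalRing _ (IsLocalRing.maximalIdeal.isMaximal A).ne_top] at h3
    exact h3
  have hPre : IsPrecomplete J (t → MvPowerSeries (Fin k) ℂ) := fr_prec k t
  let f : (t → MvPowerSeries (Fin k) ℂ) →ₗ[MvPowerSeries (Fin k) ℂ] A :=
    { toFun := fun s => ∑ i, φ (s i) * (i : A)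
      map_add' := fun a b => by
        simp only [Pi.add_apply, map_add, add_mul, Finset.sum_add_distrib]
      map_smul' := fun r a => by
        rw [RingHom.id_apply, hsmul, Finset.mul_sum]
        refine Finset.sum_congr rfl fun i _ => ?_
        rw [Pi.smul_apply, smul_eq_mul, map_mul, mul_assoc] }
  have hsurj : Function.Surjective (Submodule.mkQ (J • ⊤ : Submodule _ A) ∘ₗ f) := by
    intro y
    obtain ⟨a, rfl⟩ := Submodule.mkQ_surjective _ y
    obtain ⟨v, hv, h1⟩ := hV a
    rw [← ht] at hv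
    obtain ⟨c, hc⟩ := Submodule.mem_span_finset'.1 hv
    refine ⟨fun i => algebraMap ℂ _ (c i), ?_⟩
    have h2 : f (fun i => algebraMap ℂ _ (c i)) = v := by
      change ∑ i, φ (algebraMap ℂ (MvPowerSeries (Fin k) ℂ) (c i)) * (i : A) = v
      rw [← hc]
      refine Finset.sum_congr rfl fun i _ => ?_
      rw [AlgHom.commutes, Algebra.smul_def]
    rw [LinearMap.comp_apply, h2, Submodule.mkQ_apply, Submodule.mkQ_apply]
    symm
    rw [Submodule.Quotient.eq, Ideal.smul_top_eq_map, Submodule.restrictScalars_mem]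
    exact hJm' (hN h1)
  have hs := surjective_of_mkQ_comp_surjective (I := J) hsurj
  exact Module.Finite.of_surjective f hs

end Pool.Agent.Helper85.RIG
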