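import Mathlib
import Pool.Agent.Helper85.RIG.Eval

/-!
# RIG-32 LeadForm: the leading form of a power series, evaluated

`f` in `C[[X_1..X_k]]` of order `r >= 1`, `phi : C[[X_1..X_k]] -> A` a homomorphism of complex algebras, `x_j = phi X_j`,
`Q = (x_1, .., x_k)`. There are `c` in `C^k`, an index `l` with `c_l = 1`, and `gamma <> 0` with
`phi f - gamma x_l^r` in `Q' Q^(r-1) + Q^(r+1)`, `Q' = (x_j - c_j x_l, all j)`.

Proof. Let `F` be the homogeneous part of degree `r` of `f`, a nonzero homogeneous
polynomial in `k` variables (`MvPolynomial`; e.g. `MvPowerSeries.truncTotal`/ or the finite sum over the `d` of degree `r`),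
`f - F` of order `>= r + 1`, so `phi (f - F)` is in `Q^(r+1)` (`eval_mem_pow`). There is `c` in `C^k` with `F(c) <> 0`
(infinite field: `MvPolynomial.funext` or similar), and `c <> 0` as `r >= 1`; scaling by homogeneity we may assume `c_l = 1` for one index `l`.
`x_j = (x_j - c_j x_l) + c_j x_l`, so a monomial of degree `r` in the `x_j` is congruent to `c^a x_l^r` modulo `Q' Q^(r-1)`
(induction on the degree: if `u - a x_l^r` is in `Q' Q^(r-1)` then `u x_j - a c_j x_l^(r+1) = (u - a x_l^r) x_j + a x_l^r (x_j - c_j x_l)`),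
so `F(x) - F(c) x_l^r` is in `Q' Q^(r-1)`. `gamma = F(c)`.
-/

set_option autoImplicit false

namespace Pool.Agent.Helper85.RIG

open MvPowerSeries

theorem lead_key {A : Type*} [CommRing A] [Algebra ℂ A] {k : ℕ} (x : Fin k → A) (c : Fin k → ℂ)
    (l : Fin k) : ∀ (n : ℕ) (d : Fin k →₀ ℕ), d.degree = n + 1 →
      (d.prod fun j m => x j ^ m) - algebraMap ℂ A (d.prod fun j m => c j ^ m) * x l ^ (n + 1) ∈
        Ideal.span (Set.range fun j => x j - algebraMap ℂ A (c j) * x l) *
          Ideal.span (Set.range x) ^ n := by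
  intro n
  induction n with
  | zero =>
    intro d hd
    have hd0 : d ≠ 0 := by
      rintro rfl
      simp at hd
    obtain ⟨j, hj⟩ := Finsupp.ne_iff.1 hd0
    have hj1 : 1 ≤ d j := Nat.one_le_iff_ne_zero.2 hj
    have hd1 : d = Finsupp.single j 1 + (d - Finsupp.single j 1) := by
      ext i
      rw [Finsupp.add_apply, Finsupp.tsub_apply, Finsupp.single_apply]
      split_ifs with h
      · subst h
        omega
      · omega
    have h2 : (d - Finsupp.single j 1).degree = 0 := by
      have := congrArg Finsupp.degree hd1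
      rw [map_add, Finsupp.degree_single] at this
      omega
    rw [Finsupp.degree_eq_zero_iff] at h2
    rw [h2, add_zero] at hd1
    rw [hd1, Finsupp.prod_single_index (by simp), Finsupp.prod_single_index (by simp)]
    simp only [pow_one, pow_zero, Ideal.one_eq_top, Ideal.mul_top, zero_add]
    exact Ideal.subset_span ⟨j, rfl⟩
  | succ n ih =>
    intro d hd
    have hd0 : d ≠ 0 := by
      rintro rfl
      simp at hd
    obtain ⟨j, hj⟩ := Finsupp.ne_iff.1 hd0
    have hj1 : 1 ≤ d j := Nat.one_le_iff_ne_zero.2 hj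
    have hd1 : d = Finsupp.single j 1 + (d - Finsupp.single j 1) := by
      ext i
      rw [Finsupp.add_apply, Finsupp.tsub_apply, Finsupp.single_apply]
      split_ifs with h
      · subst h
        omega
      · omega
    have h2 : (d - Finsupp.single j 1).degree = n + 1 := by
      have := congrArg Finsupp.degree hd1
      rw [map_add, Finsupp.degree_single] at this
      omega
    have h3 := ih _ h2
    set e := d - Finsupp.single j 1 with he
    rw [hd1, Finsupp.prod_add_index' (by simp) (by intro a b1 b2; rw [pow_add]),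
      Finsupp.prod_add_index' (by simp) (by intro a b1 b2; rw [pow_add]),
      Finsupp.prod_single_index (by simp), Finsupp.prod_single_index (by simp)]
    simp only [pow_one]
    have h4 : x j * (e.prod fun j m => x j ^ m) -
        algebraMap ℂ A (c j * (e.prod fun j m => c j ^ m)) * x l ^ (n + 1 + 1) =
        ((e.prod fun j m => x j ^ m) - algebraMap ℂ A (e.prod fun j m => c j ^ m) * x l ^ (n + 1)) *
          x j + (x j - algebraMap ℂ A (c j) * x l) *
            (algebraMap ℂ A (e.prod fun j m => c j ^ m) * x l ^ (n + 1)) := by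
      rw [map_mul]
      ring
    rw [h4]
    refine Ideal.add_mem _ ?_ ?_
    · rw [pow_succ, ← mul_assoc]
      exact Ideal.mul_mem_mul h3 (Ideal.subset_span ⟨j, rfl⟩)
    · refine Ideal.mul_mem_mul (Ideal.subset_span ⟨j, rfl⟩) (Ideal.mul_mem_left _ _ ?_)
      exact Ideal.pow_mem_pow (Ideal.subset_span (Set.mem_range_self l)) _

theorem lead_form {A : Type*} [CommRing A] [Algebra ℂ A] (k : ℕ)
    (φ : MvPowerSeries (Fin k) ℂ →ₐ[ℂ] A) (f : MvPowerSeries (Fin k) ℂ) (r : ℕ) (hr1 : 1 ≤ r)
    (hr : f.order = (r : ℕ∞)) :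
    ∃ (c : Fin k → ℂ) (l : Fin k) (γ : ℂ), c l = 1 ∧ γ ≠ 0 ∧
      φ f - algebraMap ℂ A γ * φ (X l) ^ r ∈
        Ideal.span (Set.range fun j => φ (X j) - algebraMap ℂ A (c j) * φ (X l)) *
          Ideal.span (Set.range fun j => φ (X j)) ^ (r - 1) ⊔
        Ideal.span (Set.range fun j => φ (X j)) ^ (r + 1) := by
  classical
  let D : Finset (Fin k →₀ ℕ) := Finset.finsuppAntidiag Finset.univ r
  have hD : ∀ d, d ∈ D ↔ d.degree = r := by
    intro d
    show d ∈ Finset.finsuppAntidiag Finset.univ r ↔ _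
    rw [Finset.mem_finsuppAntidiag, Finsupp.degree_eq_sum]
    constructor
    · exact fun h => h.1
    · exact fun h => ⟨h, Finset.subset_univ _⟩
  let G : MvPowerSeries (Fin k) ℂ := ∑ d ∈ D, MvPowerSeries.monomial d (coeff d f)
  let F : MvPolynomial (Fin k) ℂ := ∑ d ∈ D, MvPolynomial.monomial d (coeff d f)
  have hG : ∀ e, coeff e G = if e.degree = r then coeff e f else 0 := by
    intro e
    show coeff e (∑ d ∈ D, MvPowerSeries.monomial d (coeff d f)) = _
    rw [map_sum]
    split_ifs with h
    · rw [Finset.sum_eq_single e]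
      · rw [MvPowerSeries.coeff_monomial, if_pos rfl]
      · intro b _ hb
        rw [MvPowerSeries.coeff_monomial, if_neg (Ne.symm hb)]
      · intro h1
        exact (h1 ((hD e).2 h)).elim
    · refine Finset.sum_eq_zero fun b hb => ?_
      rw [MvPowerSeries.coeff_monomial, if_neg]
      rintro rfl
      exact h ((hD _).1 hb)
  have hord : ((r + 1 : ℕ) : ℕ∞) ≤ (f - G).order := by
    refine MvPowerSeries.nat_le_order fun d hd => ?_
    rw [map_sub, hG]
    split_ifs with h
    · rw [sub_self]
    · have h1 : d.degree < r := by omega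
      rw [MvPowerSeries.coeff_of_lt_order (by rw [hr]; exact_mod_cast h1), sub_zero]
  have hmem := eval_mem_pow (φ : MvPowerSeries (Fin k) ℂ →+* A) (f - G) (r + 1) hord
  have hF0 : F ≠ 0 := by
    obtain ⟨⟨d, hd1, hd2⟩, -⟩ := MvPowerSeries.order_eq_nat.1 hr
    intro h
    have h1 : MvPolynomial.coeff d F = coeff d f := by
      show MvPolynomial.coeff d (∑ d ∈ D, MvPolynomial.monomial d (coeff d f)) = _
      rw [MvPolynomial.coeff_sum, Finset.sum_eq_single d]
      · rw [MvPolynomial.coeff_monomial, if_pos rfl]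
      · intro b _ hb
        rw [MvPolynomial.coeff_monomial, if_neg hb]
      · intro h2
        exact (h2 ((hD d).2 hd2)).elim
    rw [h, MvPolynomial.coeff_zero] at h1
    exact hd1 h1.symm
  have heval : ∀ c : Fin k → ℂ, MvPolynomial.eval c F =
      ∑ d ∈ D, coeff d f * d.prod fun j m => c j ^ m := by
    intro c
    show MvPolynomial.eval c (∑ d ∈ D, MvPolynomial.monomial d (coeff d f)) = _
    rw [map_sum]
    refine Finset.sum_congr rfl fun d _ => ?_
    rw [MvPolynomial.eval_monomial]
  obtain ⟨c₀, hc₀⟩ : ∃ c : Fin k → ℂ, MvPolynomial.eval c F ≠ 0 := by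
    by_contra hcon
    push Not at hcon
    refine hF0 (MvPolynomial.funext fun c => ?_)
    rw [hcon c, map_zero]
  obtain ⟨l, hl⟩ : ∃ l, c₀ l ≠ 0 := by
    by_contra hcon
    push Not at hcon
    refine hc₀ ?_
    rw [heval]
    refine Finset.sum_eq_zero fun d hd => ?_
    have hd1 := (hD d).1 hd
    have hd0 : d ≠ 0 := by
      rintro rfl
      simp at hd1
      omega
    obtain ⟨j, hj⟩ := Finsupp.ne_iff.1 hd0
    have : (d.prod fun j m => c₀ j ^ m) = 0 := by
      rw [Finsupp.prod]
      refine Finset.prod_eq_zero (Finsupp.mem_support_iff.2 hj) ?_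
      rw [hcon j]
      exact zero_pow hj
    rw [this, mul_zero]
  let c : Fin k → ℂ := fun j => (c₀ l)⁻¹ * c₀ j
  have hcl : c l = 1 := inv_mul_cancel₀ hl
  have hce : MvPolynomial.eval c F = (c₀ l)⁻¹ ^ r * MvPolynomial.eval c₀ F := by
    rw [heval, heval, Finset.mul_sum]
    refine Finset.sum_congr rfl fun d hd => ?_
    have hd1 := (hD d).1 hd
    have : (d.prod fun j m => c j ^ m) = (c₀ l)⁻¹ ^ r * d.prod fun j m => c₀ j ^ m := by
      show (d.prod fun j m => ((c₀ l)⁻¹ * c₀ j) ^ m) = _
      rw [Finsupp.prod, Finsupp.prod, ← hd1, Finsupp.degree_apply]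
      simp only [mul_pow]
      rw [Finset.prod_mul_distrib, Finset.prod_pow_eq_pow_sum]
    rw [this]
    ring
  refine ⟨c, l, MvPolynomial.eval c F, hcl, ?_, ?_⟩
  · rw [hce]
    exact mul_ne_zero (pow_ne_zero _ (inv_ne_zero hl)) hc₀
  have hφG : φ G = ∑ d ∈ D, algebraMap ℂ A (coeff d f) * d.prod fun j m => φ (X j) ^ m := by
    show φ (∑ d ∈ D, MvPowerSeries.monomial d (coeff d f)) = _
    rw [map_sum]
    refine Finset.sum_congr rfl fun d _ => ?_
    rw [MvPowerSeries.monomial_eq', map_mul, map_finsuppProd]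
    congr 1
    · rw [← AlgHom.commutes φ]
      rfl
    · refine Finsupp.prod_congr fun j _ => ?_
      rw [map_pow]
  have hdecomp : φ f - algebraMap ℂ A (MvPolynomial.eval c F) * φ (X l) ^ r =
      (∑ d ∈ D, algebraMap ℂ A (coeff d f) * ((d.prod fun j m => φ (X j) ^ m) -
        algebraMap ℂ A (d.prod fun j m => c j ^ m) * φ (X l) ^ r)) + φ (f - G) := by
    rw [map_sub, hφG, heval, map_sum]
    simp only [mul_sub, Finset.sum_sub_distrib, map_mul]
    rw [Finset.sum_mul]
    simp only [mul_assoc]
    ring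
  rw [hdecomp]
  refine Submodule.add_mem_sup ?_ hmem
  refine Ideal.sum_mem _ fun d hd => Ideal.mul_mem_left _ _ ?_
  obtain ⟨n, rfl⟩ : ∃ n, r = n + 1 := ⟨r - 1, by omega⟩
  exact lead_key (fun j => φ (X j)) c l n d ((hD d).1 hd)

end Pool.Agent.Helper85.RIG
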