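import Mathlib
import Pool.Agent.Helper85.RIG.LeadForm

/-!
# RIG-34 RedMin: a minimal reduction is analytically independent

`A` is a noetherian local ring which is a complex algebra, `m` its maximal ideal, `x_1, .., x_k` in `m` generate a
reduction of `m` (`m^(s+1) <= (x) m^s` for some `s`) with `k` minimal. Every complex algebra
homomorphism `phi : C[[X_1..X_k]] -> A` with `phi X_i = x_i` is injective.

Proof. Suppose `phi f = 0`, `f <> 0`, `r = order f`. If `r = 0` then `f` is a unit, contradiction (`A` is nontrivial). Let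
`r >= 1` and take `c`, `l`, `gamma` from `lead_form`: with `Q = (x)`, `Q' = (x_j - c_j x_l)` (the generator with `j = l` is `0`):
`gamma x_l^r` is in `Q' Q^(r-1) + Q^(r+1)`. `Q = Q' + (x_l)`, so `Q^r <= Q' Q^(r-1) + (x_l^r) <= Q' Q^(r-1) + m Q^r`
(`Q^r = (Q' + (x_l)) Q^(r-1)`, `x_l Q^(r-1) <= Q' Q^(r-1) + (x_l^r)` by induction). By Nakayama
(`Submodule.le_of_le_smul_of_le_jacobson_bot` or similar) `Q^r <= Q' Q^(r-1)`. Then
`m^(s+r) <= Q^r m^s <= Q' Q^(r-1) m^s <= Q' m^(s+r-1)`, contradicting the minimality of `k` (with the `k - 1` elements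
`x_j - c_j x_l`, `j <> l`, indexed by `Fin (k-1)` through `Fin.succAbove` or an equivalence).
-/

set_option autoImplicit false

namespace Pool.Agent.Helper85.RIG

open MvPowerSeries

private theorem pow_le_of_gen {A : Type*} [CommRing A] {Q Q' : Ideal A} {a : A}
    (hQ : Q ≤ Q' ⊔ Ideal.span {a}) (ha : a ∈ Q) (m : ℕ) :
    Q ^ (m + 1) ≤ Q' * Q ^ m ⊔ Ideal.span {a ^ (m + 1)} := by
  induction m with
  | zero => simpa using hQ
  | succ m ih =>
    have h1 : Ideal.span {a} ≤ Q := (Ideal.span_singleton_le_iff_mem _).2 ha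
    calc Q ^ (m + 1 + 1) = Q * Q ^ (m + 1) := by rw [pow_succ']
      _ ≤ (Q' ⊔ Ideal.span {a}) * Q ^ (m + 1) := Ideal.mul_mono_left hQ
      _ = Q' * Q ^ (m + 1) ⊔ Ideal.span {a} * Q ^ (m + 1) := Ideal.sup_mul _ _ _
      _ ≤ Q' * Q ^ (m + 1) ⊔ Ideal.span {a} * (Q' * Q ^ m ⊔ Ideal.span {a ^ (m + 1)}) :=
          sup_le_sup_left (Ideal.mul_mono_right ih) _
      _ ≤ Q' * Q ^ (m + 1) ⊔ Ideal.span {a ^ (m + 1 + 1)} := by
          rw [Ideal.mul_sup, Ideal.span_singleton_mul_span_singleton, ← pow_succ']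
          refine sup_le le_sup_left (sup_le (le_sup_of_le_left ?_) le_sup_right)
          calc Ideal.span {a} * (Q' * Q ^ m) ≤ Q * (Q' * Q ^ m) := Ideal.mul_mono_left h1
            _ = Q' * Q ^ (m + 1) := by rw [pow_succ']; ring

private theorem pow_add_le {A : Type*} [CommRing A] {Q M : Ideal A} {s : ℕ}
    (h : M ^ (s + 1) ≤ Q * M ^ s) (j : ℕ) : M ^ (s + j) ≤ Q ^ j * M ^ s := by
  induction j with
  | zero => simp
  | succ j ih =>
    calc M ^ (s + (j + 1)) = M ^ (s + j) * M := by rw [← add_assoc, pow_succ]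
      _ ≤ (Q ^ j * M ^ s) * M := Ideal.mul_mono_left ih
      _ = Q ^ j * M ^ (s + 1) := by rw [pow_succ]; ring
      _ ≤ Q ^ j * (Q * M ^ s) := Ideal.mul_mono_right h
      _ = Q ^ (j + 1) * M ^ s := by rw [pow_succ]; ring

theorem injective_of_min {A : Type*} [CommRing A] [IsLocalRing A] [IsNoetherianRing A] [Algebra ℂ A]
    (k : ℕ) (x : Fin k → A) (hx : ∀ i, x i ∈ IsLocalRing.maximalIdeal A)
    (hred : ∃ s : ℕ, (IsLocalRing.maximalIdeal A) ^ (s + 1) ≤
      Ideal.span (Set.range x) * (IsLocalRing.maximalIdeal A) ^ s)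
    (hmin : ∀ k' < k, ∀ x' : Fin k' → A, (∀ i, x' i ∈ IsLocalRing.maximalIdeal A) →
      ¬ ∃ s : ℕ, (IsLocalRing.maximalIdeal A) ^ (s + 1) ≤
        Ideal.span (Set.range x') * (IsLocalRing.maximalIdeal A) ^ s)
    (φ : MvPowerSeries (Fin k) ℂ →ₐ[ℂ] A) (hφ : ∀ i, φ (X i) = x i) :
    Function.Injective φ := by
  rw [injective_iff_map_eq_zero]
  intro f hf0
  by_contra hf
  have hord : f.order ≠ ⊤ := fun h => hf (MvPowerSeries.order_eq_top_iff.1 h)
  obtain ⟨r, hr⟩ := WithTop.ne_top_iff_exists.1 hord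
  have hr1 : 1 ≤ r := by
    by_contra hr0
    have hr0' : r = 0 := by omega
    subst hr0'
    have h1 : constantCoeff f ≠ 0 := fun h2 =>
      (MvPowerSeries.order_ne_zero_iff_constCoeff_eq_zero.2 h2) hr.symm
    have h2 : IsUnit f := MvPowerSeries.isUnit_iff_constantCoeff.2 (isUnit_iff_ne_zero.2 h1)
    have h3 := h2.map φ
    rw [hf0] at h3
    exact not_isUnit_zero h3
  obtain ⟨c, l, γ, hcl, hγ, hmem⟩ := lead_form k φ f r hr1 hr.symm
  rw [hf0, zero_sub] at hmem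
  simp only [hφ] at hmem
  set M := IsLocalRing.maximalIdeal A with hM
  set Q := Ideal.span (Set.range x) with hQ
  set Q' := Ideal.span (Set.range fun j => x j - algebraMap ℂ A (c j) * x l) with hQ'
  have hxQ : ∀ j, x j ∈ Q := fun j => Ideal.subset_span ⟨j, rfl⟩
  have hQM : Q ≤ M := by
    rw [hQ, Ideal.span_le]
    rintro _ ⟨j, rfl⟩
    exact hx j
  have hQQ : Q ≤ Q' ⊔ Ideal.span {x l} := by
    rw [hQ, Ideal.span_le]
    rintro _ ⟨j, rfl⟩
    have h1 : x j = (x j - algebraMap ℂ A (c j) * x l) + algebraMap ℂ A (c j) * x l := by ring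
    rw [SetLike.mem_coe, h1]
    exact Submodule.add_mem_sup (Ideal.subset_span ⟨j, rfl⟩)
      (Ideal.mul_mem_left _ _ (Ideal.mem_span_singleton_self _))
  obtain ⟨m, rfl⟩ : ∃ m, r = m + 1 := ⟨r - 1, by omega⟩
  rw [Nat.add_sub_cancel] at hmem
  have hxl : x l ^ (m + 1) ∈ Q' * Q ^ m ⊔ Q ^ (m + 1 + 1) := by
    have h1 : x l ^ (m + 1) = algebraMap ℂ A (-γ⁻¹) * (-(algebraMap ℂ A γ * x l ^ (m + 1))) := by
      rw [map_neg, neg_mul_neg, ← mul_assoc, ← map_mul, inv_mul_cancel₀ hγ, map_one, one_mul]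
    rw [h1]
    exact Ideal.mul_mem_left _ _ hmem
  have h1 : Q ^ (m + 1) ≤ Q' * Q ^ m ⊔ M • Q ^ (m + 1) := by
    refine (pow_le_of_gen hQQ (hxQ l) m).trans (sup_le le_sup_left ?_)
    rw [Ideal.span_singleton_le_iff_mem]
    have h5 : Q ^ (m + 1 + 1) ≤ M • Q ^ (m + 1) := by
      rw [pow_succ' Q (m + 1), smul_eq_mul]
      exact Ideal.mul_mono_left hQM
    exact (sup_le_sup_left h5 (Q' * Q ^ m)) hxl
  have h2 : Q ^ (m + 1) ≤ Q' * Q ^ m := by
    refine Submodule.le_of_le_smul_of_le_jacobson_bot (I := M) (IsNoetherian.noetherian _) ?_ h1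
    rw [IsLocalRing.jacobson_eq_maximalIdeal _ bot_ne_top]
  obtain ⟨s, hs⟩ := hred
  have h3 : M ^ (s + m + 1) ≤ Q' * M ^ (s + m) := by
    calc M ^ (s + m + 1) = M ^ (s + (m + 1)) := by rw [add_assoc]
      _ ≤ Q ^ (m + 1) * M ^ s := pow_add_le hs (m + 1)
      _ ≤ (Q' * Q ^ m) * M ^ s := Ideal.mul_mono_left h2
      _ ≤ (Q' * M ^ m) * M ^ s :=
          Ideal.mul_mono_left (Ideal.mul_mono_right (Ideal.pow_right_mono hQM m))
      _ = Q' * M ^ (s + m) := by rw [pow_add]; ring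
  -- fewer generators
  obtain ⟨k', rfl⟩ : ∃ k', k = k' + 1 := ⟨k - 1, by have := l.2; omega⟩
  refine hmin k' (Nat.lt_succ_self _)
    (fun i => x (l.succAbove i) - algebraMap ℂ A (c (l.succAbove i)) * x l)
    (fun i => M.sub_mem (hx _) (Ideal.mul_mem_left _ _ (hx l))) ⟨s + m, ?_⟩
  refine h3.trans (Ideal.mul_mono_left ?_)
  rw [hQ', Ideal.span_le]
  rintro _ ⟨j, rfl⟩
  by_cases hj : j = l
  · subst hj
    simp only [hcl, map_one, one_mul, sub_self, SetLike.mem_coe]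
    exact Ideal.zero_mem _
  · obtain ⟨i, rfl⟩ := Fin.exists_succAbove_eq hj
    exact Ideal.subset_span ⟨i, rfl⟩

end Pool.Agent.Helper85.RIG
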