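import Mathlib
import Pool.Agent.Helper85.RIG.RedMin
import Pool.Agent.Helper85.RIG.FinRed
import Pool.Agent.Helper85.RIG.DimK

/-!
# RIG-37 Noether: Noether normalisation by a minimal reduction

A local quotient `A` of a power series ring of dimension two is a finite module over `C[[x, y]]`, embedded
by a homomorphism with `m^(r+1) = (x, y) m^r`.
-/

set_option autoImplicit false

namespace Pool.Agent.Helper85.RIG

open MvPowerSeries

theorem noether {n : ℕ} (I : Ideal (MvPowerSeries (Fin n) ℂ))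
    [IsLocalRing (MvPowerSeries (Fin n) ℂ ⧸ I)]
    (hdim : ringKrullDim (MvPowerSeries (Fin n) ℂ ⧸ I) = 2) :
    ∃ φ : S2 →ₐ[ℂ] (MvPowerSeries (Fin n) ℂ ⧸ I), Function.Injective φ ∧
      φ.toRingHom.Finite ∧
      (∀ i, φ (X i) ∈ IsLocalRing.maximalIdeal (MvPowerSeries (Fin n) ℂ ⧸ I)) ∧
      ∃ r : ℕ, (IsLocalRing.maximalIdeal (MvPowerSeries (Fin n) ℂ ⧸ I)) ^ (r + 1) =
        Ideal.span {φ (X 0), φ (X 1)} *
          (IsLocalRing.maximalIdeal (MvPowerSeries (Fin n) ℂ ⧸ I)) ^ r := by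
  classical
  have : IsNoetherianRing (MvPowerSeries (Fin n) ℂ ⧸ I) := inferInstance
  set A := MvPowerSeries (Fin n) ℂ ⧸ I with hA
  set m := IsLocalRing.maximalIdeal A with hm
  let p : ℕ → Prop := fun k => ∃ x : Fin k → A, (∀ i, x i ∈ m) ∧
    ∃ s : ℕ, m ^ (s + 1) ≤ Ideal.span (Set.range x) * m ^ s
  have hp : ∃ k, p k := by
    obtain ⟨k, x, hx⟩ := Submodule.fg_iff_exists_fin_generating_family.mp
      (IsNoetherian.noetherian m)
    refine ⟨k, x, ?_, 0, ?_⟩
    · intro i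
      rw [← hx]
      exact Submodule.subset_span ⟨i, rfl⟩
    · rw [zero_add, pow_one, pow_zero, mul_one]
      exact hx.ge
  obtain ⟨k, hkp, hkmin⟩ : ∃ k, p k ∧ ∀ k' < k, ¬ p k' :=
    ⟨Nat.find hp, Nat.find_spec hp, fun k' h => Nat.find_min hp h⟩
  obtain ⟨x, hxm, s, hs⟩ := hkp
  have hmin : ∀ k' < k, ∀ x' : Fin k' → A, (∀ i, x' i ∈ m) →
      ¬ ∃ s : ℕ, m ^ (s + 1) ≤ Ideal.span (Set.range x') * m ^ s := by
    intro k' hk' x' hx' h
    exact hkmin k' hk' ⟨x', hx', h⟩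
  obtain ⟨φ, hφ⟩ := exists_eval I x hxm
  have hinj := injective_of_min k x hxm ⟨s, hs⟩ hmin φ hφ
  have hrange : (Set.range fun i => φ (X i)) = Set.range x := by
    congr 1
    funext i
    exact hφ i
  have hN : m ^ (s + 1) ≤ Ideal.span (Set.range x) := hs.trans Ideal.mul_le_left
  have hfin := finite_of_pow_le I φ (fun i => by rw [hφ]; exact hxm i) (s + 1)
    (by rw [hrange]; exact hN)
  have hk2 : k = 2 := k_eq_two hdim k φ.toRingHom hinj hfin x hxm (s + 1) hN
  subst hk2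
  refine ⟨φ, hinj, hfin, fun i => by rw [hφ]; exact hxm i, s, ?_⟩
  have hr2 : Set.range x = {φ (X 0), φ (X 1)} := by
    rw [hφ, hφ]
    ext z
    constructor
    · rintro ⟨i, rfl⟩
      fin_cases i
      · left; rfl
      · right; rfl
    · rintro (rfl | rfl)
      · exact ⟨0, rfl⟩
      · exact ⟨1, rfl⟩
  apply le_antisymm
  · rw [← hr2]; exact hs
  · rw [pow_succ', ← hr2]
    apply Ideal.mul_mono_left
    rw [Ideal.span_le]
    rintro z ⟨i, rfl⟩
    exact hxm i

end Pool.Agent.Helper85.RIG
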