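import Mathlib
import Pool.Agent.Helper85.RIG.Core
import Pool.Agent.Helper85.RIG.Noether
import Pool.Agent.Helper85.RigidLift

/-!
# RIG Main: a rigid normal surface singularity is smooth
-/

set_option autoImplicit false

namespace Pool.Agent.Helper85.RIG

open MvPowerSeries

theorem rigid_imp_smooth {n : ℕ} (I : Ideal (MvPowerSeries (Fin n) ℂ))
    [IsDomain (MvPowerSeries (Fin n) ℂ ⧸ I)] [IsIntegrallyClosed (MvPowerSeries (Fin n) ℂ ⧸ I)]
    (hdim : ringKrullDim (MvPowerSeries (Fin n) ℂ ⧸ I) = 2)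
    (hrig : ∀ φ : I →ₗ[MvPowerSeries (Fin n) ℂ] (MvPowerSeries (Fin n) ℂ ⧸ I),
        ∃ D : Derivation ℂ (MvPowerSeries (Fin n) ℂ) (MvPowerSeries (Fin n) ℂ ⧸ I),
          ∀ x : I, D (x : MvPowerSeries (Fin n) ℂ) = φ x) :
    Nonempty ((MvPowerSeries (Fin n) ℂ ⧸ I) ≃ₐ[ℂ] MvPowerSeries (Fin 2) ℂ) := by
  have hloc : IsLocalRing (MvPowerSeries (Fin n) ℂ ⧸ I) :=
    IsLocalRing.of_surjective' (Ideal.Quotient.mk I) Ideal.Quotient.mk_surjective
  have hnoeth : IsNoetherianRing (MvPowerSeries (Fin n) ℂ ⧸ I) := inferInstance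
  obtain ⟨φ, hinj, hfin, hX, r, hred⟩ := noether I hdim
  letI : Algebra S2 (MvPowerSeries (Fin n) ℂ ⧸ I) := φ.toRingHom.toAlgebra
  have hmap : ∀ f : S2, algebraMap S2 (MvPowerSeries (Fin n) ℂ ⧸ I) f = φ f := fun f => rfl
  have : IsScalarTower ℂ S2 (MvPowerSeries (Fin n) ℂ ⧸ I) :=
    IsScalarTower.of_algebraMap_eq (fun c => by rw [hmap, φ.commutes])
  have : Module.Finite S2 (MvPowerSeries (Fin n) ℂ ⧸ I) := hfin
  have : FaithfulSMul S2 (MvPowerSeries (Fin n) ℂ ⧸ I) :=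
    (faithfulSMul_iff_algebraMap_injective _ _).mpr hinj
  have hx0 : algebraMap S2 (MvPowerSeries (Fin n) ℂ ⧸ I) (X 0) ≠ 0 := by
    intro h
    exact X0_ne_zero (FaithfulSMul.algebraMap_injective S2 (MvPowerSeries (Fin n) ℂ ⧸ I)
      (by rw [h, map_zero]))
  have hbij := core (A := MvPowerSeries (Fin n) ℂ ⧸ I) hdim hX r hred (res_quot I)
    (fun δ => Pool.Agent.Helper85.exists_lift I hrig _ hx0 δ)
  exact ⟨(AlgEquiv.ofBijective φ hbij).symm⟩

end Pool.Agent.Helper85.RIG
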